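import Pool.Agent.T9h43.SA.Collar
import Pool.Agent.Y245.UC.Main
import Pool.Agent.Y245.UC.Crit
import Pool.Agent.Y604.UC.Loc
import Pool.Agent.Y344.SF.Gron
import Pool.Agent.Y458.SF.Kap2
import Pool.Agent.Y987.UC.Start
import Pool.Agent.Y845.UC.Step
import Pool.Agent.Y641.UC.Conn
import Pool.Agent.Y500.UC.Rel
import Pool.Agent.Y508.UC.Res
import Pool.Agent.Y381.SC.Pic

/-!
Admissible germs: solutions of the Volterra equation of Schiffer's problem that are also roots of a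
polynomial with holomorphic coefficients. Their local extension.
-/

set_option autoImplicit false

open Complex MeasureTheory Metric Set Filter Topology ComplexConjugate
open Pool.Agent.Y245.SC Pool.Agent.Y245.UC

namespace Pool.Agent.T9h43.SA

/-- the polynomial relation -/
noncomputable def rel (A : ℕ → ℂ → ℂ) (d : ℕ) (u x : ℂ) : ℂ :=
  ∑ k ∈ Finset.range (d + 1), A k u * x ^ k

/-- admissible germs -/
structure Adm (φ : ℂ → ℂ) (a : ℝ) (A : ℕ → ℂ → ℂ) (d : ℕ) (u : ℂ) (X : ℂ → ℂ) : Prop where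
  vg : ∀ b, VG a φ b u X
  rig : ∀ g0 xs ct : ℂ, (∀ᶠ v in 𝓝 u, (X v - g0) * (φ v - xs) = ct) →
    ∀ w ∈ sphere (0 : ℂ) 1, (conj (φ w) - g0) * (φ w - xs) = ct
  alg : ∀ᶠ v in 𝓝 u, rel A d v (X v) = 0

variable {φ : ℂ → ℂ} {a : ℝ} {A : ℕ → ℂ → ℂ} {d : ℕ}

theorem conn' (ha : 0 < a) (hφ : DifferentiableOn ℂ φ (ball 0 1)) (b : ℂ) :
    (∀ (V : Set ℂ) (F : ℂ → ℂ) (u u' : ℂ), IsOpen V → IsPreconnected V → V ⊆ ball 0 1 →
      DifferentiableOn ℂ F V → u ∈ V → u' ∈ V → VG a φ b u F → VG a φ b u' F) ∧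
    ∀ (F F' : ℂ → ℂ) (u : ℂ), F =ᶠ[𝓝 u] F' → VG a φ b u F → VG a φ b u F' :=
  Pool.Agent.Y641.UC.uconn Pool.Agent.Y845.UC.ustep t_KAP t_SEG t_PAR φ a b ha hφ

theorem Adm.congr (ha : 0 < a) (hφ : DifferentiableOn ℂ φ (ball 0 1)) {u : ℂ} {X Y : ℂ → ℂ}
    (h : Adm φ a A d u X) (hXY : X =ᶠ[𝓝 u] Y) : Adm φ a A d u Y := by
  refine ⟨fun b => (conn' ha hφ b).2 X Y u hXY (h.vg b), fun g0 xs ct hY => h.rig g0 xs ct ?_, ?_⟩
  · filter_upwards [hXY, hY] with v h1 h2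
    rw [h1]
    exact h2
  · filter_upwards [hXY, h.alg] with v h1 h2
    rw [← h1]
    exact h2

theorem rel_diff {V : Set ℂ} {X : ℂ → ℂ} (hA : ∀ k ≤ d, DifferentiableOn ℂ (A k) V)
    (hX : DifferentiableOn ℂ X V) : DifferentiableOn ℂ (fun v => rel A d v (X v)) V := by
  unfold rel
  refine DifferentiableOn.fun_sum fun k hk => ?_
  exact (hA k (by simpa [Nat.lt_succ_iff] using hk)).mul (hX.pow k)

theorem Adm.alg_on {V : Set ℂ} {X : ℂ → ℂ} (hA : ∀ k ≤ d, DifferentiableOn ℂ (A k) (ball 0 1))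
    (hV : IsOpen V) (hVp : IsPreconnected V) (hVs : V ⊆ ball 0 1) (hX : DifferentiableOn ℂ X V)
    {u : ℂ} (hu : u ∈ V) (h : Adm φ a A d u X) : ∀ v ∈ V, rel A d v (X v) = 0 := by
  have h1 := eq_on (f := fun v => rel A d v (X v)) (g := fun _ => 0) hV hVp
    (rel_diff (fun k hk => (hA k hk).mono hVs) hX) (differentiableOn_const _) hu h.alg
  exact fun v hv => h1 hv

theorem Adm.move (ha : 0 < a) (hφ : DifferentiableOn ℂ φ (ball 0 1)) {V : Set ℂ} {X : ℂ → ℂ}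
    (hA : ∀ k ≤ d, DifferentiableOn ℂ (A k) (ball 0 1))
    (hV : IsOpen V) (hVp : IsPreconnected V) (hVs : V ⊆ ball 0 1) (hX : DifferentiableOn ℂ X V)
    {u u' : ℂ} (hu : u ∈ V) (hu' : u' ∈ V) (h : Adm φ a A d u X) : Adm φ a A d u' X := by
  refine ⟨fun b => (conn' ha hφ b).1 V X u u' hV hVp hVs hX hu hu' (h.vg b),
    fun g0 xs ct hY => h.rig g0 xs ct ?_, ?_⟩
  · have h1 := eq_on (f := fun v => (X v - g0) * (φ v - xs)) (g := fun _ => ct) hV hVp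
      ((hX.sub_const _).mul ((hφ.mono hVs).sub_const _)) (differentiableOn_const _) hu' hY
    filter_upwards [hV.mem_nhds hu] with v hv
    exact h1 hv
  · filter_upwards [hV.mem_nhds hu'] with v hv
    exact h.alg_on hA hV hVp hVs hX hu v hv

/-- extension across a boundary point of a disc near which the growth is small -/
theorem locExt_of_growth (ha : 0 < a) (hφ : DifferentiableOn ℂ φ (ball 0 1)) {c p P : ℂ}
    {ρ η δ : ℝ} (hρ : 0 < ρ) (hη : 0 ≤ η) (hδ : 0 < δ) (hcb : closedBall c ρ ⊆ ball 0 1)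
    {X : ℂ → ℂ} (hX : DifferentiableOn ℂ X (ball c ρ)) (hsm : a * ‖deriv φ P‖ * η < 3 / 4)
    (hgr : ∀ v ∈ ball c ρ, ‖v - P‖ < δ → (ρ - ‖v - c‖) * ‖X v‖ ≤ η)
    (hp : p ∈ ball c ρ) (hVG : VG a φ 0 p X) (hPs : P ∈ sphere c ρ) :
    LocExt (ball c ρ) X P := by
  obtain ⟨δ', M, hδ', hM⟩ := ucrit Pool.Agent.Y845.UC.ustep Pool.Agent.Y458.SF.kap2 t_KAP t_SEG
    t_PAR Pool.Agent.Y344.SF.Gron.gron φ X a ρ η δ c p P ha hρ hη hδ hφ hcb hX hsm hgr hp hVG hPs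
  have hPs' : ‖P - c‖ = ρ := mem_sphere_iff_norm.1 hPs
  obtain ⟨t, ht⟩ : ∃ t : ℝ, t = min 1 (δ' / (2 * ρ)) := ⟨_, rfl⟩
  have ht0 : 0 < t := by
    rw [ht]
    exact lt_min one_pos (by positivity)
  have ht1 : t ≤ 1 := by rw [ht]; exact min_le_left _ _
  have ht2 : 2 * (t * ρ) ≤ δ' := by
    have h1 : t ≤ δ' / (2 * ρ) := by rw [ht]; exact min_le_right _ _
    have h2 : t * (2 * ρ) ≤ δ' := (le_div_iff₀ (by positivity)).1 h1
    linarith
  obtain ⟨c1, hc1⟩ : ∃ c1 : ℂ, c1 = P + (t : ℂ) * (c - P) := ⟨_, rfl⟩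
  have hcw : ‖c1 - P‖ = t * ρ := by
    rw [hc1, add_sub_cancel_left, norm_mul, Complex.norm_real, Real.norm_of_nonneg ht0.le,
      norm_sub_rev, hPs']
  have hcc : ‖c1 - c‖ = (1 - t) * ρ := by
    have : c1 - c = ((1 - t : ℝ) : ℂ) * (P - c) := by
      rw [hc1]
      push_cast
      ring
    rw [this, norm_mul, Complex.norm_real, Real.norm_of_nonneg (by linarith), hPs']
  have hsub : ball c1 (t * ρ) ⊆ ball c ρ := by
    intro w hw
    rw [mem_ball_iff_norm] at hw ⊢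
    have h1 : ‖w - c‖ ≤ ‖w - c1‖ + ‖c1 - c‖ := norm_sub_le_norm_sub_add_norm_sub _ _ _
    rw [hcc] at h1
    linarith
  have hsubc : closedBall c1 (t * ρ) ⊆ closedBall c ρ := by
    intro w hw
    rw [mem_closedBall_iff_norm] at hw ⊢
    have h1 : ‖w - c‖ ≤ ‖w - c1‖ + ‖c1 - c‖ := norm_sub_le_norm_sub_add_norm_sub _ _ _
    rw [hcc] at h1
    linarith
  have hnear : ∀ w ∈ ball c1 (t * ρ), ‖w - P‖ < δ' := by
    intro w hw
    rw [mem_ball_iff_norm] at hw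
    have h1 : ‖w - P‖ ≤ ‖w - c1‖ + ‖c1 - P‖ := norm_sub_le_norm_sub_add_norm_sub _ _ _
    rw [hcw] at h1
    linarith
  have hρ1 : 0 < t * ρ := mul_pos ht0 hρ
  have hc1b : c1 ∈ ball c1 (t * ρ) := mem_ball_self hρ1
  have hw1' : P ∈ sphere c1 (t * ρ) := by
    rw [mem_sphere_iff_norm, norm_sub_rev]
    exact hcw
  have hVG1 : VG a φ 0 c1 X := (conn' ha hφ 0).1 (ball c ρ) X p c1 isOpen_ball
    (convex_ball c ρ).isPreconnected (ball_subset_closedBall.trans hcb) hX hp (hsub hc1b) hVG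
  obtain ⟨ε, E, hε, hE, hEg⟩ := Pool.Agent.Y604.UC.uloc Pool.Agent.Y845.UC.ustep t_KAP t_SEG t_PAR
    Pool.Agent.Y381.SC.pic φ X a (t * ρ) M c1 c1 P ha hρ1 hφ (hsubc.trans hcb) (hX.mono hsub)
    (fun w hw => hM w (hsub hw) (hnear w hw)) hc1b hVG1 hw1'
  refine ⟨ε, E, hε, hE, ?_⟩
  have hconv : IsPreconnected (ball P ε ∩ ball c ρ) :=
    ((convex_ball P ε).inter (convex_ball c ρ)).isPreconnected
  have hopen : IsOpen (ball P ε ∩ ball c ρ) := isOpen_ball.inter isOpen_ball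
  obtain ⟨q, hq1, hq2⟩ : ∃ q : ℂ, q ∈ ball P ε ∧ q ∈ ball c1 (t * ρ) := by
    have h1 : P ∈ closure (ball c1 (t * ρ)) := by
      rw [closure_ball _ hρ1.ne']
      exact sphere_subset_closedBall hw1'
    obtain ⟨q, hq⟩ := mem_closure_iff_nhds.1 h1 (ball P ε) (ball_mem_nhds P hε)
    exact ⟨q, hq.1, hq.2⟩
  refine eq_on hopen hconv (hE.mono inter_subset_left) (hX.mono inter_subset_right)
    ⟨hq1, hsub hq2⟩ ?_
  filter_upwards [(isOpen_ball.inter isOpen_ball).mem_nhds ⟨hq1, hq2⟩] with w hw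
  exact hEg w hw

/-- a bounded germ extends -/
theorem locExt_of_bounded (ha : 0 < a) (hφ : DifferentiableOn ℂ φ (ball 0 1)) {c p P : ℂ}
    {ρ M δ : ℝ} (hρ : 0 < ρ) (hδ : 0 < δ) (hcb : closedBall c ρ ⊆ ball 0 1)
    {X : ℂ → ℂ} (hX : DifferentiableOn ℂ X (ball c ρ))
    (hgr : ∀ v ∈ ball c ρ, ‖v - P‖ < δ → ‖X v‖ ≤ M)
    (hp : p ∈ ball c ρ) (hVG : VG a φ 0 p X) (hPs : P ∈ sphere c ρ) :
    LocExt (ball c ρ) X P := by
  obtain ⟨M', hM'⟩ : ∃ M', M' = max M 0 := ⟨_, rfl⟩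
  have hM0 : 0 ≤ M' := by rw [hM']; exact le_max_right _ _
  obtain ⟨K, hK⟩ : ∃ K, K = a * ‖deriv φ P‖ * M' := ⟨_, rfl⟩
  have hK0 : 0 ≤ K := by rw [hK]; positivity
  obtain ⟨δ', hδ'⟩ : ∃ δ', δ' = min δ (1 / (2 * (K + 1))) := ⟨_, rfl⟩
  have hδ'0 : 0 < δ' := by
    rw [hδ']
    exact lt_min hδ (by positivity)
  have hd1 : δ' ≤ 1 / (2 * (K + 1)) := by rw [hδ']; exact min_le_right _ _
  refine locExt_of_growth ha hφ (η := δ' * M') (δ := δ') hρ (by positivity) hδ'0 hcb hX ?_ ?_ hp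
    hVG hPs
  · have h1 : a * ‖deriv φ P‖ * (δ' * M') = K * δ' := by rw [hK]; ring
    rw [h1]
    have h2 : K * δ' ≤ K * (1 / (2 * (K + 1))) := mul_le_mul_of_nonneg_left hd1 hK0
    have h3 : K * (1 / (2 * (K + 1))) ≤ 1 / 2 := by
      rw [mul_one_div, div_le_iff₀ (by positivity)]
      linarith
    linarith
  · intro v hv hvP
    have h1 : ‖X v‖ ≤ M' := by
      rw [hM']
      exact (hgr v hv (hvP.trans_le (by rw [hδ']; exact min_le_left _ _))).trans (le_max_left _ _)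
    have h2 : ρ - ‖v - c‖ ≤ ‖v - P‖ := by
      have h3 : ‖P - c‖ ≤ ‖P - v‖ + ‖v - c‖ := norm_sub_le_norm_sub_add_norm_sub _ _ _
      rw [mem_sphere_iff_norm.1 hPs, norm_sub_rev P v] at h3
      linarith
    have h4 : 0 ≤ ρ - ‖v - c‖ := by
      have := mem_ball_iff_norm.1 hv
      linarith
    exact mul_le_mul (h2.trans hvP.le) h1 (norm_nonneg _) hδ'0.le

/-- roots of a polynomial with leading coefficient away from zero are bounded -/
theorem root_bound {m B : ℝ} (hm : 0 < m) (hB : 0 ≤ B) {u x : ℂ} (hd : m ≤ ‖A d u‖)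
    (hk : ∀ k < d, ‖A k u‖ ≤ B) (h : rel A d u x = 0) : ‖x‖ ≤ 1 + d * B / m := by
  have hdB : 0 ≤ d * B / m := by positivity
  by_contra hcon
  push Not at hcon
  have hx1 : 1 ≤ ‖x‖ := by linarith
  have hx0 : 0 < ‖x‖ := by linarith
  unfold rel at h
  rw [Finset.sum_range_succ] at h
  have h1 : A d u * x ^ d = -∑ k ∈ Finset.range d, A k u * x ^ k := by
    rw [eq_neg_iff_add_eq_zero, add_comm]
    exact h
  rcases Nat.eq_zero_or_pos d with h0 | h0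
  · subst h0
    simp only [pow_zero, mul_one, Finset.range_zero, Finset.sum_empty, neg_zero] at h1
    rw [h1, norm_zero] at hd
    linarith
  have h2 : ‖A d u‖ * ‖x‖ ^ d ≤ d * B * ‖x‖ ^ (d - 1) := by
    have h3 := congrArg norm h1
    rw [norm_mul, norm_pow, norm_neg] at h3
    rw [h3]
    refine (norm_sum_le _ _).trans ?_
    have h4 : ∀ k ∈ Finset.range d, ‖A k u * x ^ k‖ ≤ B * ‖x‖ ^ (d - 1) := by
      intro k hk'
      rw [Finset.mem_range] at hk'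
      rw [norm_mul, norm_pow]
      refine mul_le_mul (hk k hk') (pow_le_pow_right₀ hx1 (by omega)) (by positivity) hB
    refine (Finset.sum_le_sum h4).trans ?_
    rw [Finset.sum_const, Finset.card_range, nsmul_eq_mul, mul_assoc]
  have h5 : ‖x‖ ^ d = ‖x‖ ^ (d - 1) * ‖x‖ := by
    rw [← pow_succ]
    congr 1
    omega
  rw [h5] at h2
  have h6 : 0 < ‖x‖ ^ (d - 1) := by positivity
  have h7 : ‖A d u‖ * ‖x‖ ≤ d * B := by
    have : (‖A d u‖ * ‖x‖) * ‖x‖ ^ (d - 1) ≤ (d * B) * ‖x‖ ^ (d - 1) := by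
      calc _ = ‖A d u‖ * (‖x‖ ^ (d - 1) * ‖x‖) := by ring
        _ ≤ _ := h2
    exact le_of_mul_le_mul_right this h6
  have h8 : m * ‖x‖ ≤ d * B := (mul_le_mul_of_nonneg_right hd hx0.le).trans h7
  have h9 : ‖x‖ ≤ d * B / m := by
    rw [le_div_iff₀ hm]
    linarith
  linarith

/-- extension across a boundary point at which the leading coefficient does not vanish -/
theorem locExt_of_ne (ha : 0 < a) (hφ : DifferentiableOn ℂ φ (ball 0 1))
    (hA : ∀ k ≤ d, DifferentiableOn ℂ (A k) (ball 0 1)) {c p P : ℂ}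
    {ρ : ℝ} (hρ : 0 < ρ) (hcb : closedBall c ρ ⊆ ball 0 1)
    {X : ℂ → ℂ} (hX : DifferentiableOn ℂ X (ball c ρ))
    (hp : p ∈ ball c ρ) (hAd : Adm φ a A d p X) (hPs : P ∈ sphere c ρ) (hP : A d P ≠ 0) :
    LocExt (ball c ρ) X P := by
  have hP1 : P ∈ ball (0 : ℂ) 1 := hcb (sphere_subset_closedBall hPs)
  have hcont : ∀ k ≤ d, ContinuousAt (A k) P := fun k hk =>
    ((hA k hk).differentiableAt (isOpen_ball.mem_nhds hP1)).continuousAt
  have h1 : ∀ᶠ v in 𝓝 P, ‖A d P‖ / 2 < ‖A d v‖ := by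
    refine (hcont d le_rfl).norm.eventually_const_lt ?_
    have : 0 < ‖A d P‖ := norm_pos_iff.2 hP
    linarith
  obtain ⟨B, hB⟩ : ∃ B : ℝ, B = ∑ k ∈ Finset.range d, (‖A k P‖ + 1) := ⟨_, rfl⟩
  have hB0 : 0 ≤ B := by
    rw [hB]
    exact Finset.sum_nonneg fun k _ => by positivity
  have h2 : ∀ᶠ v in 𝓝 P, ∀ k ∈ Finset.range d, ‖A k v‖ < ‖A k P‖ + 1 := by
    rw [Filter.eventually_all_finset]
    intro k hk
    exact (hcont k (Finset.mem_range.1 hk).le).norm.eventually_lt_const (by linarith)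
  obtain ⟨δ, hδ, h3⟩ := Metric.eventually_nhds_iff.1 (h1.and h2)
  refine locExt_of_bounded (M := 1 + d * B / (‖A d P‖ / 2)) ha hφ hρ hδ hcb hX ?_ hp (hAd.vg 0) hPs
  intro v hv hvP
  obtain ⟨h4, h5⟩ := h3 (by rwa [dist_eq_norm])
  refine root_bound (by have : 0 < ‖A d P‖ := norm_pos_iff.2 hP; positivity) hB0 h4.le ?_
    (hAd.alg_on hA isOpen_ball (convex_ball c ρ).isPreconnected
      (ball_subset_closedBall.trans hcb) hX hp v hv)
  intro k hk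
  refine (h5 k (Finset.mem_range.2 hk)).le.trans ?_
  rw [hB]
  exact Finset.single_le_sum (f := fun k => ‖A k P‖ + 1) (fun i _ => by positivity)
    (Finset.mem_range.2 hk)

/-- an admissible germ extends to the largest disc in which the leading coefficient has no zero -/
theorem disc_germ (ha : 0 < a) (hφ : DifferentiableOn ℂ φ (ball 0 1))
    (hA : ∀ k ≤ d, DifferentiableOn ℂ (A k) (ball 0 1)) {c : ℂ} {ρ0 ρ1 : ℝ} (h0 : 0 < ρ0)
    (h1 : 0 < ρ1) (hb : ball c ρ1 ⊆ ball 0 1) (hne : ∀ v ∈ ball c ρ1, A d v ≠ 0) {X : ℂ → ℂ}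
    (hX : DifferentiableOn ℂ X (ball c ρ0)) (hAd : Adm φ a A d c X) :
    ∃ Y : ℂ → ℂ, DifferentiableOn ℂ Y (ball c ρ1) ∧ Y =ᶠ[𝓝 c] X ∧
      ∀ v ∈ ball c ρ1, Adm φ a A d v Y := by
  obtain ⟨ρ2, hρ2⟩ : ∃ ρ2, ρ2 = min ρ0 ρ1 := ⟨_, rfl⟩
  have h2 : 0 < ρ2 := by rw [hρ2]; exact lt_min h0 h1
  have h20 : ρ2 ≤ ρ0 := by rw [hρ2]; exact min_le_left _ _
  have h21 : ρ2 ≤ ρ1 := by rw [hρ2]; exact min_le_right _ _
  obtain ⟨Y, hY, hYX⟩ := disc_ext (c := c) h2 h21 (F := X) (hX.mono (ball_subset_ball h20)) (by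
    intro ρ hρ2' hρ1 G hG hGX P hP
    have hρ0 : 0 < ρ := h2.trans_le hρ2'
    have hcc : closedBall c ρ ⊆ ball c ρ1 := closedBall_subset_ball hρ1
    have hg : X =ᶠ[𝓝 c] G := by
      filter_upwards [ball_mem_nhds c h2] with v hv
      exact (hGX hv).symm
    exact locExt_of_ne ha hφ hA hρ0 (hcc.trans hb) hG (mem_ball_self hρ0)
      (hAd.congr ha hφ hg) hP (hne P (hcc (sphere_subset_closedBall hP))))
  have hg : Y =ᶠ[𝓝 c] X := by
    filter_upwards [ball_mem_nhds c h2] with v hv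
    exact hYX hv
  refine ⟨Y, hY, hg, fun v hv => ?_⟩
  exact (hAd.congr ha hφ hg.symm).move ha hφ hA isOpen_ball (convex_ball c ρ1).isPreconnected hb hY
    (mem_ball_self h1) hv

end Pool.Agent.T9h43.SA
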