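import Pool.Agent.T9h43.SA.Turn
import Pool.Agent.T9h43.SA.Lap

/-!
Exponential asymptotics in a left half plane.
-/

set_option autoImplicit false

open Complex MeasureTheory Metric Set Filter Topology ComplexConjugate

namespace Pool.Agent.T9h43.SA

/-- `y v ~ A exp (β v)` uniformly as `re v → -∞` -/
def Asy (y : ℂ → ℂ) (β : ℝ) (A : ℂ) : Prop :=
  ∀ ε : ℝ, 0 < ε → ∃ R : ℝ, ∀ v : ℂ, v.re < R → ‖y v * exp (-(β * v)) - A‖ ≤ ε

theorem asy_deriv {y : ℂ → ℂ} {β L : ℝ} {A : ℂ} (hy : DifferentiableOn ℂ y (HP L))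
    (h : Asy y β A) : Asy (deriv y) β (β * A) := by
  intro ε hε
  obtain ⟨B, hB⟩ : ∃ B : ℝ, B = 1 + |β| := ⟨_, rfl⟩
  have hB0 : 0 < B := by rw [hB]; positivity
  obtain ⟨R, hR⟩ := h (ε / B) (by positivity)
  refine ⟨min L R - 1, fun v hv => ?_⟩
  have hvL : v.re < L - 1 := by linarith [min_le_left L R]
  have hvR : v.re < R - 1 := by linarith [min_le_right L R]
  obtain ⟨z, hz⟩ : ∃ z : ℂ → ℂ, z = fun w => y w * exp (-(β * w)) - A := ⟨_, rfl⟩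
  have hre : ∀ w ∈ closedBall v 1, w.re ≤ v.re + 1 := by
    intro w hw
    rw [mem_closedBall_iff_norm] at hw
    have h1 := Complex.re_le_norm (w - v)
    rw [Complex.sub_re] at h1
    linarith
  have hzd : ∀ w : ℂ, w.re < L → DifferentiableAt ℂ z w := by
    intro w hw
    rw [hz]
    refine ((hy.differentiableAt ((hp_open L).mem_nhds hw)).mul ?_).sub_const _
    fun_prop
  have hzd' : DiffContOnCl ℂ z (ball v 1) := by
    refine DifferentiableOn.diffContOnCl ?_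
    rw [closure_ball v one_ne_zero]
    intro w hw
    exact (hzd w (by linarith [hre w hw])).differentiableWithinAt
  have hder : ‖deriv z v‖ ≤ ε / B / 1 := by
    refine Complex.norm_deriv_le_of_forall_mem_sphere_norm_le one_pos hzd' fun w hw => ?_
    rw [hz]
    exact hR w (by linarith [hre w (sphere_subset_closedBall hw)])
  rw [div_one] at hder
  have hyd : HasDerivAt y (deriv y v) v :=
    (hy.differentiableAt ((hp_open L).mem_nhds (by show v.re < L; linarith))).hasDerivAt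
  have hed : HasDerivAt (fun w : ℂ => exp (-(β * w))) (exp (-(β * v)) * (-β)) v := by
    have h1 : HasDerivAt (fun w : ℂ => -((β : ℂ) * w)) (-(β : ℂ)) v := by
      simpa using (hasDerivAt_id v).const_mul (-(β : ℂ))
    exact h1.cexp
  have hzv : HasDerivAt z (deriv y v * exp (-(β * v)) + y v * (exp (-(β * v)) * (-β))) v := by
    rw [hz]
    exact (hyd.mul hed).sub_const _
  have e1 : deriv y v * exp (-(β * v)) - β * A = deriv z v + β * z v := by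
    rw [hzv.deriv, hz]
    ring
  rw [e1]
  refine (norm_add_le _ _).trans ?_
  rw [norm_mul, Complex.norm_real, Real.norm_eq_abs]
  have h2 : ‖z v‖ ≤ ε / B := by
    rw [hz]
    exact hR v (by linarith)
  calc ‖deriv z v‖ + |β| * ‖z v‖ ≤ ε / B + |β| * (ε / B) := by gcongr
    _ = ε := by
      rw [hB]
      field_simp

theorem asy_quot {y w : ℂ → ℂ} {β : ℝ} {A B : ℂ} (hy : Asy y β A) (hw : Asy w β B) (hB : B ≠ 0) :
    ∀ ε : ℝ, 0 < ε → ∃ R : ℝ, ∀ v v' : ℂ, v.re < R → v'.re < R → w v ≠ 0 ∧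
      ‖y v' / w v * exp (-(β * (v' - v))) - A / B‖ ≤ ε := by
  intro ε hε
  have hcont : ContinuousAt (fun p : ℂ × ℂ => p.1 / p.2) (A, B) :=
    ContinuousAt.div continuousAt_fst continuousAt_snd hB
  obtain ⟨δ, hδ, hδ'⟩ := Metric.continuousAt_iff.1 hcont ε hε
  obtain ⟨δ1, hδ1⟩ : ∃ δ1, δ1 = min (δ / 2) (‖B‖ / 2) := ⟨_, rfl⟩
  have hBp : 0 < ‖B‖ := norm_pos_iff.2 hB
  have hδ10 : 0 < δ1 := by rw [hδ1]; positivity
  have hδ11 : δ1 ≤ δ / 2 := by rw [hδ1]; exact min_le_left _ _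
  have hδ12 : δ1 ≤ ‖B‖ / 2 := by rw [hδ1]; exact min_le_right _ _
  obtain ⟨R1, hR1⟩ := hy δ1 hδ10
  obtain ⟨R2, hR2⟩ := hw δ1 hδ10
  refine ⟨min R1 R2, fun v v' hv hv' => ?_⟩
  have h1 := hR1 v' (hv'.trans_le (min_le_left _ _))
  have h2 := hR2 v (hv.trans_le (min_le_right _ _))
  have hwv : w v * exp (-(β * v)) ≠ 0 := by
    intro h0
    rw [h0, zero_sub, norm_neg] at h2
    linarith
  have hwv' : w v ≠ 0 := left_ne_zero_of_mul hwv
  refine ⟨hwv', ?_⟩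
  have e1 : y v' / w v * exp (-(β * (v' - v))) =
      (y v' * exp (-(β * v'))) / (w v * exp (-(β * v))) := by
    have h3 : exp (-(β * (v' - v))) = exp (-(β * v')) / exp (-(β * v)) := by
      rw [← Complex.exp_sub]
      congr 1
      ring
    rw [h3, div_mul_div_comm]
  rw [e1]
  have h3 := @hδ' (y v' * exp (-(β * v')), w v * exp (-(β * v))) (by
    rw [Prod.dist_eq]
    refine max_lt ?_ ?_
    · rw [dist_eq_norm]
      linarith
    · rw [dist_eq_norm]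
      linarith)
  rw [dist_eq_norm] at h3
  exact h3.le

/-- twice the mean value inequality -/
theorem tay2 {q q1 q2 : ℝ → ℂ} {ε r : ℝ} (hr : 0 ≤ r) (h0 : q 0 = 0) (h1 : q1 0 = 0)
    (hq : ∀ t, HasDerivAt q (q1 t) t) (hq1 : ∀ t, HasDerivAt q1 (q2 t) t)
    (hb : ∀ t ∈ Icc (-r) r, ‖q2 t‖ ≤ ε) : ∀ t ∈ Icc (-r) r, ‖q t‖ ≤ ε * t ^ 2 := by
  have hε : 0 ≤ ε := (norm_nonneg _).trans (hb 0 ⟨by linarith, hr⟩)
  have hA : ∀ t ∈ Icc (-r) r, ‖q1 t‖ ≤ ε * |t| := by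
    intro t ht
    have h2 := (convex_Icc (-r) r).norm_image_sub_le_of_norm_hasDerivWithin_le (f := q1)
      (f' := q2) (C := ε) (x := 0) (y := t) (fun s _ => (hq1 s).hasDerivWithinAt) hb
      ⟨by linarith, hr⟩ ht
    rw [h1, sub_zero, sub_zero, Real.norm_eq_abs] at h2
    exact h2
  intro t ht
  have hsub : Icc (-|t|) |t| ⊆ Icc (-r) r := by
    have : |t| ≤ r := abs_le.2 ht
    exact Icc_subset_Icc (by linarith) this
  have h2 := (convex_Icc (-|t|) |t|).norm_image_sub_le_of_norm_hasDerivWithin_le (f := q)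
    (f' := q1) (C := ε * |t|) (x := 0) (y := t) (fun s _ => (hq s).hasDerivWithinAt)
    (fun s hs => (hA s (hsub hs)).trans (mul_le_mul_of_nonneg_left (abs_le.2 hs) hε))
    ⟨by linarith [abs_nonneg t], abs_nonneg t⟩ ⟨neg_abs_le t, le_abs_self t⟩
  rw [h0, sub_zero, sub_zero, Real.norm_eq_abs] at h2
  calc ‖q t‖ ≤ ε * |t| * |t| := h2
    _ = ε * t ^ 2 := by rw [mul_assoc, abs_mul_abs_self, sq]

/-- the model phase -/
noncomputable def k0 (γ ψ : ℝ) : ℂ := (exp (ψ * I) - 1) + (exp (-(γ * ψ) * I) - 1) / γ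

noncomputable def k1 (γ ψ : ℝ) : ℂ := I * exp (ψ * I) - I * exp (-(γ * ψ) * I)

noncomputable def k2 (γ ψ : ℝ) : ℂ := -exp (ψ * I) - γ * exp (-(γ * ψ) * I)

theorem he1 (ψ : ℝ) : HasDerivAt (fun ψ : ℝ => exp ((ψ : ℂ) * I)) (exp (ψ * I) * I) ψ := by
  have h1 : HasDerivAt (fun z : ℂ => exp (z * I)) (exp (ψ * I) * I) (ψ : ℂ) := by
    have h2 : HasDerivAt (fun z : ℂ => z * I) I (ψ : ℂ) := by
      simpa using (hasDerivAt_id (ψ : ℂ)).mul_const I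
    exact h2.cexp
  exact h1.comp_ofReal

theorem he2 (γ ψ : ℝ) : HasDerivAt (fun ψ : ℝ => exp (-((γ : ℂ) * ψ) * I))
    (exp (-(γ * ψ) * I) * (-γ * I)) ψ := by
  have h1 : HasDerivAt (fun z : ℂ => exp (-((γ : ℂ) * z) * I))
      (exp (-(γ * ψ) * I) * (-γ * I)) (ψ : ℂ) := by
    have h2 : HasDerivAt (fun z : ℂ => -((γ : ℂ) * z) * I) (-γ * I) (ψ : ℂ) := by
      simpa using ((hasDerivAt_id (ψ : ℂ)).const_mul (-(γ : ℂ))).mul_const I
    exact h2.cexp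
  exact h1.comp_ofReal

theorem k0_deriv {γ : ℝ} (hγ : 0 < γ) (ψ : ℝ) : HasDerivAt (k0 γ) (k1 γ ψ) ψ := by
  have hγ' : (γ : ℂ) ≠ 0 := by exact_mod_cast hγ.ne'
  have h := ((he1 ψ).sub_const 1).add (((he2 γ ψ).sub_const 1).div_const (γ : ℂ))
  have e : exp (ψ * I) * I + exp (-(γ * ψ) * I) * (-γ * I) / γ = k1 γ ψ := by
    unfold k1
    field_simp
    ring
  rw [e] at h
  exact h

theorem k1_deriv (γ ψ : ℝ) : HasDerivAt (k1 γ) (k2 γ ψ) ψ := by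
  have h := ((he1 ψ).const_mul I).sub ((he2 γ ψ).const_mul I)
  have e : I * (exp (ψ * I) * I) - I * (exp (-(γ * ψ) * I) * (-γ * I)) = k2 γ ψ := by
    unfold k2
    linear_combination (exp (ψ * I) + γ * exp (-(γ * ψ) * I)) * I_mul_I
  rw [e] at h
  exact h

theorem norm_e2' (γ ψ : ℝ) : ‖exp (-((γ : ℂ) * ψ) * I)‖ = 1 := by
  have : -((γ : ℂ) * ψ) * I = ((-(γ * ψ) : ℝ) : ℂ) * I := by
    push_cast
    ring
  rw [this]
  exact Complex.norm_exp_ofReal_mul_I _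

theorem k2_bd {γ : ℝ} (hγ : 0 < γ) (ψ : ℝ) : ‖k2 γ ψ‖ ≤ 1 + γ := by
  unfold k2
  refine (norm_sub_le _ _).trans ?_
  rw [norm_neg, norm_mul, Complex.norm_exp_ofReal_mul_I, norm_e2', Complex.norm_real,
    Real.norm_of_nonneg hγ.le, mul_one]

theorem k0_bd {γ : ℝ} (hγ : 0 < γ) (ψ : ℝ) : ‖k0 γ ψ‖ ≤ (1 + γ) * ψ ^ 2 := by
  refine tay2 (abs_nonneg ψ) (by simp [k0]) (by simp [k1]) (k0_deriv hγ) (k1_deriv γ)
    (fun t _ => k2_bd hγ t) ψ ⟨neg_abs_le ψ, le_abs_self ψ⟩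

theorem k0_re {γ : ℝ} (hγ : 0 < γ) {ψ : ℝ} (hψ : |ψ| ≤ Real.pi) :
    (k0 γ ψ).re ≤ -(2 / Real.pi ^ 2) * ψ ^ 2 := by
  have e0 : -((γ : ℂ) * ψ) * I = ((-(γ * ψ) : ℝ) : ℂ) * I := by
    push_cast
    ring
  have e : (k0 γ ψ).re = (Real.cos ψ - 1) + (Real.cos (-(γ * ψ)) - 1) / γ := by
    unfold k0
    rw [e0, Complex.add_re, Complex.sub_re, Complex.exp_ofReal_mul_I_re, Complex.one_re,
      Complex.div_ofReal_re, Complex.sub_re, Complex.exp_ofReal_mul_I_re, Complex.one_re]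
  rw [e]
  have h1 := Real.cos_le_one_sub_mul_cos_sq hψ
  have h2 : (Real.cos (-(γ * ψ)) - 1) / γ ≤ 0 :=
    div_nonpos_of_nonpos_of_nonneg (by linarith [Real.cos_le_one (-(γ * ψ))]) hγ.le
  linarith

theorem exp_sub_one_bd (t : ℝ) : ‖exp ((t : ℂ) * I) - 1‖ ≤ |t| := by
  have := Real.norm_exp_I_mul_ofReal_sub_one_le (x := t)
  rw [mul_comm]
  simpa using this

theorem k0_taylor {γ : ℝ} (hγ : 0 < γ) (ψ : ℝ) :
    ‖k0 γ ψ + (((1 + γ) * ψ ^ 2 / 2 : ℝ) : ℂ)‖ ≤ (1 + γ ^ 2) * |ψ| * ψ ^ 2 := by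
  refine tay2 (q := fun ψ => k0 γ ψ + (((1 + γ) * ψ ^ 2 / 2 : ℝ) : ℂ))
    (q1 := fun ψ => k1 γ ψ + (((1 + γ) * ψ : ℝ) : ℂ)) (q2 := fun ψ => k2 γ ψ + ((1 + γ : ℝ) : ℂ))
    (abs_nonneg ψ) (by simp [k0]) (by simp [k1]) ?_ ?_ ?_ ψ ⟨neg_abs_le ψ, le_abs_self ψ⟩
  · intro t
    refine (k0_deriv hγ t).add (HasDerivAt.ofReal_comp ?_)
    have h1 : HasDerivAt (fun t : ℝ => (1 + γ) * t ^ 2 / 2) ((1 + γ) * (2 * t) / 2) t := by
      have h2 : HasDerivAt (fun t : ℝ => t ^ 2) (2 * t) t := by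
        simpa using hasDerivAt_pow 2 t
      exact (h2.const_mul (1 + γ)).div_const 2
    convert h1 using 1
    ring
  · intro t
    refine (k1_deriv γ t).add (HasDerivAt.ofReal_comp ?_)
    simpa using (hasDerivAt_id t).const_mul (1 + γ)
  · intro t ht
    have e0 : -((γ : ℂ) * t) * I = ((-(γ * t) : ℝ) : ℂ) * I := by
      push_cast
      ring
    have e : k2 γ t + ((1 + γ : ℝ) : ℂ) = -(exp (t * I) - 1) -
        γ * (exp (((-(γ * t) : ℝ) : ℂ) * I) - 1) := by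
      unfold k2
      rw [e0]
      push_cast
      ring
    show ‖k2 γ t + ((1 + γ : ℝ) : ℂ)‖ ≤ _
    rw [e]
    refine (norm_sub_le _ _).trans ?_
    rw [norm_neg, norm_mul, Complex.norm_real, Real.norm_of_nonneg hγ.le]
    have h1 := exp_sub_one_bd t
    have h2 := exp_sub_one_bd (-(γ * t))
    rw [abs_neg, abs_mul, abs_of_pos hγ] at h2
    have h3 : |t| ≤ |ψ| := abs_le.2 ht
    calc ‖exp (↑t * I) - 1‖ + γ * ‖exp (((-(γ * t) : ℝ) : ℂ) * I) - 1‖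
        ≤ |t| + γ * (γ * |t|) := by gcongr
      _ = (1 + γ ^ 2) * |t| := by ring
      _ ≤ (1 + γ ^ 2) * |ψ| := by gcongr

end Pool.Agent.T9h43.SA
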