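import Mathlib

/-!
Analytic continuation of single functions: extension across a circle and along increasing families
of open sets.
-/

set_option autoImplicit false

open Complex Metric Set Filter Topology

namespace Pool.Agent.T9h43.SA

/-- the function `F`, given on `V`, extends holomorphically to a disc around `P` -/
def LocExt (V : Set ℂ) (F : ℂ → ℂ) (P : ℂ) : Prop :=
  ∃ (ε : ℝ) (E : ℂ → ℂ), 0 < ε ∧ DifferentiableOn ℂ E (ball P ε) ∧ ∀ v ∈ ball P ε ∩ V, E v = F v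

/-- identity theorem -/
theorem eq_on {W : Set ℂ} {f g : ℂ → ℂ} (hW : IsOpen W) (hp : IsPreconnected W)
    (hf : DifferentiableOn ℂ f W) (hg : DifferentiableOn ℂ g W) {z : ℂ} (hz : z ∈ W)
    (h : f =ᶠ[𝓝 z] g) : EqOn f g W :=
  AnalyticOnNhd.eqOn_of_preconnected_of_eventuallyEq (hf.analyticOnNhd hW) (hg.analyticOnNhd hW)
    hp hz h

theorem collar {c : ℂ} {ρ : ℝ} (hρ : 0 < ρ) {V : Set ℂ} (hV : IsOpen V)
    (hcl : sphere c ρ ⊆ closure V) {F : ℂ → ℂ} (hF : DifferentiableOn ℂ F V)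
    (h : ∀ P ∈ sphere c ρ, LocExt V F P) :
    ∃ δ : ℝ, 0 < δ ∧ δ < ρ ∧ ∃ G : ℂ → ℂ,
      DifferentiableOn ℂ G (V ∪ {u | |‖u - c‖ - ρ| < δ}) ∧ EqOn G F V := by
  classical
  choose! e E he hE hEF using h
  obtain ⟨δ, hδ, hleb⟩ := lebesgue_number_lemma_of_metric (s := sphere c ρ)
    (c := fun i : sphere c ρ => ball (i : ℂ) (e i)) (isCompact_sphere c ρ)
    (fun i => isOpen_ball) (fun x hx => mem_iUnion.2 ⟨⟨x, hx⟩, mem_ball_self (he x hx)⟩)
  -- functions on discs of uniform size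
  have hu : ∀ P ∈ sphere c ρ, ∃ E' : ℂ → ℂ, DifferentiableOn ℂ E' (ball P δ) ∧
      ∀ v ∈ ball P δ ∩ V, E' v = F v := by
    intro P hP
    obtain ⟨⟨Q, hQ⟩, hs⟩ := hleb P hP
    exact ⟨E Q, (hE Q hQ).mono hs, fun v hv => hEF Q hQ v ⟨hs hv.1, hv.2⟩⟩
  choose! E' hE' hEF' using hu
  obtain ⟨δ', hδ'⟩ : ∃ δ', δ' = min (δ / 2) (ρ / 2) := ⟨_, rfl⟩
  have hδ'0 : 0 < δ' := by rw [hδ']; positivity
  have hδ'1 : δ' ≤ δ / 2 := by rw [hδ']; exact min_le_left _ _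
  have hδ'2 : δ' ≤ ρ / 2 := by rw [hδ']; exact min_le_right _ _
  -- projection to the circle
  obtain ⟨p, hp⟩ : ∃ p : ℂ → ℂ, p = fun u => c + ((ρ / ‖u - c‖ : ℝ) : ℂ) * (u - c) := ⟨_, rfl⟩
  have hps : ∀ u, u ≠ c → p u ∈ sphere c ρ := by
    intro u hu
    have h1 : 0 < ‖u - c‖ := norm_pos_iff.2 (sub_ne_zero.2 hu)
    rw [mem_sphere_iff_norm, hp]
    simp only [add_sub_cancel_left, norm_mul, Complex.norm_real, Real.norm_eq_abs]
    rw [abs_of_pos (by positivity)]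
    field_simp
  have hpd : ∀ u, u ≠ c → ‖u - p u‖ = |‖u - c‖ - ρ| := by
    intro u hu
    have h1 : 0 < ‖u - c‖ := norm_pos_iff.2 (sub_ne_zero.2 hu)
    have h2 : u - p u = ((1 - ρ / ‖u - c‖ : ℝ) : ℂ) * (u - c) := by
      rw [hp]
      push_cast
      ring
    rw [h2, norm_mul, Complex.norm_real, Real.norm_eq_abs]
    nth_rewrite 2 [← abs_of_pos h1]
    rw [← abs_mul]
    congr 1
    field_simp
  have hne : ∀ u, |‖u - c‖ - ρ| < δ' → u ≠ c := by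
    rintro u hu rfl
    rw [sub_self, norm_zero, zero_sub, abs_neg, abs_of_pos hρ] at hu
    linarith
  refine ⟨δ', hδ'0, by linarith, fun u => if u ∈ V then F u else E' (p u) u, ?_, ?_⟩
  swap
  · intro u hu
    simp only [if_pos hu]
  have hcol : ∀ u, |‖u - c‖ - ρ| < δ' →
      (if u ∈ V then F u else E' (p u) u) = E' (p u) u := by
    intro u hu
    split_ifs with h1
    · refine (hEF' (p u) (hps u (hne u hu)) u ⟨?_, h1⟩).symm
      rw [mem_ball_iff_norm, hpd u (hne u hu)]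
      linarith
    · rfl
  have hopen : IsOpen {u : ℂ | |‖u - c‖ - ρ| < δ'} :=
    isOpen_lt (by fun_prop) continuous_const
  intro u0 hu0
  apply DifferentiableAt.differentiableWithinAt
  rcases hu0 with hu0 | hu0
  · refine (hF.differentiableAt (hV.mem_nhds hu0)).congr_of_eventuallyEq ?_
    filter_upwards [hV.mem_nhds hu0] with v hv
    rw [if_pos hv]
  · have hu0' : |‖u0 - c‖ - ρ| < δ' := hu0
    have hn0 := hne u0 hu0'
    have hd0 : u0 ∈ ball (p u0) δ := by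
      rw [mem_ball_iff_norm, hpd u0 hn0]
      linarith
    refine ((hE' (p u0) (hps u0 hn0)).differentiableAt
      (isOpen_ball.mem_nhds hd0)).congr_of_eventuallyEq ?_
    have hpc : ContinuousAt p u0 := by
      rw [hp]
      have h1 : ‖u0 - c‖ ≠ 0 := norm_ne_zero_iff.2 (sub_ne_zero.2 hn0)
      have h2 : ContinuousAt (fun u : ℂ => ρ / ‖u - c‖) u0 :=
        ContinuousAt.div continuousAt_const (by fun_prop) h1
      exact continuousAt_const.add ((Complex.continuous_ofReal.continuousAt.comp h2).mul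
        (by fun_prop))
    have hpe : ∀ᶠ v in 𝓝 u0, ‖p v - p u0‖ < δ := by
      have := hpc.eventually (isOpen_ball.mem_nhds (mem_ball_self hδ))
      filter_upwards [this] with v hv
      exact mem_ball_iff_norm.1 hv
    filter_upwards [hopen.mem_nhds hu0, hpe, isOpen_ball.mem_nhds hd0] with v hv1 hv2 hv3
    rw [hcol v hv1]
    have hn := hne v hv1
    -- the two discs
    have hWo : IsOpen (ball (p v) δ ∩ ball (p u0) δ) := isOpen_ball.inter isOpen_ball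
    have hWp : IsPreconnected (ball (p v) δ ∩ ball (p u0) δ) :=
      ((convex_ball _ _).inter (convex_ball _ _)).isPreconnected
    have hpW : p v ∈ ball (p v) δ ∩ ball (p u0) δ :=
      ⟨mem_ball_self hδ, mem_ball_iff_norm.2 hv2⟩
    obtain ⟨q, hq, hqV⟩ := mem_closure_iff_nhds.1 (hcl (hps v hn)) _ (hWo.mem_nhds hpW)
    refine eq_on hWo hWp ((hE' _ (hps v hn)).mono inter_subset_left)
      ((hE' _ (hps u0 hn0)).mono inter_subset_right) hq ?_ ⟨?_, hv3⟩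
    · filter_upwards [hWo.mem_nhds hq, hV.mem_nhds hqV] with w hw hwV
      rw [hEF' _ (hps v hn) w ⟨hw.1, hwV⟩, hEF' _ (hps u0 hn0) w ⟨hw.2, hwV⟩]
    · rw [mem_ball_iff_norm, hpd v hn]
      have : |‖v - c‖ - ρ| < δ' := hv1
      linarith

/-- extension along an increasing family of open sets -/
theorem nest {V : ℝ → Set ℂ} {t0 t1 : ℝ} (h01 : t0 ≤ t1) (hop : ∀ t ∈ Icc t0 t1, IsOpen (V t))
    (hpre : ∀ t ∈ Icc t0 t1, IsPreconnected (V t))
    (hmono : ∀ s ∈ Icc t0 t1, ∀ t ∈ Icc t0 t1, s ≤ t → V s ⊆ V t) (hne : (V t0).Nonempty)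
    (hun : ∀ t ∈ Ioc t0 t1, ∀ u ∈ V t, ∃ s ∈ Ico t0 t, u ∈ V s) {F : ℂ → ℂ}
    (hF : DifferentiableOn ℂ F (V t0))
    (hstep : ∀ t ∈ Ico t0 t1, ∀ G : ℂ → ℂ, DifferentiableOn ℂ G (V t) → EqOn G F (V t0) →
      ∃ t' ∈ Ioc t t1, ∃ G' : ℂ → ℂ, DifferentiableOn ℂ G' (V t') ∧ EqOn G' F (V t0)) :
    ∃ G : ℂ → ℂ, DifferentiableOn ℂ G (V t1) ∧ EqOn G F (V t0) := by
  classical
  obtain ⟨S, hS⟩ : ∃ S : Set ℝ, S = {t | t ∈ Icc t0 t1 ∧ ∃ G : ℂ → ℂ,
    DifferentiableOn ℂ G (V t) ∧ EqOn G F (V t0)} := ⟨_, rfl⟩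
  have h0S : t0 ∈ S := by
    rw [hS]
    exact ⟨⟨le_rfl, h01⟩, F, hF, fun _ _ => rfl⟩
  have hbdd : BddAbove S := ⟨t1, by rintro t ht; rw [hS] at ht; exact ht.1.2⟩
  obtain ⟨T, hT⟩ : ∃ T, T = sSup S := ⟨_, rfl⟩
  have hT0 : t0 ≤ T := by rw [hT]; exact le_csSup hbdd h0S
  have hT1 : T ≤ t1 := by
    rw [hT]
    exact csSup_le ⟨t0, h0S⟩ (fun t ht => by rw [hS] at ht; exact ht.1.2)
  obtain ⟨z, hz⟩ := hne
  have hTS : T ∈ S := by
    rcases hT0.eq_or_lt with h | h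
    · rw [← h]; exact h0S
    have hSI : ∀ s ∈ S, s ∈ Icc t0 t1 := fun s hs => by rw [hS] at hs; exact hs.1
    have hG : ∀ s ∈ S, ∃ G : ℂ → ℂ, DifferentiableOn ℂ G (V s) ∧ EqOn G F (V t0) := by
      intro s hs
      rw [hS] at hs
      exact hs.2
    choose! G hG1 hG2 using hG
    -- a member of `S` for each point of `V T`
    have hσ : ∀ u ∈ V T, ∃ s ∈ S, u ∈ V s := by
      intro u hu
      obtain ⟨s, hs, hus⟩ := hun T ⟨h, hT1⟩ u hu
      obtain ⟨s', hs', hss⟩ := exists_lt_of_lt_csSup ⟨t0, h0S⟩ (hT ▸ hs.2 : s < sSup S)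
      exact ⟨s', hs', hmono s ⟨hs.1, (hs.2.le.trans hT1)⟩ s' (hSI s' hs') hss.le hus⟩
    choose! σ hσS hσV using hσ
    have hagree : ∀ s ∈ S, ∀ t ∈ S, s ≤ t → EqOn (G s) (G t) (V s) := by
      intro s hs t ht hst
      have hzs : z ∈ V s := hmono t0 ⟨le_rfl, h01⟩ s (hSI s hs) (hSI s hs).1 hz
      refine eq_on (hop s (hSI s hs)) (hpre s (hSI s hs)) (hG1 s hs)
        ((hG1 t ht).mono (hmono s (hSI s hs) t (hSI t ht) hst)) hzs ?_
      filter_upwards [(hop t0 ⟨le_rfl, h01⟩).mem_nhds hz] with v hv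
      rw [hG2 s hs hv, hG2 t ht hv]
    have hagree' : ∀ s ∈ S, ∀ t ∈ S, ∀ u, u ∈ V s → u ∈ V t → G s u = G t u := by
      intro s hs t ht u hus hut
      rcases le_total s t with h | h
      · exact hagree s hs t ht h hus
      · exact (hagree t ht s hs h hut).symm
    have hTI : T ∈ Icc t0 t1 := ⟨hT0, hT1⟩
    rw [hS]
    refine ⟨hTI, fun u => G (σ u) u, ?_, ?_⟩
    · intro u hu
      apply DifferentiableAt.differentiableWithinAt
      have h1 : V (σ u) ∈ 𝓝 u := (hop _ (hSI _ (hσS u hu))).mem_nhds (hσV u hu)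
      refine ((hG1 _ (hσS u hu)).differentiableAt h1).congr_of_eventuallyEq ?_
      filter_upwards [h1, (hop T hTI).mem_nhds hu] with v hv1 hv2
      exact hagree' _ (hσS v hv2) _ (hσS u hu) v (hσV v hv2) hv1
    · intro u hu
      have hu' : u ∈ V T := hmono t0 ⟨le_rfl, h01⟩ T hTI hT0 hu
      have h1 := hagree' _ (hσS u hu') t0 h0S u (hσV u hu') hu
      show G (σ u) u = F u
      rw [h1]
      exact hG2 t0 h0S hu
  rcases hT1.eq_or_lt with h | h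
  · rw [hS, h] at hTS
    exact hTS.2
  · exfalso
    rw [hS] at hTS
    obtain ⟨_, G, hG1, hG2⟩ := hTS
    obtain ⟨t', ht', G', hG1', hG2'⟩ := hstep T ⟨hT0, h⟩ G hG1 hG2
    have : t' ∈ S := by
      rw [hS]
      exact ⟨⟨hT0.trans ht'.1.le, ht'.2⟩, G', hG1', hG2'⟩
    have h2 := le_csSup hbdd this
    rw [← hT] at h2
    exact absurd ht'.1 (not_lt.2 h2)

/-- extension to a concentric disc -/
theorem disc_ext {c : ℂ} {ρ0 ρ1 : ℝ} (h0 : 0 < ρ0) (h01 : ρ0 ≤ ρ1) {F : ℂ → ℂ}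
    (hF : DifferentiableOn ℂ F (ball c ρ0))
    (h : ∀ ρ : ℝ, ρ0 ≤ ρ → ρ < ρ1 → ∀ G : ℂ → ℂ, DifferentiableOn ℂ G (ball c ρ) →
      EqOn G F (ball c ρ0) → ∀ P ∈ sphere c ρ, LocExt (ball c ρ) G P) :
    ∃ G : ℂ → ℂ, DifferentiableOn ℂ G (ball c ρ1) ∧ EqOn G F (ball c ρ0) := by
  refine nest (V := fun t => ball c t) h01 (fun _ _ => isOpen_ball)
    (fun _ _ => (convex_ball _ _).isPreconnected) (fun s _ t _ hst => ball_subset_ball hst)
    ⟨c, mem_ball_self h0⟩ ?_ hF ?_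
  · intro t ht u hu
    rw [mem_ball_iff_norm] at hu
    refine ⟨max ρ0 ((‖u - c‖ + t) / 2), ⟨le_max_left _ _, max_lt ht.1 (by linarith)⟩, ?_⟩
    rw [mem_ball_iff_norm]
    exact lt_of_lt_of_le (by linarith) (le_max_right _ _)
  · intro t ht G hG hGF
    have ht0 : 0 < t := h0.trans_le ht.1
    obtain ⟨δ, hδ, -, G', hG', hGG⟩ := collar ht0 isOpen_ball
      (by rw [closure_ball _ ht0.ne']; exact sphere_subset_closedBall) hG (h t ht.1 ht.2 G hG hGF)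
    refine ⟨min ρ1 (t + δ / 2), ⟨lt_min ht.2 (by linarith), min_le_left _ _⟩, G', ?_, ?_⟩
    · refine hG'.mono fun u hu => ?_
      rw [mem_ball_iff_norm] at hu
      have h1 : ‖u - c‖ < t + δ / 2 := lt_of_lt_of_le hu (min_le_right _ _)
      by_cases h2 : ‖u - c‖ < t
      · exact Or.inl (mem_ball_iff_norm.2 h2)
      · right
        show |‖u - c‖ - t| < δ
        rw [abs_lt]
        constructor <;> linarith [not_lt.1 h2]
    · intro u hu
      rw [hGG (ball_subset_ball ht.1 hu), hGF hu]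

theorem annulus_pre {s : ℝ} (hs : 0 ≤ s) : IsPreconnected {u : ℂ | s < ‖u‖ ∧ ‖u‖ < 1} := by
  have h1 : {u : ℂ | s < ‖u‖ ∧ ‖u‖ < 1} =
      (fun p : ℝ × ℝ => (p.1 : ℂ) * Complex.exp (p.2 * Complex.I)) '' (Ioo s 1 ×ˢ univ) := by
    ext y
    constructor
    · rintro ⟨hy1, hy2⟩
      exact ⟨(‖y‖, Complex.arg y), ⟨⟨hy1, hy2⟩, trivial⟩, Complex.norm_mul_exp_arg_mul_I y⟩
    · rintro ⟨⟨t, θ⟩, ⟨⟨ht0, ht1⟩, -⟩, rfl⟩
      simp only at ht0 ht1
      have hn : ‖(t : ℂ) * Complex.exp (θ * Complex.I)‖ = t := by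
        rw [norm_mul, Complex.norm_exp_ofReal_mul_I, mul_one, Complex.norm_real,
          Real.norm_eq_abs, abs_of_pos (by linarith)]
      show s < ‖(t : ℂ) * Complex.exp (θ * Complex.I)‖ ∧
        ‖(t : ℂ) * Complex.exp (θ * Complex.I)‖ < 1
      rw [hn]
      exact ⟨ht0, ht1⟩
  rw [h1]
  apply IsPreconnected.image
  · exact (isPreconnected_Ioo).prod isPreconnected_univ
  · apply Continuous.continuousOn
    fun_prop

/-- extension from an annulus to the punctured disc -/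
theorem annulus_ext {s : ℝ} (hs0 : 0 < s) (hs1 : s < 1) {F : ℂ → ℂ}
    (hF : DifferentiableOn ℂ F {u : ℂ | s < ‖u‖ ∧ ‖u‖ < 1})
    (h : ∀ R : ℝ, 0 < R → R ≤ s → ∀ G : ℂ → ℂ,
      DifferentiableOn ℂ G {u : ℂ | R < ‖u‖ ∧ ‖u‖ < 1} →
      EqOn G F {u : ℂ | s < ‖u‖ ∧ ‖u‖ < 1} →
      ∀ P : ℂ, ‖P‖ = R → LocExt {u : ℂ | R < ‖u‖ ∧ ‖u‖ < 1} G P) :
    ∃ G : ℂ → ℂ, DifferentiableOn ℂ G {u : ℂ | 0 < ‖u‖ ∧ ‖u‖ < 1} ∧
      EqOn G F {u : ℂ | s < ‖u‖ ∧ ‖u‖ < 1} := by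
  have hop : ∀ R : ℝ, IsOpen {u : ℂ | R < ‖u‖ ∧ ‖u‖ < 1} := fun R =>
    (isOpen_lt continuous_const continuous_norm).inter (isOpen_lt continuous_norm continuous_const)
  suffices hmain : ∃ G : ℂ → ℂ, DifferentiableOn ℂ G {u : ℂ | -(0 : ℝ) < ‖u‖ ∧ ‖u‖ < 1} ∧
      EqOn G F {u : ℂ | -(-s) < ‖u‖ ∧ ‖u‖ < 1} by
    obtain ⟨G, hG1, hG2⟩ := hmain
    refine ⟨G, ?_, ?_⟩
    · simpa using hG1
    · simpa using hG2
  refine nest (V := fun t : ℝ => {u : ℂ | -t < ‖u‖ ∧ ‖u‖ < 1}) (t0 := -s)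
    (t1 := 0) (by linarith) (fun t _ => hop (-t))
    (fun t ht => annulus_pre (by linarith [ht.2]))
    (fun a _ b _ hab u hu => ⟨by linarith [hu.1], hu.2⟩) ?_ ?_ (F := F) ?_ ?_
  · refine ⟨(((s + 1) / 2 : ℝ) : ℂ), ?_⟩
    have : ‖(((s + 1) / 2 : ℝ) : ℂ)‖ = (s + 1) / 2 := by
      rw [Complex.norm_real, Real.norm_eq_abs, abs_of_pos (by linarith)]
    show - -s < ‖(((s + 1) / 2 : ℝ) : ℂ)‖ ∧ ‖(((s + 1) / 2 : ℝ) : ℂ)‖ < 1
    rw [this]
    constructor <;> linarith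
  · intro t ht u hu
    have h1 : -t < ‖u‖ := hu.1
    refine ⟨max (-s) ((t - ‖u‖) / 2), ⟨le_max_left _ _, max_lt ht.1 (by linarith)⟩, ?_, hu.2⟩
    have : (t - ‖u‖) / 2 ≤ max (-s) ((t - ‖u‖) / 2) := le_max_right _ _
    linarith
  · simpa using hF
  · intro t ht G hG hGF
    have hR0 : 0 < -t := by linarith [ht.2]
    have hRs : -t ≤ s := by linarith [ht.1]
    simp only [neg_neg] at hGF
    obtain ⟨δ, hδ, hδt, G', hG', hGG⟩ := collar (c := 0) hR0 (hop (-t)) (by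
      intro P hP
      rw [mem_sphere_zero_iff_norm] at hP
      rw [mem_closure_iff_nhds]
      intro U hU
      have h1 : Tendsto (fun x : ℝ => ((1 + x : ℝ) : ℂ) * P) (𝓝[>] 0) (𝓝 P) := by
        have h2 : Continuous fun x : ℝ => ((1 + x : ℝ) : ℂ) * P := by fun_prop
        have h3 := h2.tendsto 0
        simp only [add_zero, Complex.ofReal_one, one_mul] at h3
        exact h3.mono_left nhdsWithin_le_nhds
      have h4 : ∀ᶠ x : ℝ in 𝓝[>] 0, x < (1 / ‖P‖ - 1) := by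
        have : (0 : ℝ) < 1 / ‖P‖ - 1 := by
          rw [sub_pos, lt_div_iff₀ (by rw [hP]; exact hR0), hP]
          linarith
        exact (isOpen_Iio.mem_nhds this) |> fun h => nhdsWithin_le_nhds h
      obtain ⟨x, hx1, hx2, hx3⟩ := ((h1.eventually hU).and
        (h4.and self_mem_nhdsWithin)).exists
      refine ⟨_, hx1, ?_⟩
      have hx0 : (0 : ℝ) < x := hx3
      have hPn : 0 < ‖P‖ := by rw [hP]; exact hR0
      have hn : ‖((1 + x : ℝ) : ℂ) * P‖ = (1 + x) * ‖P‖ := by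
        rw [norm_mul, Complex.norm_real, Real.norm_eq_abs, abs_of_pos (by linarith)]
      show -t < ‖((1 + x : ℝ) : ℂ) * P‖ ∧ ‖((1 + x : ℝ) : ℂ) * P‖ < 1
      rw [hn]
      constructor
      · rw [← hP]; nlinarith
      · have : 1 + x < 1 / ‖P‖ := by linarith
        exact (lt_div_iff₀ hPn).1 this) hG
      (fun P hP => h (-t) hR0 hRs G hG hGF P (mem_sphere_zero_iff_norm.1 hP))
    refine ⟨min 0 (t + δ / 2), ⟨lt_min ht.2 (by linarith), min_le_left _ _⟩, G', ?_, ?_⟩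
    · refine hG'.mono fun u hu => ?_
      have h1 : -(min 0 (t + δ / 2)) < ‖u‖ := hu.1
      have h2 : min 0 (t + δ / 2) ≤ t + δ / 2 := min_le_right _ _
      by_cases h3 : -t < ‖u‖
      · exact Or.inl ⟨h3, hu.2⟩
      · right
        show |‖u - 0‖ - -t| < δ
        rw [sub_zero, abs_lt]
        constructor <;> linarith [not_lt.1 h3]
    · intro u hu
      have hu' : u ∈ {u : ℂ | s < ‖u‖ ∧ ‖u‖ < 1} := by simpa using hu
      rw [hGG ⟨hRs.trans_lt hu'.1, hu'.2⟩, hGF hu']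

end Pool.Agent.T9h43.SA
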