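import Pool.Agent.Y953.SC.Gen
import Pool.Agent.Y245.UC.Main

/-!
From the Bessel kernel to exponentials, for an open path: the integrals of exponentials are bounded.
-/

set_option autoImplicit false

open Complex MeasureTheory Metric Set Filter Topology
open Pool.Agent.Y245.SC Pool.Agent.Y245.UC
open Pool.Agent.Y953.SC (e1 coeff_zero hasSum_regroup summable_prod_exp norm_e1 sum1 fib_neg
  fib_pos)

namespace Pool.Agent.T9h43.SA

theorem coeff_const {c : ℕ → ℂ} {C0 : ℂ} (h : ∀ t : ℂ, HasSum (fun i => c i * t ^ i) C0) {i : ℕ}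
    (hi : 1 ≤ i) : c i = 0 := by
  have h1 : ∀ t : ℂ, HasSum (fun j => (c j - if j = 0 then C0 else 0) * t ^ j) 0 := by
    intro t
    have h2 : HasSum (fun j : ℕ => (if j = 0 then C0 else 0 : ℂ) * t ^ j) C0 := by
      have h3 := hasSum_single (f := fun j : ℕ => (if j = 0 then C0 else 0 : ℂ) * t ^ j) 0
        (fun j hj => by simp [hj])
      simpa using h3
    have h4 := (h t).sub h2
    rw [sub_self] at h4
    refine h4.congrY953 fun j => ?_
    ring
  have h5 := coeff_zero h1 i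
  have h6 : i ≠ 0 := by omega
  simpa [h6] using h5

theorem hasSum_int {ι : Type} [Countable ι] {f : ι → ℝ → ℂ}
    {g : ℝ → ℂ} {u : ι → ℝ} (hu : Summable u) (hf : ∀ i, ContinuousOn (f i) (Icc (0 : ℝ) 1))
    (hb : ∀ i, ∀ t ∈ Icc (0 : ℝ) 1, ‖f i t‖ ≤ u i)
    (hs : ∀ t ∈ Icc (0 : ℝ) 1, HasSum (fun i => f i t) (g t)) :
    HasSum (fun i => ∫ t in (0 : ℝ)..1, f i t) (∫ t in (0 : ℝ)..1, g t) := by
  have hsub : ∀ t ∈ uIoc (0 : ℝ) 1, t ∈ Icc (0 : ℝ) 1 := by
    intro t ht
    rw [uIoc_of_le zero_le_one] at ht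
    exact ⟨ht.1.le, ht.2⟩
  refine intervalIntegral.hasSum_integral_of_dominated_convergence (fun i _ => u i) ?_ ?_ ?_
    ?_ ?_
  · intro i
    exact ((hf i).mono hsub).aestronglyMeasurable measurableSet_uIoc
  · intro i
    exact Eventually.of_forall fun t ht => hb i t (hsub t ht)
  · exact Eventually.of_forall fun t _ => hu
  · exact intervalIntegrable_const
  · exact Eventually.of_forall fun t ht => hs t (hsub t ht)

/-- the coefficients of positive order of the expansion of a constant family vanish -/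
theorem family' {e : ℕ → ℝ → ℂ} {s W : ℝ → ℂ} {C K B D : ℝ}
    (hC : 0 ≤ C) (hK : 0 ≤ K) (hB : 0 ≤ B)
    (hec : ∀ m, ContinuousOn (e m) (Icc (0 : ℝ) 1))
    (hsc : ContinuousOn s (Icc (0 : ℝ) 1)) (hWc : ContinuousOn W (Icc (0 : ℝ) 1))
    (he : ∀ m, ∀ t ∈ Icc (0 : ℝ) 1, ‖e m t‖ ≤ C * K ^ m)
    (hs : ∀ t ∈ Icc (0 : ℝ) 1, ‖s t‖ ≤ B) (hW : ∀ t ∈ Icc (0 : ℝ) 1, ‖W t‖ ≤ D)
    {H : ℂ → ℝ → ℂ} {C0 : ℂ}
    (hH : ∀ z : ℂ, ∀ t ∈ Icc (0 : ℝ) 1,
      HasSum (fun m => e m t * ((s t + z) ^ m / (m.factorial : ℂ))) (H z t))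
    (h0 : ∀ z : ℂ, ∫ t in (0 : ℝ)..1, H z t * W t = C0) (i : ℕ) (hi : 1 ≤ i) :
    HasSum (fun l : ℕ => ∫ t in (0 : ℝ)..1, e (l + i) t * (s t ^ l / (l.factorial : ℂ)) * W t)
      0 := by
  set A : ℕ → ℕ → ℂ := fun l i => ∫ t in (0 : ℝ)..1,
    e (l + i) t * (s t ^ l / (l.factorial : ℂ)) * W t with hA
  have h1 : ∀ z : ℂ, HasSum (fun p : ℕ × ℕ => A p.1 p.2 * (z ^ p.2 / (p.2.factorial : ℂ))) C0 := by
    intro z
    have h2 := hasSum_int
      (f := fun (p : ℕ × ℕ) t => e (p.1 + p.2) t * (s t ^ p.1 / (p.1.factorial : ℂ)) *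
        (z ^ p.2 / (p.2.factorial : ℂ)) * W t) (g := fun t => H z t * W t)
      (u := fun p => C * K ^ (p.1 + p.2) * (B ^ p.1 / (p.1.factorial : ℝ)) *
        (‖z‖ ^ p.2 / (p.2.factorial : ℝ)) * D)
      ((summable_prod_exp C K B ‖z‖ hK hB (norm_nonneg _)).mul_right D) ?_ ?_ ?_
    · rw [h0 z] at h2
      refine h2.congrY953 fun p => ?_
      rw [hA]
      simp only
      rw [mul_comm, ← intervalIntegral.integral_const_mul]
      congr 1
      ext t
      ring
    · intro p
      exact (((hec _).mul ((hsc.pow _).div_const _)).mul continuousOn_const).mul hWc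
    · intro p t ht
      rw [norm_mul, norm_mul, norm_mul, norm_div, norm_div, norm_pow, norm_pow,
        Complex.norm_natCast, Complex.norm_natCast]
      have e1 := he (p.1 + p.2) t ht
      have e2 := hs t ht
      have e3 := hW t ht
      gcongr
    · intro t ht
      exact (hasSum_regroup hK (fun m => he m t ht) (hH z t ht)).mul_right (W t)
  have h2 : ∀ i, Summable fun l => A l i := by
    intro i
    have h3 := (h1 1).summable.comp_injective (i := fun l : ℕ => (l, i))
      (fun l l' h => by simpa using congrArg Prod.fst h)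
    have h4 := h3.mul_right (i.factorial : ℂ)
    refine h4.congr fun l => ?_
    have h6 : (i.factorial : ℂ) ≠ 0 := by exact_mod_cast i.factorial_ne_zero
    simp only [Function.comp, one_pow]
    field_simp
  have h3 : ∀ z : ℂ, HasSum (fun i => ((∑' l, A l i) / (i.factorial : ℂ)) * z ^ i) C0 := by
    intro z
    have h4 := h1 z
    rw [← (Equiv.prodComm ℕ ℕ).hasSum_iff] at h4
    have h4' : HasSum (fun p : ℕ × ℕ => A p.2 p.1 * (z ^ p.1 / (p.1.factorial : ℂ))) C0 :=
      h4.congrY953 fun p => rfl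
    have h8 : ∀ i, HasSum (fun l => A l i * (z ^ i / (i.factorial : ℂ)))
        ((∑' l, A l i) * (z ^ i / (i.factorial : ℂ))) := fun i => (h2 i).hasSum.mul_right _
    have h5 := h4'.prod_fiberwise (g := fun i => (∑' l, A l i) * (z ^ i / (i.factorial : ℂ))) h8
    refine h5.congrY953 fun i => ?_
    ring
  have h4 := coeff_const h3 hi
  have h6 : (i.factorial : ℂ) ≠ 0 := by exact_mod_cast i.factorial_ne_zero
  have h5 : ∑' l, A l i = 0 := by
    rcases div_eq_zero_iff.1 h4 with h | h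
    · exact h
    · exact absurd h h6
  have h7 := (h2 i).hasSum
  rw [h5] at h7
  exact h7

theorem fam {a : ℝ} (ha : 0 < a) {X x W : ℝ → ℂ} (hX : ContinuousOn X (Icc (0 : ℝ) 1))
    (hx : ContinuousOn x (Icc (0 : ℝ) 1)) (hW : ContinuousOn W (Icc (0 : ℝ) 1)) {C0 : ℂ}
    (h : ∀ b : ℂ, ∫ t in (0 : ℝ)..1, (X t - b) ^ 2 * kap a ((X t - b) * x t) * W t = C0) :
    ∃ K : ℝ, ∀ α β : ℂ, α * β = -(a : ℂ) → 1 ≤ ‖α‖ →
      ‖∫ t in (0 : ℝ)..1, exp (α * x t + β * X t) * W t‖ ≤ K := by
  have hk := t_KAP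
  obtain ⟨B1, hB1⟩ := isCompact_Icc.exists_bound_of_continuousOn hX
  obtain ⟨B2, hB2⟩ := isCompact_Icc.exists_bound_of_continuousOn hx
  obtain ⟨B3, hB3⟩ := isCompact_Icc.exists_bound_of_continuousOn hW
  obtain ⟨B, hB, hXB, hxB, hWB⟩ : ∃ B : ℝ, 1 ≤ B ∧ (∀ t ∈ Icc (0 : ℝ) 1, ‖X t‖ ≤ B) ∧
      (∀ t ∈ Icc (0 : ℝ) 1, ‖x t‖ ≤ B) ∧ ∀ t ∈ Icc (0 : ℝ) 1, ‖W t‖ ≤ B := by
    refine ⟨max 1 (max B1 (max B2 B3)), le_max_left _ _, fun t ht => ?_, fun t ht => ?_,
      fun t ht => ?_⟩
    · exact (hB1 t ht).trans ((le_max_left _ _).trans (le_max_right _ _))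
    · exact (hB2 t ht).trans ((le_max_left _ _).trans ((le_max_right _ _).trans
        (le_max_right _ _)))
    · exact (hB3 t ht).trans ((le_max_right _ _).trans ((le_max_right _ _).trans
        (le_max_right _ _)))
  have hB0 : 0 ≤ B := by linarith
  have ha' : (a : ℂ) ≠ 0 := by exact_mod_cast ha.ne'
  have ce1 : ∀ m, ContinuousOn (fun t => e1 a (x t) m) (Icc (0 : ℝ) 1) := by
    intro m
    match m with
    | 0 => exact continuousOn_const
    | 1 => exact continuousOn_const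
    | k + 2 => exact (continuousOn_const.mul (hx.pow k)).div_const _
  have f1 := family' (e := fun m t => e1 a (x t) m) (s := X) (W := W) (C := 1)
    (K := (a + 1) * B) (B := B) (D := B) zero_le_one (by positivity) hB0 ce1 hX hW
    (fun m t ht => norm_e1 ha hB (hxB t ht) m) hXB hWB (fun z t _ => sum1 hk ha (x t) (X t) z)
    (C0 := C0) (fun z => by
      rw [← h (-z)]
      refine intervalIntegral.integral_congr fun t _ => ?_
      simp only [sub_zero])
  -- the bound
  obtain ⟨U, hU⟩ : ∃ U : ℕ × ℕ → ℝ, U = fun p => 1 * 1 ^ (p.1 + p.2) *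
      ((a * B) ^ p.1 / (p.1.factorial : ℝ)) * (B ^ p.2 / (p.2.factorial : ℝ)) * B := ⟨_, rfl⟩
  have hUs : Summable U := by
    rw [hU]
    exact (summable_prod_exp 1 1 (a * B) B zero_le_one (by positivity) hB0).mul_right B
  refine ⟨∑' p, U p, fun α β hαβ hα1 => ?_⟩
  have hα0 : α ≠ 0 := fun h0 => ha' (by rw [h0, zero_mul] at hαβ; exact neg_eq_zero.1 hαβ.symm)
  have hβ0 : β ≠ 0 := fun h0 => ha' (by rw [h0, mul_zero] at hαβ; exact neg_eq_zero.1 hαβ.symm)
  set T : ℕ × ℕ → ℂ := fun p => ∫ t in (0 : ℝ)..1, ((β * X t) ^ p.1 / (p.1.factorial : ℂ)) *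
    ((α * x t) ^ p.2 / (p.2.factorial : ℂ)) * W t with hT
  have hTb : ∀ p : ℕ × ℕ, ‖T p‖ ≤ 1 * 1 ^ (p.1 + p.2) * ((‖β‖ * B) ^ p.1 / (p.1.factorial : ℝ)) *
        ((‖α‖ * B) ^ p.2 / (p.2.factorial : ℝ)) * B := by
    intro p
    rw [hT]
    simp only
    have h1 := intervalIntegral.norm_integral_le_of_norm_le_const (a := (0 : ℝ)) (b := 1)
      (f := fun t => ((β * X t) ^ p.1 / (p.1.factorial : ℂ)) *
        ((α * x t) ^ p.2 / (p.2.factorial : ℂ)) * W t)
      (C := 1 * 1 ^ (p.1 + p.2) * ((‖β‖ * B) ^ p.1 / (p.1.factorial : ℝ)) *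
        ((‖α‖ * B) ^ p.2 / (p.2.factorial : ℝ)) * B) ?_
    · simpa using h1
    · intro t ht
      rw [uIoc_of_le zero_le_one] at ht
      have ht' : t ∈ Icc (0 : ℝ) 1 := ⟨ht.1.le, ht.2⟩
      rw [norm_mul, norm_mul, norm_div, norm_div, norm_pow, norm_pow, norm_mul, norm_mul,
        Complex.norm_natCast, Complex.norm_natCast, one_pow, one_mul, one_mul]
      have g1 := hXB t ht'
      have g2 := hxB t ht'
      have g3 := hWB t ht'
      gcongr
  have hsumT : HasSum T (∫ t in (0 : ℝ)..1, exp (α * x t + β * X t) * W t) := by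
    refine hasSum_int
      (u := fun p => 1 * 1 ^ (p.1 + p.2) * ((‖β‖ * B) ^ p.1 / (p.1.factorial : ℝ)) *
        ((‖α‖ * B) ^ p.2 / (p.2.factorial : ℝ)) * B)
      ((summable_prod_exp 1 1 (‖β‖ * B) (‖α‖ * B) zero_le_one (by positivity)
        (by positivity)).mul_right B) ?_ ?_ ?_
    · intro p
      exact ((((continuousOn_const.mul hX).pow _).div_const _).mul
        (((continuousOn_const.mul hx).pow _).div_const _)).mul hW
    · intro p t ht
      rw [norm_mul, norm_mul, norm_div, norm_div, norm_pow, norm_pow, norm_mul, norm_mul,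
        Complex.norm_natCast, Complex.norm_natCast, one_pow, one_mul, one_mul]
      have g1 := hXB t ht
      have g2 := hxB t ht
      have g3 := hWB t ht
      gcongr
    · intro t ht
      have g1 : HasSum (fun m : ℕ => (1 : ℂ) * ((β * X t + α * x t) ^ m / (m.factorial : ℂ)))
          (exp (α * x t + β * X t)) := by
        rw [add_comm (α * x t), Complex.exp_eq_exp_ℂ]
        refine (NormedSpace.expSeries_div_hasSum_exp (β * X t + α * x t)).congrY953 fun m => ?_
        rw [one_mul]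
      have g2 := hasSum_regroup (e := fun _ => (1 : ℂ)) (C := 1) (K := 1) zero_le_one
        (fun m => by simp) g1
      refine (g2.mul_right (W t)).congrY953 fun p => ?_
      rw [one_mul]
  -- split
  set T1 : ℕ × ℕ → ℂ := fun p => if p.1 ≤ p.2 + 1 then T p else 0 with hT1
  set T2 : ℕ × ℕ → ℂ := fun p => if p.1 ≤ p.2 + 1 then 0 else T p with hT2
  have hβn : ‖α‖ * ‖β‖ = a := by
    rw [← norm_mul, hαβ, norm_neg, Complex.norm_real, Real.norm_of_nonneg ha.le]
  have hT2b : ∀ p, ‖T2 p‖ ≤ U p := by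
    intro p
    rw [hT2, hU]
    simp only
    split_ifs with hp
    · rw [norm_zero]
      positivity
    · refine (hTb p).trans ?_
      have hα0' : 0 < ‖α‖ := by linarith
      have hβ' : ‖β‖ = a / ‖α‖ := by
        rw [eq_div_iff hα0'.ne', mul_comm]
        exact hβn
      have h1 : (‖β‖ * B) ^ p.1 * (‖α‖ * B) ^ p.2 ≤ (a * B) ^ p.1 * B ^ p.2 := by
        obtain ⟨k, hk⟩ : ∃ k, p.1 = p.2 + k := ⟨p.1 - p.2, by omega⟩
        have e : (‖β‖ * B) ^ p.1 * (‖α‖ * B) ^ p.2 =
            (‖α‖ * ‖β‖) ^ p.2 * ‖β‖ ^ k * B ^ p.1 * B ^ p.2 := by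
          rw [hk]
          ring
        rw [e, hβn]
        have h2 : ‖β‖ ^ k ≤ a ^ k := by
          refine pow_le_pow_left₀ (norm_nonneg _) ?_ k
          rw [hβ']
          exact div_le_self ha.le hα1
        calc a ^ p.2 * ‖β‖ ^ k * B ^ p.1 * B ^ p.2 ≤ a ^ p.2 * a ^ k * B ^ p.1 * B ^ p.2 := by
              gcongr
          _ = (a * B) ^ p.1 * B ^ p.2 := by
              rw [mul_pow, ← pow_add, ← hk]
      have e2 : ∀ y z : ℝ, 1 * 1 ^ (p.1 + p.2) * (y / (p.1.factorial : ℝ)) *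
          (z / (p.2.factorial : ℝ)) * B = (y * z) * (B / ((p.1.factorial : ℝ) *
            (p.2.factorial : ℝ))) := by
        intro y z
        have q1 : (p.1.factorial : ℝ) ≠ 0 := by exact_mod_cast p.1.factorial_ne_zero
        have q2 : (p.2.factorial : ℝ) ≠ 0 := by exact_mod_cast p.2.factorial_ne_zero
        field_simp
        simp
      rw [e2, e2]
      exact mul_le_mul_of_nonneg_right h1 (by positivity)
  have hT2s : Summable T2 := Summable.of_norm_bounded hUs hT2b
  have hT1e : ∀ p, T1 p = T p - T2 p := by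
    intro p
    rw [hT1, hT2]
    simp only
    split_ifs <;> ring
  have hsT1 : HasSum T1 ((∫ t in (0 : ℝ)..1, exp (α * x t + β * X t) * W t) - ∑' p, T2 p) := by
    have := hsumT.sub hT2s.hasSum
    exact this.congrY953 hT1e
  have hfib := hsT1.tsum_fiberwise fun p : ℕ × ℕ => (p.1 : ℤ) - p.2
  have hz : ∀ n : ℤ, ∑' b : (fun p : ℕ × ℕ => (p.1 : ℤ) - p.2) ⁻¹' {n}, T1 b = 0 := by
    intro n
    rcases le_or_gt n 0 with hn | hn
    · obtain ⟨m, rfl⟩ : ∃ m : ℕ, n = -(m : ℤ) := ⟨n.natAbs, by omega⟩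
      rw [fib_neg, tsum_range T1 (fun l l' hl => by simpa using congrArg Prod.fst hl)]
      have g1 := (f1 (m + 2) (by omega)).mul_left (α ^ m / (-(a : ℂ)) ^ (m + 1))
      rw [mul_zero] at g1
      refine (g1.congrY953 fun l => ?_).tsum_eq
      rw [hT1]
      simp only
      rw [if_pos (by omega), hT]
      simp only
      rw [← intervalIntegral.integral_const_mul]
      congr 1
      ext t
      have e : e1 a (x t) (l + (m + 2)) =
        (-(a : ℂ)) ^ (l + m + 1) * x t ^ (l + m) / ((l + m).factorial : ℂ) := rfl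
      rw [e, ← hαβ, mul_pow, mul_pow]
      have q1 : ((l + m).factorial : ℂ) ≠ 0 := by exact_mod_cast (l + m).factorial_ne_zero
      have q2 : (l.factorial : ℂ) ≠ 0 := by exact_mod_cast l.factorial_ne_zero
      generalize ((l + m).factorial : ℂ) = F1 at *
      generalize (l.factorial : ℂ) = F2 at *
      field_simp
      try ring
    · obtain ⟨m, rfl⟩ : ∃ m : ℕ, n = ((m + 1 : ℕ) : ℤ) := ⟨n.toNat - 1, by omega⟩
      rw [fib_pos, tsum_range T1 (fun l l' hl => by simpa using congrArg Prod.snd hl)]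
      rcases m with _ | m
      · have g0 := (hasSum_nat_add_iff' 1).2 (f1 1 le_rfl)
        have g00 : ∑ l ∈ Finset.range 1, (∫ t in (0 : ℝ)..1, e1 a (x t) (l + 1) *
            (X t ^ l / (l.factorial : ℂ)) * W t) = 0 := by
          rw [Finset.sum_range_one]
          have : (fun t => e1 a (x t) (0 + 1) * (X t ^ 0 / ((Nat.factorial 0 : ℕ) : ℂ)) * W t) =
              fun _ => 0 := by
            ext t
            simp [e1]
          rw [this]
          simp
        rw [g00, sub_zero] at g0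
        have g1 := g0.mul_left (β / (-(a : ℂ)))
        rw [mul_zero] at g1
        refine (g1.congrY953 fun l => ?_).tsum_eq
        rw [hT1]
        simp only
        rw [if_pos (by omega), hT]
        simp only
        rw [← intervalIntegral.integral_const_mul]
        congr 1
        ext t
        have e : e1 a (x t) (l + 1 + 1) =
          (-(a : ℂ)) ^ (l + 1) * x t ^ l / (l.factorial : ℂ) := rfl
        rw [e, ← hαβ, mul_pow, mul_pow]
        have q1 : ((l + (0 + 1)).factorial : ℂ) ≠ 0 := by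
          exact_mod_cast (l + (0 + 1)).factorial_ne_zero
        have q2 : (l.factorial : ℂ) ≠ 0 := by exact_mod_cast l.factorial_ne_zero
        rw [zero_add] at *
        generalize ((l + 1).factorial : ℂ) = F1 at *
        generalize (l.factorial : ℂ) = F2 at *
        field_simp
        try ring
      · have : ∀ l : ℕ, T1 (l + (m + 1 + 1), l) = 0 := by
          intro l
          rw [hT1]
          simp only
          rw [if_neg (by omega)]
        simp only [this]
        simp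
  have h9 : (∫ t in (0 : ℝ)..1, exp (α * x t + β * X t) * W t) - ∑' p, T2 p = 0 := by
    refine hfib.unique ?_
    simp only [hz]
    exact hasSum_zero
  have h10 : (∫ t in (0 : ℝ)..1, exp (α * x t + β * X t) * W t) = ∑' p, T2 p :=
    sub_eq_zero.1 h9
  rw [h10]
  exact tsum_of_norm_bounded hUs.hasSum hT2b

end Pool.Agent.T9h43.SA
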