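import Pool.Agent.T9h43.SA.Loc2
import Pool.Agent.Y50.SC.Disc

/-!
Algebroid boundaries: end of the proof.
-/

set_option autoImplicit false

open Complex MeasureTheory Metric Set Filter Topology ComplexConjugate
open Pool.Agent.Y245.SC Pool.Agent.Y245.UC
open Pool.Agent.TH298.Sch (Sol)

namespace Pool.Agent.T9h43.SA

theorem annulus_pre2 {s r : ℝ} (hs : 0 ≤ s) : IsPreconnected {u : ℂ | s < ‖u‖ ∧ ‖u‖ < r} := by
  have h1 : {u : ℂ | s < ‖u‖ ∧ ‖u‖ < r} =
      (fun p : ℝ × ℝ => (p.1 : ℂ) * Complex.exp (p.2 * Complex.I)) '' (Ioo s r ×ˢ univ) := by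
    ext y
    constructor
    · rintro ⟨hy1, hy2⟩
      exact ⟨(‖y‖, Complex.arg y), ⟨⟨hy1, hy2⟩, trivial⟩, Complex.norm_mul_exp_arg_mul_I y⟩
    · rintro ⟨⟨t, θ⟩, ⟨⟨ht0, ht1⟩, -⟩, rfl⟩
      simp only at ht0 ht1
      have hn : ‖(t : ℂ) * Complex.exp (θ * Complex.I)‖ = t := by
        rw [norm_mul, Complex.norm_exp_ofReal_mul_I, mul_one, Complex.norm_real,
          Real.norm_eq_abs, abs_of_pos (by linarith)]
      show s < ‖(t : ℂ) * Complex.exp (θ * Complex.I)‖ ∧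
        ‖(t : ℂ) * Complex.exp (θ * Complex.I)‖ < r
      rw [hn]
      exact ⟨ht0, ht1⟩
  rw [h1]
  apply IsPreconnected.image
  · exact (isPreconnected_Ioo).prod isPreconnected_univ
  · apply Continuous.continuousOn
    fun_prop

theorem annulus_open (s r : ℝ) : IsOpen {u : ℂ | s < ‖u‖ ∧ ‖u‖ < r} :=
  (isOpen_lt continuous_const continuous_norm).inter (isOpen_lt continuous_norm continuous_const)

/-- from a tangent disc to the annulus -/
theorem locExt_annulus {R ρ : ℝ} (hR : 0 < R) (hR1 : R < 1) (hρ : 0 < ρ) {P c : ℂ}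
    (hP : ‖P‖ = R) (hc : c = P * ((1 + ρ / R : ℝ) : ℂ)) {G : ℂ → ℂ}
    (hG : DifferentiableOn ℂ G {u : ℂ | R < ‖u‖ ∧ ‖u‖ < 1}) (h : LocExt (ball c ρ) G P) :
    LocExt {u : ℂ | R < ‖u‖ ∧ ‖u‖ < 1} G P := by
  obtain ⟨ε, E, hε, hE, hEG⟩ := h
  have hP0 : P ≠ 0 := by
    rw [← norm_pos_iff, hP]
    exact hR
  obtain ⟨p, hp⟩ : ∃ p : ℂ, exp p = P := ⟨Complex.log P, Complex.exp_log hP0⟩
  have hpre : Real.exp p.re = R := by rw [← Complex.norm_exp, hp, hP]
  have hcont : ContinuousAt (fun w : ℂ => exp w) p := Complex.continuous_exp.continuousAt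
  have h1 : ∀ᶠ w in 𝓝 p, exp w ∈ ball P ε := by
    have := hcont.eventually (ball_mem_nhds (exp p) hε)
    rwa [hp] at this
  have h2 : ∀ᶠ w in 𝓝 p, ‖exp w‖ < 1 := by
    refine hcont.norm.eventually_lt_const ?_
    show ‖exp p‖ < 1
    rw [hp, hP]
    exact hR1
  obtain ⟨η, hη, hη'⟩ := Metric.eventually_nhds_iff_ball.1 (h1.and h2)
  obtain ⟨D, hD⟩ : ∃ D : Set ℂ, D = ball p η ∩ {w : ℂ | p.re < w.re} := ⟨_, rfl⟩
  have hDo : IsOpen D := by
    rw [hD]
    exact isOpen_ball.inter (isOpen_lt continuous_const Complex.continuous_re)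
  have hDc : Convex ℝ D := by
    rw [hD]
    exact (convex_ball _ _).inter (convex_halfSpace_re_gt _)
  have hDm : ∀ w ∈ D, exp w ∈ ball P ε ∧ exp w ∈ {u : ℂ | R < ‖u‖ ∧ ‖u‖ < 1} := by
    intro w hw
    rw [hD] at hw
    obtain ⟨h3, h4⟩ := hη' w hw.1
    refine ⟨h3, ?_, h4⟩
    rw [Complex.norm_exp, ← hpre, Real.exp_lt_exp]
    exact hw.2
  have hEe : DifferentiableOn ℂ (fun w => E (exp w)) D := by
    intro w hw
    have h3 : DifferentiableAt ℂ E (exp w) :=
      hE.differentiableAt (isOpen_ball.mem_nhds (hDm w hw).1)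
    exact (DifferentiableAt.comp (f := fun w => exp w) w h3
      (Complex.differentiable_exp w)).differentiableWithinAt
  have hGe : DifferentiableOn ℂ (fun w => G (exp w)) D := by
    intro w hw
    have h3 : DifferentiableAt ℂ G (exp w) :=
      hG.differentiableAt ((annulus_open R 1).mem_nhds (hDm w hw).2)
    exact (DifferentiableAt.comp (f := fun w => exp w) w h3
      (Complex.differentiable_exp w)).differentiableWithinAt
  -- a point of the disc
  obtain ⟨t, ht0, htη, htρ⟩ : ∃ t : ℝ, 0 < t ∧ t < η ∧ R * (Real.exp t - 1) < 2 * ρ := by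
    have h3 : Tendsto (fun t : ℝ => R * (Real.exp t - 1)) (𝓝[>] 0) (𝓝 0) := by
      have h4 : ContinuousAt (fun t : ℝ => R * (Real.exp t - 1)) 0 := by fun_prop
      have h5 := h4.tendsto
      simp only [Real.exp_zero, sub_self, mul_zero] at h5
      exact h5.mono_left nhdsWithin_le_nhds
    have h4 := h3.eventually_lt_const (by positivity : (0 : ℝ) < 2 * ρ)
    have h5 : ∀ᶠ t : ℝ in 𝓝[>] 0, t < η := nhdsWithin_le_nhds (isOpen_Iio.mem_nhds hη)
    obtain ⟨t, ht1, ht2, ht3⟩ := (h4.and (h5.and self_mem_nhdsWithin)).exists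
    exact ⟨t, ht3, ht2, ht1⟩
  obtain ⟨w0, hw0⟩ : ∃ w0 : ℂ, w0 = p + t := ⟨_, rfl⟩
  have hw0D : w0 ∈ D := by
    rw [hD, hw0]
    refine ⟨?_, ?_⟩
    · rw [mem_ball_iff_norm, add_sub_cancel_left, Complex.norm_real, Real.norm_of_nonneg ht0.le]
      exact htη
    · show p.re < (p + t).re
      rw [Complex.add_re, Complex.ofReal_re]
      linarith
  have hw0c : exp w0 ∈ ball c ρ := by
    have e1 : exp w0 - c = P * ((Real.exp t - 1 - ρ / R : ℝ) : ℂ) := by
      rw [hw0, Complex.exp_add, hp, hc]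
      push_cast
      ring
    rw [mem_ball_iff_norm, e1, norm_mul, hP, Complex.norm_real, Real.norm_eq_abs]
    have e2 : R * |Real.exp t - 1 - ρ / R| = |R * (Real.exp t - 1) - ρ| := by
      rw [← abs_of_pos hR, ← abs_mul, abs_of_pos hR]
      congr 1
      field_simp
    rw [e2, abs_lt]
    have h3 : 0 < R * (Real.exp t - 1) := by
      have : 1 < Real.exp t := Real.one_lt_exp_iff.2 ht0
      exact mul_pos hR (by linarith)
    constructor <;> linarith
  have hagree : EqOn (fun w => E (exp w)) (fun w => G (exp w)) D := by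
    refine eq_on hDo hDc.isPreconnected hEe hGe hw0D ?_
    have h3 : ∀ᶠ w in 𝓝 w0, exp w ∈ ball c ρ :=
      (Complex.continuous_exp.continuousAt).eventually (isOpen_ball.mem_nhds hw0c)
    filter_upwards [h3, hDo.mem_nhds hw0D] with w h4 h5
    exact hEG _ ⟨(hDm w h5).1, h4⟩
  -- a neighbourhood of `P`
  have himg : (fun w : ℂ => exp w) '' ball p η ∈ 𝓝 P := by
    rw [← hp]
    exact (Complex.isOpenMap_exp (ball p η) isOpen_ball).mem_nhds ⟨p, mem_ball_self hη, rfl⟩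
  obtain ⟨ε', hε', hε''⟩ := Metric.mem_nhds_iff.1 himg
  refine ⟨min ε ε', E, lt_min hε hε', hE.mono (ball_subset_ball (min_le_left _ _)), ?_⟩
  rintro v ⟨hv1, hv2⟩
  obtain ⟨w, hw, rfl⟩ := hε'' (ball_subset_ball (min_le_right _ _) hv1)
  refine hagree ?_
  rw [hD]
  refine ⟨hw, ?_⟩
  have h3 : R < ‖exp w‖ := hv2.1
  rw [Complex.norm_exp, ← hpre, Real.exp_lt_exp] at h3
  exact h3

/-- the Schwarz function has no holomorphic extension to the disc -/
theorem no_ext {φ : ℂ → ℂ} {r s : ℝ} (hr : 1 < r) (hφ : DifferentiableOn ℂ φ (ball 0 r))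
    (hinj : InjOn φ (ball 0 r)) (hs0 : 0 < s) (hs1 : s < 1) (hsr : r⁻¹ ≤ s)
    (hFd : DifferentiableOn ℂ (Rf φ) {u : ℂ | r⁻¹ < ‖u‖ ∧ ‖u‖ < r}) {E : ℂ → ℂ}
    (hE : DifferentiableOn ℂ E (ball 0 1))
    (hEF : ∀ u : ℂ, s < ‖u‖ → ‖u‖ < 1 → E u = Rf φ u) : False := by
  have hr0 : 0 < r := by linarith
  have hφd : DifferentiableOn ℂ (deriv φ) (ball 0 r) := hφ.deriv isOpen_ball
  obtain ⟨R, hR1, hR2⟩ : ∃ R : ℝ, s < R ∧ R < 1 := exists_between hs1
  have hR0 : 0 < R := hs0.trans hR1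
  have hri : r⁻¹ < 1 := inv_lt_one_of_one_lt₀ hr
  have h1 : ∮ w in C(0, 1), deriv φ w * Rf φ w = ∮ w in C(0, R), deriv φ w * Rf φ w := by
    refine Complex.circleIntegral_eq_of_differentiable_on_annulus_off_countable hR0 hR2.le
      countable_empty ?_ ?_
    · refine ContinuousOn.mul (hφd.continuousOn.mono ?_) (hFd.continuousOn.mono ?_)
      · intro w hw
        exact closedBall_subset_ball hr hw.1
      · intro w hw
        have h2 : ‖w‖ ≤ 1 := by simpa using hw.1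
        have h3 : R ≤ ‖w‖ := by simpa using hw.2
        exact ⟨by linarith, by linarith⟩
    · intro w hw
      have h2 : ‖w‖ < 1 := by simpa using hw.1.1
      have h3 : R < ‖w‖ := by simpa using hw.1.2
      refine DifferentiableAt.mul ?_ ?_
      · exact hφd.differentiableAt (isOpen_ball.mem_nhds (by
          rw [mem_ball_zero_iff]; linarith))
      · exact hFd.differentiableAt ((annulus_open _ _).mem_nhds ⟨by linarith, by linarith⟩)
  have h2 : ∮ w in C(0, R), deriv φ w * Rf φ w = ∮ w in C(0, R), deriv φ w * E w := by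
    refine circleIntegral.integral_congr hR0.le fun w hw => ?_
    have h3 : ‖w‖ = R := by simpa using hw
    rw [hEF w (by rw [h3]; exact hR1) (by rw [h3]; exact hR2)]
  have h3 : ∮ w in C(0, R), deriv φ w * E w = 0 := by
    refine Complex.circleIntegral_eq_zero_of_differentiable_on_off_countable hR0.le
      countable_empty ?_ ?_
    · exact (hφd.continuousOn.mono (closedBall_subset_ball (by linarith))).mul
        (hE.continuousOn.mono (closedBall_subset_ball hR2))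
    · intro w hw
      have h4 : ‖w‖ < R := by simpa using hw.1
      refine DifferentiableAt.mul ?_ ?_
      · exact hφd.differentiableAt (isOpen_ball.mem_nhds (by
          rw [mem_ball_zero_iff]; linarith))
      · exact hE.differentiableAt (isOpen_ball.mem_nhds (by
          rw [mem_ball_zero_iff]; linarith))
  have h4 : ∮ w in C(0, 1), deriv φ w * conj (φ w) = ∮ w in C(0, 1), deriv φ w * Rf φ w := by
    refine circleIntegral.integral_congr zero_le_one fun w hw => ?_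
    have h5 : ‖w‖ = 1 := by simpa using hw
    congr 1
    unfold Rf
    have h6 : 1 / conj w = w := by
      have hw0 : conj w ≠ 0 := by
        rw [← norm_pos_iff, RCLike.norm_conj, h5]
        exact one_pos
      rw [div_eq_iff hw0, Complex.mul_conj, Complex.normSq_eq_norm_sq, h5]
      norm_num
    rw [h6]
  have h5 := Pool.Agent.Y50.SC.disc r (deriv φ) φ hr hφd hφ
  rw [h4, h1, h2, h3] at h5
  have h6 : ∫ w in ball (0 : ℂ) 1, deriv φ w * conj (deriv φ w) = 0 := by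
    have : (2 : ℂ) * I ≠ 0 := mul_ne_zero two_ne_zero I_ne_zero
    exact (mul_eq_zero.1 h5).resolve_left this
  have h7 : ∫ w in ball (0 : ℂ) 1, deriv φ w * conj (deriv φ w) =
      ((∫ w in ball (0 : ℂ) 1, ‖deriv φ w‖ ^ 2 : ℝ) : ℂ) := by
    rw [← integral_complex_ofReal]
    refine integral_congr_ae (Eventually.of_forall fun w => ?_)
    simp only
    rw [Complex.mul_conj, Complex.normSq_eq_norm_sq]
  rw [h7] at h6
  have h8 : ∫ w in ball (0 : ℂ) 1, ‖deriv φ w‖ ^ 2 = 0 := by exact_mod_cast h6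
  have hcont : ContinuousOn (fun w => ‖deriv φ w‖ ^ 2) (closedBall (0 : ℂ) 1) :=
    ((hφd.continuousOn.mono (closedBall_subset_ball hr)).norm).pow 2
  have hint : IntegrableOn (fun w => ‖deriv φ w‖ ^ 2) (ball (0 : ℂ) 1) :=
    (hcont.integrableOn_compact (isCompact_closedBall 0 1)).mono_set ball_subset_closedBall
  have h9 := (setIntegral_pos_iff_support_of_nonneg_ae
    (Eventually.of_forall fun w => by positivity) hint).2 ?_
  · rw [h8] at h9
    exact lt_irrefl _ h9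
  · have hsup : ball (0 : ℂ) 1 ⊆ Function.support (fun w => ‖deriv φ w‖ ^ 2) ∩ ball 0 1 := by
      intro w hw
      refine ⟨?_, hw⟩
      rw [Function.mem_support]
      have := t_NZ φ r hφ hinj w (ball_subset_ball hr.le hw)
      have h10 : 0 < ‖deriv φ w‖ := norm_pos_iff.2 this
      positivity
    refine lt_of_lt_of_le ?_ (measure_mono hsup)
    exact measure_ball_pos _ _ one_pos

/-- domains with algebroid boundary -/
theorem final {φ : ℂ → ℂ} {r lam c : ℝ} {u : ℂ → ℝ} {G0 : ℂ → ℂ} (hr : 1 < r)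
    (hφ : DifferentiableOn ℂ φ (ball 0 r)) (hinj : InjOn φ (ball 0 r)) (hlam : 0 < lam)
    (hc : c ≠ 0) (hS : Sol (φ '' ball 0 1) lam c u G0) {A : ℕ → ℂ → ℂ} {d : ℕ}
    (hA : ∀ k ≤ d, DifferentiableOn ℂ (A k) (ball 0 1)) {s : ℝ} (hs1 : s < 1) (hsr : r⁻¹ ≤ s)
    (hrel : ∀ v : ℂ, s < ‖v‖ → ‖v‖ < 1 → rel A d v (Rf φ v) = 0)
    (h0 : ∃ v ∈ ball (0 : ℂ) 1, A d v ≠ 0)
    (hT : ∀ P ∈ ball (0 : ℂ) 1, A d P = 0 → Tan φ A d P) :
    ∃ (p : ℂ) (r0 : ℝ), 0 < r0 ∧ φ '' ball 0 1 = ball p r0 := by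
  by_contra hnd
  have hr0 : 0 < r := by linarith
  have hs0 : 0 < s := (inv_pos.2 hr0).trans_le hsr
  have ha : 0 < lam / 4 := by positivity
  have hφ1 : DifferentiableOn ℂ φ (ball 0 1) := hφ.mono (ball_subset_ball hr.le)
  have hinj1 : InjOn φ (ball 0 1) := hinj.mono (ball_subset_ball hr.le)
  -- the Schwarz function in the annulus
  have hFd : DifferentiableOn ℂ (Rf φ) {u : ℂ | r⁻¹ < ‖u‖} := by
    intro v hv
    have hv' : r⁻¹ < ‖v‖ := hv
    have hvp : 0 < ‖v‖ := (inv_pos.2 hr0).trans hv'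
    have hv0 : v ≠ 0 := norm_pos_iff.1 hvp
    apply DifferentiableAt.differentiableWithinAt
    have h2 : DifferentiableAt ℂ (conj ∘ φ ∘ conj) (v⁻¹) := by
      rw [differentiableAt_conj_conj_iff]
      refine hφ.differentiableAt (isOpen_ball.mem_nhds ?_)
      rw [mem_ball_zero_iff, RCLike.norm_conj, norm_inv]
      exact inv_lt_of_inv_lt₀ hr0 hv'
    have h3 : Rf φ = (conj ∘ φ ∘ conj) ∘ (fun v : ℂ => v⁻¹) := by
      funext v
      simp only [Rf, Function.comp_apply, map_inv₀, one_div]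
    rw [h3]
    exact h2.comp v (differentiableAt_inv hv0)
  have hAdm : ∀ v : ℂ, s < ‖v‖ → ‖v‖ < 1 → Adm φ (lam / 4) A d v (Rf φ) := by
    intro v hv1 hv2
    have hvp : 0 < ‖v‖ := hs0.trans hv1
    have hv0 : v ≠ 0 := norm_pos_iff.1 hvp
    have hnorm : ‖1 / conj v‖ = ‖v‖⁻¹ := by
      rw [norm_div, norm_one, RCLike.norm_conj, one_div]
    have hz1 : 1 < ‖1 / conj v‖ := by
      rw [hnorm]
      exact (one_lt_inv₀ hvp).2 hv2
    have hz2 : ‖1 / conj v‖ < r := by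
      rw [hnorm]
      exact inv_lt_of_inv_lt₀ hr0 (hsr.trans_lt hv1)
    obtain ⟨-, h1, h2⟩ := branch_inv Pool.Agent.Y987.UC.ustart Pool.Agent.Y845.UC.ustep
      Pool.Agent.Y641.UC.uconn Pool.Agent.Y500.UC.urel Pool.Agent.Y500.UC.urefl φ r lam c u G0 hr hφ
      hinj hlam hc hS (1 / conj v) φ (Branch.base _ hz1 hz2)
    have hinv : 1 / conj (1 / conj v) = v := by
      rw [map_div₀, map_one, Complex.conj_conj, one_div_one_div]
    rw [hinv] at h1 h2
    refine ⟨h1, h2, ?_⟩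
    filter_upwards [(annulus_open s 1).mem_nhds (show v ∈ {u : ℂ | s < ‖u‖ ∧ ‖u‖ < 1} from
      ⟨hv1, hv2⟩)] with w hw
    exact hrel w hw.1 hw.2
  obtain ⟨t0, ht0, ht1⟩ : ∃ t0 : ℝ, s < t0 ∧ t0 < 1 := exists_between hs1
  obtain ⟨p0, hp0⟩ : ∃ p0 : ℂ, p0 = (t0 : ℂ) := ⟨_, rfl⟩
  have hp0n : ‖p0‖ = t0 := by
    rw [hp0, Complex.norm_real, Real.norm_of_nonneg (hs0.trans ht0).le]
  -- the extension to the punctured disc
  have hext : ∃ G : ℂ → ℂ, DifferentiableOn ℂ G {u : ℂ | 0 < ‖u‖ ∧ ‖u‖ < 1} ∧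
      EqOn G (Rf φ) {u : ℂ | s < ‖u‖ ∧ ‖u‖ < 1} := by
    refine annulus_ext hs0 hs1 (hFd.mono fun v hv => hsr.trans_lt hv.1) ?_
    intro R hR0 hRs G hG hGF P hP
    have hR1 : R < 1 := hRs.trans_lt hs1
    obtain ⟨ρ, hρ⟩ : ∃ ρ : ℝ, ρ = (1 - R) / 4 := ⟨_, rfl⟩
    have hρ0 : 0 < ρ := by rw [hρ]; linarith
    obtain ⟨c', hc'⟩ : ∃ c' : ℂ, c' = P * ((1 + ρ / R : ℝ) : ℂ) := ⟨_, rfl⟩
    have hcn : ‖c'‖ = R + ρ := by
      rw [hc', norm_mul, hP, Complex.norm_real, Real.norm_of_nonneg (by positivity)]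
      field_simp
    have hPc : P ∈ sphere c' ρ := by
      rw [mem_sphere_iff_norm]
      have : P - c' = P * ((-(ρ / R) : ℝ) : ℂ) := by
        rw [hc']
        push_cast
        ring
      rw [this, norm_mul, hP, Complex.norm_real, Real.norm_eq_abs, abs_neg,
        abs_of_pos (by positivity)]
      field_simp
    have hcb : closedBall c' ρ ⊆ ball 0 1 := by
      intro v hv
      rw [mem_closedBall_iff_norm] at hv
      rw [mem_ball_zero_iff]
      have := norm_add_le (v - c') c'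
      rw [sub_add_cancel, hcn] at this
      linarith
    have hsub : ball c' ρ ⊆ {u : ℂ | R < ‖u‖ ∧ ‖u‖ < 1} := by
      intro v hv
      refine ⟨?_, mem_ball_zero_iff.1 (hcb (ball_subset_closedBall hv))⟩
      rw [mem_ball_iff_norm] at hv
      have := norm_sub_norm_le c' (c' - v)
      rw [sub_sub_cancel, norm_sub_rev c' v, hcn] at this
      linarith
    have hcm : c' ∈ ball c' ρ := mem_ball_self hρ0
    have hp0s : p0 ∈ {u : ℂ | s < ‖u‖ ∧ ‖u‖ < 1} := ⟨by rw [hp0n]; exact ht0, by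
      rw [hp0n]; exact ht1⟩
    have hgerm : Rf φ =ᶠ[𝓝 p0] G := by
      filter_upwards [(annulus_open s 1).mem_nhds hp0s] with v hv
      exact (hGF hv).symm
    have hAd : Adm φ (lam / 4) A d c' G := by
      refine ((hAdm p0 hp0s.1 hp0s.2).congr ha hφ1 hgerm).move ha hφ1 hA (annulus_open R 1)
        (annulus_pre hR0.le) (fun v hv => mem_ball_zero_iff.2 hv.2) hG
        ⟨hRs.trans_lt hp0s.1, hp0s.2⟩ (hsub hcm)
    refine locExt_annulus hR0 hR1 hρ0 hP hc' hG ?_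
    by_cases hAP : A d P = 0
    · have hP1 : P ∈ ball (0 : ℂ) 1 := hcb (sphere_subset_closedBall hPc)
      have hAn : AnalyticOnNhd ℂ (A d) (ball 0 1) := (hA d le_rfl).analyticOnNhd isOpen_ball
      have hiso : ∀ᶠ v in 𝓝[≠] P, A d v ≠ 0 := by
        rcases (hAn P hP1).eventually_eq_zero_or_eventually_ne_zero with h1 | h1
        · exfalso
          obtain ⟨v, hv, hv0⟩ := h0
          exact hv0 (hAn.eqOn_zero_of_preconnected_of_eventuallyEq_zero
            (convex_ball _ _).isPreconnected hP1 h1 hv)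
        · exact h1
      rw [eventually_nhdsWithin_iff] at hiso
      obtain ⟨ε1, hε1, hε1'⟩ := Metric.eventually_nhds_iff_ball.1
        (hiso.and (isOpen_ball.mem_nhds hP1))
      exact local_main ha hr hφ hinj hA hnd hρ0 hcb (hG.mono hsub) hcm hAd hPc hε1
        (fun v hv => (hε1' v hv).2) (fun v hv hne => (hε1' v hv).1 hne) (hT P hP1 hAP)
    · exact locExt_of_ne ha hφ1 hA hρ0 hcb (hG.mono hsub) hcm hAd hPc hAP
  obtain ⟨G, hG, hGF⟩ := hext
  have hp0s : p0 ∈ {u : ℂ | s < ‖u‖ ∧ ‖u‖ < 1} := ⟨by rw [hp0n]; exact ht0, by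
    rw [hp0n]; exact ht1⟩
  have hgerm : Rf φ =ᶠ[𝓝 p0] G := by
    filter_upwards [(annulus_open s 1).mem_nhds hp0s] with v hv
    exact (hGF hv).symm
  have hAd0 := (hAdm p0 hp0s.1 hp0s.2).congr ha hφ1 hgerm
  have hpunct : ball (0 : ℂ) 1 \ {0} ⊆ {u : ℂ | 0 < ‖u‖ ∧ ‖u‖ < 1} := by
    intro v hv
    exact ⟨norm_pos_iff.2 hv.2, mem_ball_zero_iff.1 hv.1⟩
  have hp00 : p0 ∈ ball (0 : ℂ) 1 \ {0} := by
    refine ⟨mem_ball_zero_iff.2 hp0s.2, ?_⟩
    intro h
    rw [mem_singleton_iff] at h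
    rw [h, norm_zero] at hp0n
    linarith
  rcases mainU Pool.Agent.Y508.UC.ures Pool.Agent.Y845.UC.ustep φ r (lam / 4) hr hφ hinj ha 0 1
    one_pos (le_refl _) G (hG.mono hpunct) p0 hp00 hAd0.vg hAd0.rig with hdisc | ⟨E, hE, hEG⟩
  · exact hnd hdisc
  · refine no_ext hr hφ hinj hs0 hs1 hsr (hFd.mono fun v hv => hv.1) hE ?_
    intro v hv1 hv2
    have hvp : 0 < ‖v‖ := hs0.trans hv1
    rw [hEG v (mem_ball_zero_iff.2 hv2) (norm_pos_iff.1 hvp)]
    exact hGF ⟨hv1, hv2⟩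

end Pool.Agent.T9h43.SA
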