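import Pool.Agent.T9h43.SA.Sad2

/-!
The saddle point argument, end of the proof.
-/

set_option autoImplicit false

open Complex MeasureTheory Metric Set Filter Topology ComplexConjugate
open Pool.Agent.Y245.SC Pool.Agent.Y245.UC

namespace Pool.Agent.T9h43.SA

/-- the real part of `T w` when `T / |T|` is near `1` and `w` is near the real number `m` -/
theorem re_near {T w : ℂ} {m δ : ℝ} (hT : T ≠ 0) (hu : ‖T / (‖T‖ : ℂ) - 1‖ ≤ 1 / 8)
    (hw : ‖w - m‖ ≤ δ) : |(T * w).re - ‖T‖ * m| ≤ ‖T‖ * ((1 / 8) * (|m| + δ) + δ) := by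
  have hTp : 0 < ‖T‖ := norm_pos_iff.2 hT
  have hTc : (‖T‖ : ℂ) ≠ 0 := by exact_mod_cast hTp.ne'
  obtain ⟨u, hud⟩ : ∃ u, u = T / (‖T‖ : ℂ) := ⟨_, rfl⟩
  rw [← hud] at hu
  have hTu : T = (‖T‖ : ℂ) * u := by
    rw [hud]
    field_simp
  have hm : ‖(m : ℂ)‖ = |m| := by rw [Complex.norm_real, Real.norm_eq_abs]
  have hwn : ‖w‖ ≤ |m| + δ := by
    have := norm_add_le (w - m) (m : ℂ)
    rw [sub_add_cancel, hm] at this
    linarith
  have e1 : (T * w).re - ‖T‖ * m = ((‖T‖ : ℂ) * ((u - 1) * w + (w - m))).re := by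
    have e2 : T * w = (‖T‖ : ℂ) * ((u - 1) * w + (w - m)) + ((‖T‖ * m : ℝ) : ℂ) := by
      push_cast
      linear_combination w * hTu
    rw [e2, Complex.add_re, Complex.ofReal_re]
    ring
  rw [e1]
  refine (Complex.abs_re_le_norm _).trans ?_
  rw [norm_mul, Complex.norm_real, Real.norm_of_nonneg hTp.le]
  refine mul_le_mul_of_nonneg_left ((norm_add_le _ _).trans ?_) hTp.le
  rw [norm_mul]
  exact add_le_add (mul_le_mul hu hwn (norm_nonneg _) (by norm_num)) hw

section

variable {x F : ℂ → ℂ} {γ : ℝ} {xP A T v v' : ℂ} {s : ℝ}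

/-- on the horizontal sides -/
theorem hor (hγ : 1 < γ) (hT : T ≠ 0) (hu : ‖T / (‖T‖ : ℂ) - 1‖ ≤ 1 / 8)
    (hx1 : ‖(x v' - xP) / deriv x v * exp (-(v' - v)) - 1‖ ≤ 1 / 8)
    (hF1 : ‖F v' / deriv F v * exp (γ * (v' - v)) + 1 / γ‖ ≤ 1 / 8)
    (hs : 0 ≤ s) (hvv : exp (v' - v) = -(Real.exp s : ℂ)) (hre : (v' - v).re = s) :
    (T / deriv x v * (x v' - xP)).re ≤ 0 ∧
    (T / deriv x v * (x v' - xP) + -T / deriv F v * F v').re ≤ ‖T‖ * (1 / γ) := by
  have hγ0 : 0 < γ := by linarith
  have hTp : 0 < ‖T‖ := norm_pos_iff.2 hT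
  obtain ⟨ρ, hρ⟩ : ∃ ρ, ρ = (x v' - xP) / deriv x v * exp (-(v' - v)) := ⟨_, rfl⟩
  rw [← hρ] at hx1
  have hes : 1 ≤ Real.exp s := Real.one_le_exp hs
  have e1 : T / deriv x v * (x v' - xP) = -((Real.exp s : ℝ) : ℂ) * (T * ρ) := by
    rw [← hvv, hρ]
    have h2 : exp (v' - v) * exp (-(v' - v)) = 1 := by
      rw [← Complex.exp_add, add_neg_cancel, Complex.exp_zero]
    have h3 : T / deriv x v * (x v' - xP) = T * ((x v' - xP) / deriv x v) := by ring
    rw [h3]
    linear_combination -(T * ((x v' - xP) / deriv x v)) * h2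
  have h1 := re_near (m := 1) hT hu (by simpa using hx1)
  have h2 : (1 : ℝ) / 2 * ‖T‖ ≤ (T * ρ).re := by
    have := (abs_le.1 h1).1
    have h3 : |(1 : ℝ)| = 1 := abs_one
    rw [h3] at this
    nlinarith
  have h3 : (T / deriv x v * (x v' - xP)).re ≤ -(1 / 2 * ‖T‖) := by
    rw [e1, ← Complex.ofReal_neg, Complex.re_ofReal_mul]
    nlinarith
  refine ⟨by nlinarith, ?_⟩
  rw [Complex.add_re]
  have h4 : (-T / deriv F v * F v').re ≤ ‖T‖ * (1 / γ + 1 / 8) := by
    refine (Complex.re_le_norm _).trans ?_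
    have h5 : -T / deriv F v * F v' = -T * (F v' / deriv F v) := by ring
    rw [h5, norm_mul, norm_neg]
    refine mul_le_mul_of_nonneg_left ?_ hTp.le
    obtain ⟨τ, hτ⟩ : ∃ τ, τ = F v' / deriv F v * exp (γ * (v' - v)) := ⟨_, rfl⟩
    rw [← hτ] at hF1
    have h6 : ‖τ‖ ≤ 1 / γ + 1 / 8 := by
      have h7 := norm_sub_le (τ + 1 / γ) (1 / (γ : ℂ))
      rw [add_sub_cancel_right] at h7
      have h8 : ‖(1 : ℂ) / γ‖ = 1 / γ := by
        rw [norm_div, norm_one, Complex.norm_real, Real.norm_of_nonneg hγ0.le]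
      rw [h8] at h7
      linarith
    have h9 : ‖τ‖ = ‖F v' / deriv F v‖ * Real.exp (γ * s) := by
      rw [hτ, norm_mul, Complex.norm_exp, Complex.re_ofReal_mul, hre]
    have h10 : 1 ≤ Real.exp (γ * s) := Real.one_le_exp (by positivity)
    have h11 : ‖F v' / deriv F v‖ ≤ ‖τ‖ := by
      rw [h9]
      exact le_mul_of_one_le_right (norm_nonneg _) h10
    exact h11.trans h6
  nlinarith

/-- at the saddle point -/
theorem peak (hγ : 1 < γ) (hT : T ≠ 0) (hu : ‖T / (‖T‖ : ℂ) - 1‖ ≤ 1 / 8)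
    (hx1 : ‖(x v - xP) / deriv x v - 1‖ ≤ 1 / 8) (hF1 : ‖F v / deriv F v + 1 / γ‖ ≤ 1 / 8) :
    ‖T‖ * (1 / γ + 15 / 32) ≤ (T / deriv x v * (x v - xP) + -T / deriv F v * F v).re := by
  have hγ0 : 0 < γ := by linarith
  have hTp : 0 < ‖T‖ := norm_pos_iff.2 hT
  have e1 : T / deriv x v * (x v - xP) + -T / deriv F v * F v =
      T * ((x v - xP) / deriv x v - F v / deriv F v) := by ring
  have h1 : ‖((x v - xP) / deriv x v - F v / deriv F v) - ((1 + 1 / γ : ℝ) : ℂ)‖ ≤ 1 / 4 := by
    have e2 : ((x v - xP) / deriv x v - F v / deriv F v) - ((1 + 1 / γ : ℝ) : ℂ) =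
        ((x v - xP) / deriv x v - 1) - (F v / deriv F v + 1 / γ) := by
      push_cast
      ring
    rw [e2]
    refine (norm_sub_le _ _).trans ?_
    linarith
  have h2 := re_near hT hu h1
  have h3 : 1 / γ < 1 := by
    rw [div_lt_one hγ0]
    exact hγ
  have h4 : 0 < 1 / γ := by positivity
  rw [e1]
  have h5 := (abs_le.1 h2).1
  rw [abs_of_pos (by linarith : (0 : ℝ) < 1 + 1 / γ)] at h5
  nlinarith

end

/-- comparison of exponentials -/
theorem growth {t : ℕ → ℝ} {c C γ M : ℝ} (hγ : 1 < γ) (hc : 0 < c)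
    (ht : ∀ᶠ k : ℕ in atTop, c * Real.exp ((γ - 1) / 2 * ((k : ℝ) + M)) ≤ t k)
    (h : ∀ᶠ k : ℕ in atTop, Real.exp (15 / 32 * t k) ≤ C * Real.exp (2 * k) * √(t k)) :
    False := by
  have hη : 0 < (γ - 1) / 2 := by linarith
  have htt : Tendsto t atTop atTop := by
    refine tendsto_atTop_mono' _ ht ?_
    refine Tendsto.const_mul_atTop hc ?_
    refine Real.tendsto_exp_atTop.comp ?_
    refine Tendsto.const_mul_atTop hη ?_
    exact tendsto_atTop_add_const_right _ _ tendsto_natCast_atTop_atTop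
  obtain ⟨p, hp⟩ : ∃ p : ℝ, p = 4 / (γ - 1) := ⟨_, rfl⟩
  have hp0 : 0 < p := by
    rw [hp]
    exact div_pos (by norm_num) (by linarith)
  obtain ⟨D, hD⟩ : ∃ D : ℝ, D = Real.exp (-((γ - 1) / 2 * M)) / c := ⟨_, rfl⟩
  have hD0 : 0 < D := by
    rw [hD]
    positivity
  have hlim := (tendsto_exp_mul_div_rpow_atTop (p + 1 / 2) (15 / 32) (by norm_num)).comp htt
  have h2 : ∀ᶠ k in atTop, |C| * D ^ p < Real.exp (15 / 32 * t k) / t k ^ (p + 1 / 2) :=
    hlim.eventually_gt_atTop _
  obtain ⟨k, hk1, hk2, hk3, hk4⟩ := (ht.and (h.and (h2.and (htt.eventually_gt_atTop 0)))).exists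
  rw [lt_div_iff₀ (Real.rpow_pos_of_pos hk4 _)] at hk3
  have h3 : Real.exp (2 * k) ≤ (D * t k) ^ p := by
    have h4 : Real.exp ((γ - 1) / 2 * k) ≤ D * t k := by
      have h5 : Real.exp ((γ - 1) / 2 * ((k : ℝ) + M)) =
          Real.exp ((γ - 1) / 2 * k) * Real.exp ((γ - 1) / 2 * M) := by
        rw [← Real.exp_add]
        congr 1
        ring
      rw [h5] at hk1
      have h6 : Real.exp (-((γ - 1) / 2 * M)) * Real.exp ((γ - 1) / 2 * M) = 1 := by
        rw [← Real.exp_add, neg_add_cancel, Real.exp_zero]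
      have h7 : D * t k = Real.exp (-((γ - 1) / 2 * M)) * t k / c := by
        rw [hD]
        ring
      rw [h7, le_div_iff₀ hc]
      calc Real.exp ((γ - 1) / 2 * k) * c
          = Real.exp (-((γ - 1) / 2 * M)) *
            (c * (Real.exp ((γ - 1) / 2 * k) * Real.exp ((γ - 1) / 2 * M))) := by
            linear_combination (-(Real.exp ((γ - 1) / 2 * k) * c)) * h6
        _ ≤ Real.exp (-((γ - 1) / 2 * M)) * t k :=
            mul_le_mul_of_nonneg_left hk1 (Real.exp_pos _).le
    calc Real.exp (2 * k) = Real.exp ((γ - 1) / 2 * k) ^ p := by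
          rw [← Real.exp_mul, hp]
          congr 1
          have : γ - 1 ≠ 0 := by linarith
          field_simp
          ring
      _ ≤ _ := Real.rpow_le_rpow (Real.exp_pos _).le h4 hp0.le
  rw [Real.mul_rpow hD0.le hk4.le] at h3
  have h7 : t k ^ (p + 1 / 2) = t k ^ p * √(t k) := by
    rw [Real.rpow_add hk4, Real.sqrt_eq_rpow]
  rw [h7] at hk3
  have h8 : C * Real.exp (2 * k) * √(t k) ≤ |C| * D ^ p * (t k ^ p * √(t k)) := by
    calc C * Real.exp (2 * k) * √(t k) ≤ |C| * (D ^ p * t k ^ p) * √(t k) := by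
          refine mul_le_mul_of_nonneg_right ?_ (Real.sqrt_nonneg _)
          exact mul_le_mul (le_abs_self C) h3 (Real.exp_pos _).le (abs_nonneg C)
      _ = _ := by ring
  linarith

theorem saddle {x F : ℂ → ℂ} {a L γ : ℝ} {xP lam A : ℂ} (ha : 0 < a) (hγ : 1 < γ)
    (hx : DifferentiableOn ℂ x (HP L)) (hF : DifferentiableOn ℂ F (HP L)) (hlam : lam ≠ 0)
    (hA : A ≠ 0) (hxa : Asy (fun v => x v - xP) 1 lam) (hFa : Asy F (-γ) A)
    (hb : ∀ v0 ∈ HP L, ∃ K : ℝ, ∀ α β : ℂ, α * β = -(a : ℂ) → 1 ≤ ‖α‖ →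
      ‖seg (fun v => exp (α * (x v - x v0) + β * F v) * deriv x v) v0
        (v0 + 2 * Real.pi * I)‖ ≤ K) :
    False := by
  have hγ0 : 0 < γ := by linarith
  have hγc : (γ : ℂ) ≠ 0 := by exact_mod_cast hγ0.ne'
  have hlp : 0 < ‖lam‖ := norm_pos_iff.2 hlam
  have hx1 : Asy (deriv x) 1 lam := by
    have h1 := asy_deriv (hx.sub_const xP) hxa
    have h2 : deriv (fun v => x v - xP) = deriv x := by
      funext v
      exact deriv_sub_const _
    rw [h2, ofReal_one, one_mul] at h1
    exact h1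
  have hF1 : Asy (deriv F) (-γ) (-γ * A) := by
    have h1 := asy_deriv hF hFa
    rw [ofReal_neg] at h1
    exact h1
  have hB : -(γ : ℂ) * A ≠ 0 := mul_ne_zero (neg_ne_zero.2 hγc) hA
  obtain ⟨R1, hR1⟩ := asy_quot hxa hx1 hlam (1 / 8) (by norm_num)
  obtain ⟨R2, hR2⟩ := asy_quot hFa hF1 hB (1 / 8) (by norm_num)
  obtain ⟨R3, hR3⟩ := hx1 (‖lam‖ / 2) (by positivity)
  obtain ⟨t0, ht0⟩ : ∃ t0, t0 = min (min L R1) (min R2 R3) - 1 := ⟨_, rfl⟩
  have htL : t0 < L := by
    have : min (min L R1) (min R2 R3) ≤ L := (min_le_left _ _).trans (min_le_left _ _)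
    linarith
  have htR1 : t0 < R1 := by
    have : min (min L R1) (min R2 R3) ≤ R1 := (min_le_left _ _).trans (min_le_right _ _)
    linarith
  have htR2 : t0 < R2 := by
    have : min (min L R1) (min R2 R3) ≤ R2 := (min_le_right _ _).trans (min_le_left _ _)
    linarith
  have htR3 : t0 < R3 := by
    have : min (min L R1) (min R2 R3) ≤ R3 := (min_le_right _ _).trans (min_le_right _ _)
    linarith
  obtain ⟨M, hM⟩ : ∃ M, M = -t0 := ⟨_, rfl⟩
  have hML : -M < L := by rw [hM]; linarith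
  obtain ⟨θs, T, c, hc, hT2, hTc, hTu⟩ := param ha hγ hlam hA hx1 hF1 M
  have hTt : Tendsto (fun k => ‖T k‖) atTop atTop := by
    refine tendsto_atTop_mono' _ hTc ?_
    refine Tendsto.const_mul_atTop hc ?_
    refine Real.tendsto_exp_atTop.comp ?_
    refine Tendsto.const_mul_atTop (by linarith) ?_
    exact tendsto_atTop_add_const_right _ _ tendsto_natCast_atTop_atTop
  obtain ⟨κ, hκ, hlap⟩ := lap_ver (M := M) (θs := θs) (T := T) hγ hx hF hlam hA hx1 hF1 hML hTt hTu
  obtain ⟨v0, hv0⟩ : ∃ v0, v0 = vk M θs 0 - Real.pi * I := ⟨_, rfl⟩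
  have hre0 : v0.re = t0 := by
    rw [hv0]
    simp [vk, hM]
  have hrek : ∀ k, (vk M θs k).re = t0 - k := fun k => by
    rw [vk_re, hM]
    ring
  have hv0L : v0 ∈ HP L := by
    show v0.re < L
    rw [hre0]
    exact htL
  obtain ⟨K, hK⟩ := hb v0 hv0L
  obtain ⟨B, hBd⟩ : ∃ B : ℝ, B = (3 / 2 * ‖lam‖) * Real.exp t0 := ⟨_, rfl⟩
  have hB0 : 0 < B := by rw [hBd]; positivity
  have hx1u : ∀ v : ℂ, v.re ≤ t0 → ‖deriv x v‖ ≤ B := by
    intro v hv
    have h1 := hR3 v (by linarith)
    have h2 : ‖deriv x v * exp (-(((1 : ℝ) : ℂ) * v))‖ ≤ 3 / 2 * ‖lam‖ := by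
      have := norm_add_le (deriv x v * exp (-(((1 : ℝ) : ℂ) * v)) - lam) lam
      rw [sub_add_cancel] at this
      linarith
    rw [norm_mul, Complex.norm_exp, Complex.neg_re, Complex.re_ofReal_mul, one_mul,
      Real.exp_neg, ← div_eq_mul_inv, div_le_iff₀ (Real.exp_pos _)] at h2
    refine h2.trans ?_
    rw [hBd]
    exact mul_le_mul_of_nonneg_left (Real.exp_le_exp.2 hv) (by positivity)
  have hx1l : ∀ v : ℂ, v.re ≤ t0 → ‖lam‖ / 2 * Real.exp v.re ≤ ‖deriv x v‖ := by
    intro v hv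
    have h1 := hR3 v (by linarith)
    have h2 : ‖lam‖ / 2 ≤ ‖deriv x v * exp (-(((1 : ℝ) : ℂ) * v))‖ := by
      have := norm_sub_norm_le lam (lam - deriv x v * exp (-(((1 : ℝ) : ℂ) * v)))
      rw [sub_sub_cancel, norm_sub_rev lam] at this
      linarith
    rw [norm_mul, Complex.norm_exp, Complex.neg_re, Complex.re_ofReal_mul, one_mul,
      Real.exp_neg, ← div_eq_mul_inv, le_div_iff₀ (Real.exp_pos _)] at h2
    exact h2
  have hkey : ∀ᶠ k : ℕ in atTop, Real.exp (15 / 32 * ‖T k‖) ≤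
      ((|K| + 2 * B) / (κ * (‖lam‖ / 2) * Real.exp t0)) * Real.exp (2 * k) * √‖T k‖ := by
    have hu : ∀ᶠ k in atTop, ‖T k / (‖T k‖ : ℂ) - 1‖ < 1 / 8 := by
      have h1 : Tendsto (fun k => ‖T k / (‖T k‖ : ℂ) - 1‖) atTop (𝓝 0) := by
        have := (hTu.sub_const 1).norm
        simpa using this
      exact h1.eventually_lt_const (by norm_num)
    have hα1 : ∀ᶠ k in atTop, B < ‖T k‖ := hTt.eventually_gt_atTop B
    filter_upwards [hlap, hu, hα1] with k hk hku hkα
    have hTp : 0 < ‖T k‖ := by linarith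
    have hT0 : T k ≠ 0 := norm_pos_iff.1 hTp
    obtain ⟨v, hv⟩ : ∃ v, v = vk M θs k := ⟨_, rfl⟩
    rw [← hv] at hk
    have hvre : v.re = t0 - k := by rw [hv]; exact hrek k
    have hk0 : (0 : ℝ) ≤ k := Nat.cast_nonneg k
    have hvt : v.re ≤ t0 := by rw [hvre]; linarith
    have hvL : v ∈ HP L := by
      show v.re < L
      linarith
    have hxv : deriv x v ≠ 0 := (hR1 v v (by linarith) (by linarith)).1
    have hFv : deriv F v ≠ 0 := (hR2 v v (by linarith) (by linarith)).1
    obtain ⟨α, hα⟩ : ∃ α, α = T k / deriv x v := ⟨_, rfl⟩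
    obtain ⟨β, hβ⟩ : ∃ β, β = -T k / deriv F v := ⟨_, rfl⟩
    have hαβ : α * β = -(a : ℂ) := by
      have h1 := hT2 k
      rw [← hv] at h1
      rw [hα, hβ]
      field_simp
      linear_combination -h1
    have hαn : 1 ≤ ‖α‖ := by
      rw [hα, norm_div, one_le_div (norm_pos_iff.2 hxv)]
      exact (hx1u v hvt).trans hkα.le
    -- the modified integrand
    obtain ⟨f, hf⟩ : ∃ f : ℂ → ℂ, f = fun w => exp (α * (x w - xP) + β * F w) * deriv x w :=
      ⟨_, rfl⟩
    have hfd : DifferentiableOn ℂ f (HP L) := by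
      rw [hf]
      exact ((((hx.sub_const xP).const_mul α).add (hF.const_mul β)).cexp).mul
        (hx.deriv (hp_open L))
    -- points on the horizontal sides
    have hside : ∀ (w : ℂ) (s : ℝ) (n : ℤ), 0 ≤ s → w.re ≤ t0 →
        w - v = (s : ℂ) + Real.pi * I + n * (2 * Real.pi * I) →
        (α * (x w - xP)).re ≤ 0 ∧ ‖f w‖ ≤ Real.exp (‖T k‖ * (1 / γ)) * B := by
      intro w s n hs hw hwv
      have hexp : exp (w - v) = -(Real.exp s : ℂ) := by
        rw [hwv, Complex.exp_add, Complex.exp_add, Complex.exp_int_mul_two_pi_mul_I,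
          Complex.exp_pi_mul_I, ← Complex.ofReal_exp]
        ring
      have hwre : (w - v).re = s := by
        rw [hwv]
        simp
      have h1 := (hR1 v w (by linarith) (by linarith)).2
      have h2 := (hR2 v w (by linarith) (by linarith)).2
      have h3 : ‖(x w - xP) / deriv x v * exp (-(w - v)) - 1‖ ≤ 1 / 8 := by
        rw [ofReal_one, one_mul, div_self hlam] at h1
        exact h1
      have h4 : ‖F w / deriv F v * exp (γ * (w - v)) + 1 / γ‖ ≤ 1 / 8 := by
        have e1 : -(((-γ : ℝ) : ℂ) * (w - v)) = γ * (w - v) := by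
          push_cast
          ring
        have e2 : A / (-(γ : ℂ) * A) = -(1 / γ) := by
          field_simp
        rw [e1, e2, sub_neg_eq_add] at h2
        exact h2
      have h5 := hor hγ hT0 hku.le h3 h4 hs hexp hwre
      rw [← hα, ← hβ] at h5
      refine ⟨h5.1, ?_⟩
      rw [hf]
      simp only
      rw [norm_mul, Complex.norm_exp]
      exact mul_le_mul (Real.exp_le_exp.2 h5.2) (hx1u w hw) (norm_nonneg _) (Real.exp_pos _).le
    have hv0v : v0 - v = ((k : ℝ) : ℂ) + Real.pi * I + (-1 : ℤ) * (2 * Real.pi * I) := by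
      rw [hv0, hv]
      unfold vk
      push_cast
      ring
    -- the total
    have htot : ‖seg f v0 (v0 + 2 * Real.pi * I)‖ ≤ |K| := by
      have h1 := hK α β hαβ hαn
      have e1 : seg f v0 (v0 + 2 * Real.pi * I) = exp (α * (x v0 - xP)) *
          seg (fun v => exp (α * (x v - x v0) + β * F v) * deriv x v) v0
            (v0 + 2 * Real.pi * I) := by
        unfold seg
        rw [← intervalIntegral.integral_const_mul]
        refine intervalIntegral.integral_congr fun t _ => ?_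
        rw [hf]
        simp only
        rw [← mul_assoc, ← mul_assoc, ← Complex.exp_add]
        congr 3
        ring
      rw [e1, norm_mul, Complex.norm_exp]
      have h2 := (hside v0 k (-1) hk0 (by rw [hre0]) hv0v).1
      have h3 : Real.exp (α * (x v0 - xP)).re ≤ 1 := Real.exp_le_one_iff.2 h2
      calc _ ≤ 1 * K := mul_le_mul h3 h1 (norm_nonneg _) zero_le_one
        _ ≤ |K| := by rw [one_mul]; exact le_abs_self K
    -- the horizontal sides
    have hkC : ((k : ℕ) : ℂ) = ((k : ℝ) : ℂ) := by push_cast; rfl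
    have hv0m : v0 = v + (k : ℝ) - Real.pi * I := by
      linear_combination hv0v
    have hh1 : ‖seg f v0 (v - Real.pi * I)‖ ≤ Real.exp (‖T k‖ * (1 / γ)) * B * k := by
      have h1 : ‖v - Real.pi * I - v0‖ = k := by
        have : v - Real.pi * I - v0 = -((k : ℝ) : ℂ) := by
          rw [hv0m]
          ring
        rw [this, norm_neg, Complex.norm_real, Real.norm_of_nonneg hk0]
      rw [← h1]
      refine seg_norm fun t ht => ?_
      refine (hside _ ((1 - t) * k) (-1) (mul_nonneg (by linarith [ht.2]) hk0) ?_ ?_).2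
      · have : v0 + t * (v - Real.pi * I - v0) = ((t0 - t * k : ℝ) : ℂ) + (v0 - (v0.re : ℂ)) := by
          rw [hre0, hv0m]
          push_cast
          ring
        rw [this, Complex.add_re, Complex.ofReal_re, Complex.sub_re, Complex.ofReal_re]
        have := mul_nonneg ht.1 hk0
        linarith
      · rw [hv0m]
        push_cast
        ring
    have hh2 : ‖seg f (v + Real.pi * I) (v0 + 2 * Real.pi * I)‖ ≤
        Real.exp (‖T k‖ * (1 / γ)) * B * k := by
      have h1 : ‖v0 + 2 * Real.pi * I - (v + Real.pi * I)‖ = k := by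
        have : v0 + 2 * Real.pi * I - (v + Real.pi * I) = ((k : ℝ) : ℂ) := by
          rw [hv0m]
          ring
        rw [this, Complex.norm_real, Real.norm_of_nonneg hk0]
      rw [← h1]
      refine seg_norm fun t ht => ?_
      have h3 : v + Real.pi * I + t * (v0 + 2 * Real.pi * I - (v + Real.pi * I)) =
          v + ((t * k : ℝ) : ℂ) + Real.pi * I := by
        rw [hv0m]
        push_cast
        ring
      rw [h3]
      refine (hside _ (t * k) 0 (mul_nonneg ht.1 hk0) ?_ ?_).2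
      · rw [Complex.add_re, Complex.add_re, Complex.ofReal_re, hvre]
        have h4 : ((Real.pi : ℂ) * I).re = 0 := by simp
        rw [h4]
        have := mul_le_mul_of_nonneg_right ht.2 hk0
        linarith
      · push_cast
        ring
    -- the vertical side
    have hv1 : v - Real.pi * I ∈ HP L := by
      show (v - Real.pi * I).re < L
      have : (v - Real.pi * I).re = v.re := by simp
      rw [this]
      exact hvL
    have hv2 : v + Real.pi * I ∈ HP L := by
      show (v + Real.pi * I).re < L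
      have : (v + Real.pi * I).re = v.re := by simp
      rw [this]
      exact hvL
    have hadd := (t_SEG (HP L) f (hp_open L) (hp_convex L) hfd).1
    have hs1 := hadd v0 hv0L _ hv1 _ hv2
    have hs2 := hadd v0 hv0L _ hv2 _ (hp_add1 hv0L)
    have hvert : seg f (v - Real.pi * I) (v + Real.pi * I) =
        seg f v0 (v0 + 2 * Real.pi * I) - seg f v0 (v - Real.pi * I) -
          seg f (v + Real.pi * I) (v0 + 2 * Real.pi * I) := by
      linear_combination hs1 + hs2
    have hvn : ‖seg f (v - Real.pi * I) (v + Real.pi * I)‖ ≤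
        |K| + Real.exp (‖T k‖ * (1 / γ)) * B * k + Real.exp (‖T k‖ * (1 / γ)) * B * k := by
      rw [hvert]
      refine (norm_sub_le _ _).trans (add_le_add ((norm_sub_le _ _).trans ?_) hh2)
      exact add_le_add htot hh1
    have hval : seg f (v - Real.pi * I) (v + Real.pi * I) =
        I * (exp (α * (x v - xP) + β * F v) * deriv x v *
          ∫ ψ in (-Real.pi)..Real.pi, exp (T k * hh x F v ψ) *
            (deriv x (v + ψ * I) / deriv x v)) := by
      rw [vert_seg]
      refine congrArg (fun z : ℂ => I * z) ?_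
      rw [← intervalIntegral.integral_const_mul]
      refine intervalIntegral.integral_congr fun (ψ : ℝ) _ => ?_
      rw [hf]
      simp only
      have h1 : α * (x (v + ψ * I) - xP) + β * F (v + ψ * I) =
          (α * (x v - xP) + β * F v) + T k * hh x F v ψ := by
        rw [hα, hβ]
        unfold hh
        ring
      rw [h1, Complex.exp_add]
      field_simp
    rw [hval, norm_mul, Complex.norm_I, one_mul, norm_mul, norm_mul, Complex.norm_exp] at hvn
    have hpk : ‖T k‖ * (1 / γ + 15 / 32) ≤ (α * (x v - xP) + β * F v).re := by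
      rw [hα, hβ]
      refine peak hγ hT0 hku.le ?_ ?_
      · have h1 := (hR1 v v (by linarith) (by linarith)).2
        rw [sub_self, mul_zero, neg_zero, Complex.exp_zero, mul_one, div_self hlam] at h1
        exact h1
      · have h1 := (hR2 v v (by linarith) (by linarith)).2
        have e2 : A / (-(γ : ℂ) * A) = -(1 / γ) := by
          field_simp
        rw [sub_self, mul_zero, neg_zero, Complex.exp_zero, mul_one, e2, sub_neg_eq_add] at h1
        exact h1
    have hsqp : 0 < √‖T k‖ := Real.sqrt_pos.2 hTp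
    have hlow : Real.exp (‖T k‖ * (1 / γ + 15 / 32)) * (‖lam‖ / 2 * Real.exp (t0 - k)) *
        (κ / √‖T k‖) ≤ |K| + Real.exp (‖T k‖ * (1 / γ)) * B * k +
          Real.exp (‖T k‖ * (1 / γ)) * B * k := by
      refine le_trans ?_ hvn
      refine mul_le_mul (mul_le_mul (Real.exp_le_exp.2 hpk) ?_ (by positivity)
        (Real.exp_pos _).le) hk (by positivity) (by positivity)
      have := hx1l v hvt
      rw [hvre] at this
      exact this
    -- simplification
    obtain ⟨E, hE⟩ : ∃ E : ℝ, E = Real.exp (‖T k‖ * (1 / γ)) := ⟨_, rfl⟩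
    have hE1 : 1 ≤ E := by
      rw [hE]
      exact Real.one_le_exp (by positivity)
    have e1 : Real.exp (‖T k‖ * (1 / γ + 15 / 32)) = E * Real.exp (15 / 32 * ‖T k‖) := by
      rw [hE, ← Real.exp_add]
      congr 1
      ring
    have e2 : Real.exp (t0 - k) = Real.exp t0 / Real.exp k := Real.exp_sub _ _
    rw [e1, e2, ← hE] at hlow
    have hek : 1 ≤ Real.exp k := Real.one_le_exp hk0
    have hek2 : (k : ℝ) ≤ Real.exp k := by
      have := Real.add_one_le_exp (k : ℝ)
      linarith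
    have hup : |K| + E * B * k + E * B * k ≤ E * ((|K| + 2 * B) * Real.exp k) := by
      have h1 : |K| ≤ E * (|K| * Real.exp k) := by
        have h2 : |K| ≤ |K| * Real.exp k := le_mul_of_one_le_right (abs_nonneg K) hek
        exact h2.trans (le_mul_of_one_le_left (by positivity) hE1)
      have h3 : E * B * k ≤ E * B * Real.exp k := mul_le_mul_of_nonneg_left hek2 (by positivity)
      calc |K| + E * B * k + E * B * k ≤
            E * (|K| * Real.exp k) + E * B * Real.exp k + E * B * Real.exp k := by linarith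
        _ = _ := by ring
    have hfin := hlow.trans hup
    have hEp : 0 < E := by linarith
    have e3 : E * Real.exp (15 / 32 * ‖T k‖) * (‖lam‖ / 2 * (Real.exp t0 / Real.exp k)) *
        (κ / √‖T k‖) = E * (Real.exp (15 / 32 * ‖T k‖) * (κ * (‖lam‖ / 2) * Real.exp t0) /
          (Real.exp k * √‖T k‖)) := by
      field_simp
    rw [e3] at hfin
    have h5 := le_of_mul_le_mul_left hfin hEp
    rw [div_le_iff₀ (by positivity)] at h5
    have e4 : (|K| + 2 * B) / (κ * (‖lam‖ / 2) * Real.exp t0) * Real.exp (2 * k) * √‖T k‖ =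
        ((|K| + 2 * B) * Real.exp k * (Real.exp k * √‖T k‖)) /
          (κ * (‖lam‖ / 2) * Real.exp t0) := by
      have : Real.exp (2 * k) = Real.exp k * Real.exp k := by
        rw [← Real.exp_add]
        congr 1
        ring
      rw [this]
      ring
    rw [e4, le_div_iff₀ (by positivity)]
    exact h5
  exact growth hγ hc hTc hkey

end Pool.Agent.T9h43.SA
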