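import Pool.Agent.T9h43.SA.Log
import Pool.Agent.T9h43.SA.Fam
import Pool.Agent.T9h43.SA.Sad3

/-!
Local analysis at a zero of the leading coefficient.
-/

set_option autoImplicit false

open Complex MeasureTheory Metric Set Filter Topology ComplexConjugate
open Pool.Agent.Y245.SC Pool.Agent.Y245.UC
open Pool.Agent.Y508.UC (ku)

namespace Pool.Agent.T9h43.SA

variable {φ : ℂ → ℂ} {a : ℝ} {A : ℕ → ℂ → ℂ} {d : ℕ}

/-- a logarithm in a disc with `P` on its boundary -/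
theorem branch_log {c P : ℂ} {ρ : ℝ} (hρ : 0 < ρ) (hPs : P ∈ sphere c ρ) :
    ∃ ℓ : ℂ → ℂ, DifferentiableOn ℂ ℓ (ball c ρ) ∧ ∀ u ∈ ball c ρ, ee P (ℓ u) = u := by
  have hPc : ‖c - P‖ = ρ := by
    rw [norm_sub_rev]
    exact mem_sphere_iff_norm.1 hPs
  have hcP : c - P ≠ 0 := by
    rw [← norm_pos_iff, hPc]
    exact hρ
  have hsl : ∀ u ∈ ball c ρ, (u - P) / (c - P) ∈ slitPlane := by
    intro u hu
    rw [mem_ball_iff_norm] at hu
    left
    have e : (u - P) / (c - P) = 1 + (u - c) / (c - P) := by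
      field_simp
      ring
    have h1 : ‖(u - c) / (c - P)‖ < 1 := by
      rw [norm_div, hPc, div_lt_one hρ]
      exact hu
    have h2 := (abs_le.1 (Complex.abs_re_le_norm ((u - c) / (c - P)))).1
    rw [e, Complex.add_re, Complex.one_re]
    linarith
  refine ⟨fun u => Complex.log ((u - P) / (c - P)) + Complex.log (c - P), ?_, ?_⟩
  · intro u hu
    have h1 : DifferentiableAt ℂ (fun u : ℂ => Complex.log ((u - P) / (c - P))) u :=
      DifferentiableAt.clog (by fun_prop) (hsl u hu)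
    exact (h1.add_const _).differentiableWithinAt
  · intro u hu
    have h1 : (u - P) / (c - P) ≠ 0 := slitPlane_ne_zero (hsl u hu)
    unfold ee
    rw [Complex.exp_add, Complex.exp_log h1, Complex.exp_log hcP, div_mul_cancel₀ _ hcP]
    ring

/-- the continuation to the half plane -/
theorem to_log (ha : 0 < a) (hφ : DifferentiableOn ℂ φ (ball 0 1))
    (hA : ∀ k ≤ d, DifferentiableOn ℂ (A k) (ball 0 1)) {c p P : ℂ} {ρ ε : ℝ} (hρ : 0 < ρ)
    (hcb : ball c ρ ⊆ ball 0 1) {X : ℂ → ℂ} (hX : DifferentiableOn ℂ X (ball c ρ))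
    (hp : p ∈ ball c ρ) (hAd : Adm φ a A d p X) (hPs : P ∈ sphere c ρ) (hε : 0 < ε)
    (hb : ball P ε ⊆ ball 0 1) (hne : ∀ u ∈ ball P ε, u ≠ P → A d u ≠ 0) {ℓ : ℂ → ℂ}
    (hℓ : DifferentiableOn ℂ ℓ (ball c ρ)) (hℓe : ∀ u ∈ ball c ρ, ee P (ℓ u) = u) :
    ∃ F : ℂ → ℂ, DifferentiableOn ℂ F (HP (Real.log (ε / 2))) ∧
      (∀ w ∈ HP (Real.log (ε / 2)), AdmL φ a A d P w F) ∧
      ∀ u ∈ ball c ρ ∩ ball P (ε / 2), ℓ u ∈ HP (Real.log (ε / 2)) ∧ F (ℓ u) = X u := by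
  have hmem : ∀ u ∈ ball c ρ ∩ ball P (ε / 2), ℓ u ∈ HP (Real.log (ε / 2)) := by
    rintro u ⟨hu1, hu2⟩
    have h1 := hℓe u hu1
    unfold ee at h1
    have h2 : exp (ℓ u) = u - P := by linear_combination h1
    show (ℓ u).re < Real.log (ε / 2)
    rw [Real.lt_log_iff_exp_lt (by positivity), ← Complex.norm_exp, h2]
    exact mem_ball_iff_norm.1 hu2
  obtain ⟨u1, hu1, hu2⟩ : ∃ u1 : ℂ, u1 ∈ ball c ρ ∧ u1 ∈ ball P (ε / 2) := by
    have h1 : P ∈ closure (ball c ρ) := by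
      rw [closure_ball _ hρ.ne']
      exact sphere_subset_closedBall hPs
    obtain ⟨q, hq⟩ := mem_closure_iff_nhds.1 h1 (ball P (ε / 2)) (ball_mem_nhds P (by positivity))
    exact ⟨q, hq.2, hq.1⟩
  have hAd1 : Adm φ a A d u1 X := hAd.move ha hφ hA isOpen_ball (convex_ball c ρ).isPreconnected
    hcb hX hp hu1
  have hstart : AdmL φ a A d P (ℓ u1) (fun w => X (ee P w)) := by
    refine ⟨X, ?_, ?_, Filter.EventuallyEq.rfl⟩
    · rw [hℓe u1 hu1]
      exact hAd1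
    · rw [hℓe u1 hu1]
      filter_upwards [isOpen_ball.mem_nhds hu1] with z hz
      exact hX.differentiableAt (isOpen_ball.mem_nhds hz)
  obtain ⟨F, hF, hF1, hFA⟩ := mono (R0 := 1 / 2) (by norm_num)
    (Ad := fun v F => AdmL φ a A d P v F) (fun v F G h hFG => h.congr hFG)
    (hp_open (Real.log (ε / 2))) (hp_convex _) (admL_ext ha hφ hA hε hb hne)
    (hmem u1 ⟨hu1, hu2⟩) hstart
  refine ⟨F, hF, hFA, fun u hu => ⟨hmem u hu, ?_⟩⟩
  have hopen : IsOpen (ball c ρ ∩ ball P (ε / 2)) := isOpen_ball.inter isOpen_ball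
  have hconv : IsPreconnected (ball c ρ ∩ ball P (ε / 2)) :=
    ((convex_ball _ _).inter (convex_ball _ _)).isPreconnected
  have hℓa : ∀ u ∈ ball c ρ, DifferentiableAt ℂ ℓ u := fun u hu =>
    hℓ.differentiableAt (isOpen_ball.mem_nhds hu)
  have hcomp : DifferentiableOn ℂ (fun u => F (ℓ u)) (ball c ρ ∩ ball P (ε / 2)) := by
    intro u hu
    have h1 : DifferentiableAt ℂ F (ℓ u) :=
      hF.differentiableAt ((hp_open _).mem_nhds (hmem u hu))
    exact (DifferentiableAt.comp (f := fun u => ℓ u) u h1 (hℓa u hu.1)).differentiableWithinAt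
  refine eq_on hopen hconv hcomp (hX.mono inter_subset_left) ⟨hu1, hu2⟩ ?_ hu
  have h2 : ∀ᶠ u in 𝓝 u1, F (ℓ u) = X (ee P (ℓ u)) :=
    (hℓa u1 hu1).continuousAt.tendsto.eventually hF1
  filter_upwards [h2, isOpen_ball.mem_nhds hu1] with u h3 h4
  rw [h3, hℓe u h4]

/-- moderate growth of roots -/
theorem mod_growth (hA : ∀ k ≤ d, DifferentiableOn ℂ (A k) (ball 0 1)) {P : ℂ} {L : ℝ}
    (hP : P ∈ ball (0 : ℂ) 1) (hnz : ∃ᶠ u in 𝓝 P, A d u ≠ 0) {F : ℂ → ℂ}
    (hrel : ∀ v ∈ HP L, rel A d (ee P v) (F v) = 0) :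
    ∃ (K : ℕ) (C L' : ℝ), ∀ v : ℂ, v.re < L' → ‖F v‖ * ‖exp v‖ ^ K ≤ C := by
  have hcont : ∀ k ≤ d, ContinuousAt (A k) P := fun k hk =>
    ((hA k hk).differentiableAt (isOpen_ball.mem_nhds hP)).continuousAt
  have han : AnalyticAt ℂ (A d) P :=
    (hA d le_rfl).analyticAt (isOpen_ball.mem_nhds hP)
  obtain ⟨K, g, hg, hg0, hgA⟩ := (han.exists_eventuallyEq_pow_smul_nonzero_iff).2 (by
    intro h
    exact hnz (h.mono fun u hu => not_not.2 hu))
  have h1 : ∀ᶠ u in 𝓝 P, ‖g P‖ / 2 < ‖g u‖ := by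
    refine hg.continuousAt.norm.eventually_const_lt ?_
    have : 0 < ‖g P‖ := norm_pos_iff.2 hg0
    linarith
  obtain ⟨B, hB⟩ : ∃ B : ℝ, B = ∑ k ∈ Finset.range d, (‖A k P‖ + 1) := ⟨_, rfl⟩
  have hB0 : 0 ≤ B := by
    rw [hB]
    exact Finset.sum_nonneg fun k _ => by positivity
  have h2 : ∀ᶠ u in 𝓝 P, ∀ k ∈ Finset.range d, ‖A k u‖ < ‖A k P‖ + 1 := by
    rw [Filter.eventually_all_finset]
    intro k hk
    exact (hcont k (Finset.mem_range.1 hk).le).norm.eventually_lt_const (by linarith)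
  obtain ⟨δ, hδ, h3⟩ := Metric.eventually_nhds_iff_ball.1 (h1.and (h2.and hgA))
  obtain ⟨κ, hκ⟩ : ∃ κ : ℝ, κ = ‖g P‖ / 2 := ⟨_, rfl⟩
  have hκ0 : 0 < κ := by
    rw [hκ]
    have : 0 < ‖g P‖ := norm_pos_iff.2 hg0
    positivity
  refine ⟨K, 1 + d * B / κ, min L (min 0 (Real.log δ)), fun v hv => ?_⟩
  have hvL : v ∈ HP L := hv.trans_le (min_le_left _ _)
  have hv0 : v.re < 0 := hv.trans_le ((min_le_right _ _).trans (min_le_left _ _))
  have hvδ : v.re < Real.log δ := hv.trans_le ((min_le_right _ _).trans (min_le_right _ _))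
  have hen : ‖exp v‖ ≤ 1 := by
    rw [Complex.norm_exp]
    exact Real.exp_le_one_iff.2 hv0.le
  have hep : 0 < ‖exp v‖ := norm_pos_iff.2 (Complex.exp_ne_zero v)
  have hball : ee P v ∈ ball P δ := by
    rw [mem_ball_iff_norm]
    unfold ee
    rw [add_sub_cancel_left, Complex.norm_exp, ← Real.lt_log_iff_exp_lt hδ]
    exact hvδ
  obtain ⟨h4, h5, h6⟩ := h3 _ hball
  have e1 : ee P v - P = exp v := by
    unfold ee
    ring
  rw [e1, smul_eq_mul] at h6
  have h7 : κ * ‖exp v‖ ^ K ≤ ‖A d (ee P v)‖ := by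
    rw [h6, norm_mul, norm_pow, mul_comm]
    refine mul_le_mul_of_nonneg_left ?_ (by positivity)
    rw [hκ]
    exact h4.le
  have h8 : ‖F v‖ ≤ 1 + d * B / (κ * ‖exp v‖ ^ K) := by
    refine root_bound (by positivity) hB0 h7 ?_ (hrel v hvL)
    intro k hk
    refine (h5 k (Finset.mem_range.2 hk)).le.trans ?_
    rw [hB]
    exact Finset.single_le_sum (f := fun k => ‖A k P‖ + 1) (fun i _ => by positivity)
      (Finset.mem_range.2 hk)
  have h9 : ‖exp v‖ ^ K ≤ 1 := pow_le_one₀ hep.le hen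
  calc ‖F v‖ * ‖exp v‖ ^ K ≤ (1 + d * B / (κ * ‖exp v‖ ^ K)) * ‖exp v‖ ^ K :=
        mul_le_mul_of_nonneg_right h8 (by positivity)
    _ = ‖exp v‖ ^ K + d * B / κ := by
        have : ‖exp v‖ ^ K ≠ 0 := by positivity
        field_simp
    _ ≤ 1 + d * B / κ := by linarith

/-- the asymptotics of `φ` in the logarithmic coordinate -/
theorem asy_phi (hφ : DifferentiableOn ℂ φ (ball 0 1)) {P : ℂ} (hP : P ∈ ball (0 : ℂ) 1) :
    Asy (fun v => φ (ee P v) - φ P) 1 (deriv φ P) := by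
  have hd : HasDerivAt φ (deriv φ P) P :=
    (hφ.differentiableAt (isOpen_ball.mem_nhds hP)).hasDerivAt
  rw [hasDerivAt_iff_tendsto_slope] at hd
  intro ε hε
  obtain ⟨δ, hδ, h1⟩ := Metric.tendsto_nhdsWithin_nhds.1 hd ε hε
  refine ⟨Real.log δ, fun v hv => ?_⟩
  have hep : exp v ≠ 0 := Complex.exp_ne_zero v
  have hne : ee P v ≠ P := by
    unfold ee
    intro h
    exact hep (by linear_combination h)
  have h2 := @h1 (ee P v) hne (by
    rw [dist_eq_norm]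
    unfold ee
    rw [add_sub_cancel_left, Complex.norm_exp, ← Real.lt_log_iff_exp_lt hδ]
    exact hv)
  rw [dist_eq_norm] at h2
  have e1 : (φ (ee P v) - φ P) * exp (-(((1 : ℝ) : ℂ) * v)) = slope φ P (ee P v) := by
    rw [slope_def_field]
    have e2 : ee P v - P = exp v := by
      unfold ee
      ring
    rw [e2, ofReal_one, one_mul, Complex.exp_neg, div_eq_mul_inv]
  show ‖(φ (ee P v) - φ P) * exp (-(((1 : ℝ) : ℂ) * v)) - deriv φ P‖ ≤ ε
  rw [e1]
  exact h2.le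

/-- the bound of the exponential integrals -/
theorem turn_bound (ha : 0 < a) (hφ : DifferentiableOn ℂ φ (ball 0 1)) {P : ℂ} {L : ℝ}
    (hB : ∀ v ∈ HP L, ee P v ∈ ball (0 : ℂ) 1) {F : ℂ → ℂ} (hF : DifferentiableOn ℂ F (HP L))
    (hAd : ∀ w ∈ HP L, AdmL φ a A d P w F) : ∀ v0 ∈ HP L, ∃ K : ℝ, ∀ α β : ℂ,
      α * β = -(a : ℂ) → 1 ≤ ‖α‖ →
      ‖seg (fun v => exp (α * (φ (ee P v) - φ (ee P v0)) + β * F v) *
        deriv (fun v => φ (ee P v)) v) v0 (v0 + 2 * Real.pi * I)‖ ≤ K := by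
  intro v0 hv0
  have hpath : ∀ t : ℝ, v0 + (t : ℂ) * (v0 + 2 * Real.pi * I - v0) ∈ HP L := by
    intro t
    show (v0 + (t : ℂ) * (v0 + 2 * Real.pi * I - v0)).re < L
    have : (v0 + (t : ℂ) * (v0 + 2 * Real.pi * I - v0)).re = v0.re := by simp
    rw [this]
    exact hv0
  have hpc : Continuous fun t : ℝ => v0 + (t : ℂ) * (v0 + 2 * Real.pi * I - v0) := by fun_prop
  have hxd : DifferentiableOn ℂ (fun v => φ (ee P v)) (HP L) := by
    intro v hv
    have h1 : DifferentiableAt ℂ φ (ee P v) :=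
      hφ.differentiableAt (isOpen_ball.mem_nhds (hB v hv))
    exact (DifferentiableAt.comp (f := fun s => ee P s) v h1 (ee_diff P v)).differentiableWithinAt
  have hcomp : ∀ y : ℂ → ℂ, DifferentiableOn ℂ y (HP L) →
      Continuous fun t : ℝ => y (v0 + (t : ℂ) * (v0 + 2 * Real.pi * I - v0)) := fun y hy =>
    hy.continuousOn.comp_continuous hpc hpath
  have hder : ∀ v ∈ HP L, deriv (fun v => φ (ee P v)) v = deriv φ (ee P v) * exp v := by
    intro v hv
    have h1 : HasDerivAt φ (deriv φ (ee P v)) (ee P v) :=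
      (hφ.differentiableAt (isOpen_ball.mem_nhds (hB v hv))).hasDerivAt
    exact (HasDerivAt.comp (h₂ := φ) (h := fun v => ee P v) v h1 (ee_deriv P v)).deriv
  obtain ⟨K, hK⟩ := fam ha
    (X := fun t : ℝ => F (v0 + (t : ℂ) * (v0 + 2 * Real.pi * I - v0)))
    (x := fun t : ℝ => φ (ee P (v0 + (t : ℂ) * (v0 + 2 * Real.pi * I - v0))) - φ (ee P v0))
    (W := fun t : ℝ => deriv (fun v => φ (ee P v)) (v0 + (t : ℂ) * (v0 + 2 * Real.pi * I - v0)) *
      (v0 + 2 * Real.pi * I - v0))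
    (hcomp F hF).continuousOn ((hcomp _ hxd).sub continuous_const).continuousOn
    ((hcomp _ (hxd.deriv (hp_open L))).mul continuous_const).continuousOn
    (C0 := F (v0 + 2 * Real.pi * I) - F v0) (by
      intro b
      obtain ⟨X, h1, h2, h3⟩ := hAd v0 hv0
      rw [turn ha hφ hB hF hv0 h2 h3 (h1.vg b) v0 hv0]
      unfold seg
      refine intervalIntegral.integral_congr fun t _ => ?_
      unfold hl ku
      rw [hder _ (hpath t)]
      ring)
  refine ⟨K, fun α β hαβ hα => ?_⟩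
  have := hK α β hαβ hα
  unfold seg
  simp only [← mul_assoc] at this
  exact this

end Pool.Agent.T9h43.SA
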