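import Pool.Agent.T9h43.SA.Loc

/-!
Local analysis at a zero of the leading coefficient: tangents, conclusion.
-/

set_option autoImplicit false

open Complex MeasureTheory Metric Set Filter Topology ComplexConjugate
open Pool.Agent.Y245.SC Pool.Agent.Y245.UC

namespace Pool.Agent.T9h43.SA

variable {φ : ℂ → ℂ} {a : ℝ} {A : ℕ → ℂ → ℂ} {d : ℕ}

/-- the tangent condition at `P` -/
def Tan (φ : ℂ → ℂ) (A : ℕ → ℂ → ℂ) (d : ℕ) (P : ℂ) : Prop :=
  ∃ (M : ℤ) (q : ℕ → ℂ),
    (∀ k ≤ d, Tendsto (fun u => (φ u - φ P) ^ (M - k) * A k u) (𝓝[≠] P) (𝓝 (q k))) ∧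
    ∀ y : ℂ, y ≠ 0 → ∑ k ∈ Finset.range (d + 1), q k * y ^ k = 0 →
      ∑ k ∈ Finset.range (d + 1), q k * (k * y ^ (k - 1)) ≠ 0

theorem asy_lim {y : ℂ → ℂ} {β : ℝ} {B : ℂ} (h : Asy y β B) :
    Tendsto (fun v => y v * exp (-(β * v))) (comap Complex.re atBot) (𝓝 B) := by
  rw [Metric.tendsto_nhds]
  intro ε hε
  obtain ⟨R, hR⟩ := h (ε / 2) (by positivity)
  filter_upwards [(eventually_lt_atBot R).comap Complex.re] with v hv
  rw [dist_eq_norm]
  have := hR v hv
  linarith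

theorem shift_lim : Tendsto (fun v : ℂ => v + 2 * Real.pi * I) (comap Complex.re atBot)
    (comap Complex.re atBot) := by
  rw [tendsto_comap_iff]
  have h1 : (Complex.re ∘ fun v : ℂ => v + 2 * Real.pi * I) = Complex.re := by
    funext v
    simp
  rw [h1]
  exact tendsto_comap

theorem ee_lim (P : ℂ) : Tendsto (ee P) (comap Complex.re atBot) (𝓝[≠] P) := by
  rw [tendsto_nhdsWithin_iff]
  constructor
  · have h1 : Tendsto (fun v => P + exp v) (comap Complex.re atBot) (𝓝 (P + 0)) :=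
      (Complex.tendsto_exp_comap_re_atBot).const_add P
    rw [add_zero] at h1
    exact h1
  · refine Eventually.of_forall fun v h => ?_
    have h2 : P + exp v = P := h
    exact Complex.exp_ne_zero v (by linear_combination h2)

theorem tangent_periodic (hφ : DifferentiableOn ℂ φ (ball 0 1)) {P : ℂ} {L : ℝ}
    (hP : P ∈ ball (0 : ℂ) 1) (hφP : deriv φ P ≠ 0) {F : ℂ → ℂ}
    (hF : DifferentiableOn ℂ F (HP L)) (hrel : ∀ v ∈ HP L, rel A d (ee P v) (F v) = 0)
    (hne : ∀ v ∈ HP L, φ (ee P v) ≠ φ P) {B : ℂ} (hasy : Asy F (-1) B) (hB : B ≠ 0)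
    (hT : Tan φ A d P) : ∀ v ∈ HP L, F (v + 2 * Real.pi * I) = F v := by
  obtain ⟨M, q, hq, hroot⟩ := hT
  have hnb : NeBot (comap Complex.re (atBot : Filter ℝ)) :=
    comap_neBot_iff_frequently.2 (Eventually.frequently (Eventually.of_forall fun x =>
      ⟨(x : ℂ), Complex.ofReal_re x⟩))
  have hHP : ∀ᶠ v in comap Complex.re atBot, v ∈ HP L :=
    (eventually_lt_atBot L).comap Complex.re
  obtain ⟨y, hy⟩ : ∃ y : ℂ → ℂ, y = fun v => (φ (ee P v) - φ P) * F v := ⟨_, rfl⟩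
  obtain ⟨y0, hy0⟩ : ∃ y0, y0 = deriv φ P * B := ⟨_, rfl⟩
  have hy00 : y0 ≠ 0 := by
    rw [hy0]
    exact mul_ne_zero hφP hB
  have hylim : Tendsto y (comap Complex.re atBot) (𝓝 y0) := by
    have h1 := (asy_lim (asy_phi hφ hP)).mul (asy_lim hasy)
    rw [← hy0] at h1
    refine h1.congr fun v => ?_
    rw [hy]
    have h2 : exp (-(((1 : ℝ) : ℂ) * v)) * exp (-(((-1 : ℝ) : ℂ) * v)) = 1 := by
      rw [← Complex.exp_add]
      have : -(((1 : ℝ) : ℂ) * v) + -(((-1 : ℝ) : ℂ) * v) = 0 := by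
        push_cast
        ring
      rw [this, Complex.exp_zero]
    linear_combination ((φ (ee P v) - φ P) * F v) * h2
  have hy1lim : Tendsto (fun v => y (v + 2 * Real.pi * I)) (comap Complex.re atBot) (𝓝 y0) :=
    hylim.comp shift_lim
  obtain ⟨c, hc⟩ : ∃ c : ℕ → ℂ → ℂ, c = fun (k : ℕ) (v : ℂ) =>
    (φ (ee P v) - φ P) ^ (M - (k : ℤ)) * A k (ee P v) := ⟨_, rfl⟩
  have hclim : ∀ k ≤ d, Tendsto (c k) (comap Complex.re atBot) (𝓝 (q k)) := by
    intro k hk
    rw [hc]
    exact (hq k hk).comp (ee_lim P)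
  have hQ : ∀ v ∈ HP L, ∀ x : ℂ, rel A d (ee P v) x = 0 →
      ∑ k ∈ Finset.range (d + 1), c k v * ((φ (ee P v) - φ P) * x) ^ k = 0 := by
    intro v hv x hx
    have hw : φ (ee P v) - φ P ≠ 0 := sub_ne_zero.2 (hne v hv)
    have h1 : ∑ k ∈ Finset.range (d + 1), c k v * ((φ (ee P v) - φ P) * x) ^ k =
        (φ (ee P v) - φ P) ^ M * rel A d (ee P v) x := by
      unfold rel
      rw [Finset.mul_sum]
      refine Finset.sum_congr rfl fun k _ => ?_
      rw [hc]
      simp only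
      have h2 : (φ (ee P v) - φ P) ^ M = (φ (ee P v) - φ P) ^ (M - k) *
          (φ (ee P v) - φ P) ^ k := by
        rw [← zpow_natCast, ← zpow_add₀ hw]
        congr 1
        ring
      rw [h2, mul_pow]
      ring
    rw [h1, hx, mul_zero]
  have hQ0 : ∑ k ∈ Finset.range (d + 1), q k * y0 ^ k = 0 := by
    have h1 : Tendsto (fun v => ∑ k ∈ Finset.range (d + 1), c k v * y v ^ k)
        (comap Complex.re atBot) (𝓝 (∑ k ∈ Finset.range (d + 1), q k * y0 ^ k)) := by
      refine tendsto_finsetSum _ fun k hk => ?_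
      exact (hclim k (by have := Finset.mem_range.1 hk; omega)).mul (hylim.pow k)
    have h2 : (fun v => ∑ k ∈ Finset.range (d + 1), c k v * y v ^ k) =ᶠ[comap Complex.re atBot]
        fun _ => 0 := by
      filter_upwards [hHP] with v hv
      rw [hy]
      exact hQ v hv _ (hrel v hv)
    exact tendsto_nhds_unique h1 ((tendsto_congr' h2).2 tendsto_const_nhds)
  obtain ⟨D, hD⟩ : ∃ D : ℂ → ℂ, D = fun v => ∑ k ∈ Finset.range (d + 1), c k v *
    ∑ i ∈ Finset.range k, y v ^ i * y (v + 2 * Real.pi * I) ^ (k - 1 - i) := ⟨_, rfl⟩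
  have hDlim : Tendsto D (comap Complex.re atBot)
      (𝓝 (∑ k ∈ Finset.range (d + 1), q k * (k * y0 ^ (k - 1)))) := by
    rw [hD]
    refine tendsto_finsetSum _ fun k hk => ?_
    refine (hclim k (by have := Finset.mem_range.1 hk; omega)).mul ?_
    have h1 : Tendsto (fun v => ∑ i ∈ Finset.range k,
        y v ^ i * y (v + 2 * Real.pi * I) ^ (k - 1 - i)) (comap Complex.re atBot)
        (𝓝 (∑ i ∈ Finset.range k, y0 ^ i * y0 ^ (k - 1 - i))) :=
      tendsto_finsetSum _ fun i _ => (hylim.pow i).mul (hy1lim.pow _)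
    have h2 : ∑ i ∈ Finset.range k, y0 ^ i * y0 ^ (k - 1 - i) = k * y0 ^ (k - 1) := by
      have h3 : ∀ i ∈ Finset.range k, y0 ^ i * y0 ^ (k - 1 - i) = y0 ^ (k - 1) := by
        intro i hi
        have := Finset.mem_range.1 hi
        rw [← pow_add]
        congr 1
        omega
      rw [Finset.sum_congr rfl h3, Finset.sum_const, Finset.card_range, nsmul_eq_mul]
    rw [h2] at h1
    exact h1
  have hDne : ∀ᶠ v in comap Complex.re atBot, D v ≠ 0 :=
    hDlim.eventually_ne (hroot y0 hy00 hQ0)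
  have hev : ∀ᶠ v in comap Complex.re atBot, F (v + 2 * Real.pi * I) = F v := by
    filter_upwards [hHP, hDne] with v hv hDv
    have hw : φ (ee P v) - φ P ≠ 0 := sub_ne_zero.2 (hne v hv)
    have hv' := hp_add1 hv
    have h1 := hQ v hv _ (hrel v hv)
    have h2 : rel A d (ee P v) (F (v + 2 * Real.pi * I)) = 0 := by
      have := hrel _ hv'
      rwa [ee_per] at this
    have h3 := hQ v hv _ h2
    have e1 : y v = (φ (ee P v) - φ P) * F v := by rw [hy]
    have e2 : y (v + 2 * Real.pi * I) = (φ (ee P v) - φ P) * F (v + 2 * Real.pi * I) := by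
      rw [hy]
      simp only
      rw [ee_per]
    rw [← e1] at h1
    rw [← e2] at h3
    have h4 : D v * (y v - y (v + 2 * Real.pi * I)) = 0 := by
      rw [hD]
      simp only
      rw [Finset.sum_mul]
      have h5 : ∀ k ∈ Finset.range (d + 1), (c k v * ∑ i ∈ Finset.range k,
          y v ^ i * y (v + 2 * Real.pi * I) ^ (k - 1 - i)) * (y v - y (v + 2 * Real.pi * I)) =
          c k v * y v ^ k - c k v * y (v + 2 * Real.pi * I) ^ k := by
        intro k _
        rw [mul_assoc, geom_sum₂_mul]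
        ring
      rw [Finset.sum_congr rfl h5, Finset.sum_sub_distrib, h1, h3, sub_zero]
    rcases mul_eq_zero.1 h4 with h5 | h5
    · exact absurd h5 hDv
    · have h6 : (φ (ee P v) - φ P) * (F v - F (v + 2 * Real.pi * I)) = 0 := by
        rw [← h5, e1, e2]
        ring
      rcases mul_eq_zero.1 h6 with h7 | h7
      · exact absurd h7 hw
      · exact (sub_eq_zero.1 h7).symm
  -- identity theorem
  rw [Filter.eventually_comap] at hev
  obtain ⟨R, hR⟩ := eventually_atBot.1 hev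
  obtain ⟨v2, hv2⟩ : ∃ v2 : ℂ, v2 = ((min L R - 1 : ℝ) : ℂ) := ⟨_, rfl⟩
  have hre2 : v2.re = min L R - 1 := by rw [hv2, Complex.ofReal_re]
  have hv2L : v2 ∈ HP L := by
    show v2.re < L
    rw [hre2]
    linarith [min_le_left L R]
  have hnear : (fun v => F (v + 2 * Real.pi * I)) =ᶠ[𝓝 v2] F := by
    have : v2 ∈ HP R := by
      show v2.re < R
      rw [hre2]
      linarith [min_le_right L R]
    filter_upwards [(hp_open R).mem_nhds this] with v hv
    exact hR v.re (le_of_lt hv) v rfl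
  have hFs : DifferentiableOn ℂ (fun v => F (v + 2 * Real.pi * I)) (HP L) := by
    intro v hv
    have h1 : DifferentiableAt ℂ F (v + 2 * Real.pi * I) :=
      hF.differentiableAt ((hp_open L).mem_nhds (hp_add1 hv))
    exact (DifferentiableAt.comp (f := fun v : ℂ => v + 2 * Real.pi * I) v h1
      (by fun_prop)).differentiableWithinAt
  exact fun v hv => eq_on (hp_open L) (hp_convex L).isPreconnected hFs hF hv2L hnear hv

/-- local extension at a zero of the leading coefficient -/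
theorem local_main {r : ℝ} (ha : 0 < a) (hr : 1 < r) (hφ : DifferentiableOn ℂ φ (ball 0 r))
    (hinj : InjOn φ (ball 0 r)) (hA : ∀ k ≤ d, DifferentiableOn ℂ (A k) (ball 0 1))
    (hnd : ¬ ∃ (p : ℂ) (r0 : ℝ), 0 < r0 ∧ φ '' ball 0 1 = ball p r0) {c p P : ℂ} {ρ ε : ℝ}
    (hρ : 0 < ρ) (hcb : closedBall c ρ ⊆ ball 0 1) {X : ℂ → ℂ}
    (hX : DifferentiableOn ℂ X (ball c ρ)) (hp : p ∈ ball c ρ) (hAd : Adm φ a A d p X)
    (hPs : P ∈ sphere c ρ) (hε : 0 < ε) (hb : ball P ε ⊆ ball 0 1)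
    (hne : ∀ u ∈ ball P ε, u ≠ P → A d u ≠ 0) (hT : Tan φ A d P) :
    LocExt (ball c ρ) X P := by
  have hφ1 : DifferentiableOn ℂ φ (ball 0 1) := hφ.mono (ball_subset_ball hr.le)
  have hinj1 : InjOn φ (ball 0 1) := hinj.mono (ball_subset_ball hr.le)
  have hP : P ∈ ball (0 : ℂ) 1 := hcb (sphere_subset_closedBall hPs)
  have hφP : deriv φ P ≠ 0 := t_NZ φ r hφ hinj P (ball_subset_ball hr.le hP)
  obtain ⟨ℓ, hℓ, hℓe⟩ := branch_log hρ hPs
  obtain ⟨F, hF, hFA, hFX⟩ := to_log ha hφ1 hA hρ (ball_subset_closedBall.trans hcb) hX hp hAd hPs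
    hε hb hne hℓ hℓe
  obtain ⟨L, hL⟩ : ∃ L, L = Real.log (ε / 2) := ⟨_, rfl⟩
  rw [← hL] at hF hFA hFX
  have hmem : ∀ v ∈ HP L, ee P v ∈ ball P (ε / 2) ∧ ee P v ≠ P := by
    intro v hv
    rw [hL] at hv
    have h1 := hp_norm hε hv
    constructor
    · rw [mem_ball_iff_norm]
      unfold ee
      rw [add_sub_cancel_left]
      exact h1
    · unfold ee
      intro h
      exact Complex.exp_ne_zero v (by linear_combination h)
  have hsub : ball P (ε / 2) ⊆ ball P ε := ball_subset_ball (by linarith)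
  have hB : ∀ v ∈ HP L, ee P v ∈ ball (0 : ℂ) 1 := fun v hv => hb (hsub (hmem v hv).1)
  have hrel : ∀ v ∈ HP L, rel A d (ee P v) (F v) = 0 := fun v hv => admL_rel (hFA v hv)
  have hneA : ∀ v ∈ HP L, A d (ee P v) ≠ 0 := fun v hv =>
    hne _ (hsub (hmem v hv).1) (hmem v hv).2
  have hneφ : ∀ v ∈ HP L, φ (ee P v) ≠ φ P := fun v hv h =>
    (hmem v hv).2 (hinj1 (hB v hv) hP h)
  obtain ⟨N, hN1, -, hper⟩ := periodic hF hneA hrel
  have hN0 : (0 : ℝ) < N := by exact_mod_cast hN1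
  obtain ⟨K, C, L', hgr⟩ := mod_growth hA hP (F := F) (L := L) (by
    refine Filter.Frequently.filter_mono (f := 𝓝[≠] P) ?_ nhdsWithin_le_nhds
    refine Eventually.frequently ?_
    have h1 : ∀ᶠ u in 𝓝[≠] P, u ∈ ball P ε := nhdsWithin_le_nhds (ball_mem_nhds P hε)
    filter_upwards [h1, self_mem_nhdsWithin] with u h2 h3
    exact hne u h2 h3) hrel
  obtain ⟨m, B, hmB, hasy⟩ := asym hN1 hF hper ⟨L', hgr⟩
  rcases lt_trichotomy ((m : ℝ) / N) 1 with hlt | heq | hgt
  · -- small growth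
    obtain ⟨γ, hγ⟩ : ∃ γ : ℝ, γ = (m : ℝ) / N := ⟨_, rfl⟩
    rw [← hγ] at hasy hlt
    have hγ0 : 0 ≤ γ := by rw [hγ]; positivity
    obtain ⟨R, hR⟩ := hasy 1 one_pos
    obtain ⟨B', hB'⟩ : ∃ B', B' = ‖B‖ + 1 := ⟨_, rfl⟩
    have hB'0 : 0 < B' := by rw [hB']; positivity
    have hFb : ∀ v : ℂ, v.re < R → ‖F v‖ ≤ B' * ‖exp v‖ ^ (-γ) := by
      intro v hv
      have h1 := hR v hv
      have h2 : ‖F v * exp (-(((-γ : ℝ) : ℂ) * v))‖ ≤ B' := by
        have := norm_add_le (F v * exp (-(((-γ : ℝ) : ℂ) * v)) - B) B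
        rw [sub_add_cancel] at this
        rw [hB']
        linarith
      have h3 : ‖exp (-(((-γ : ℝ) : ℂ) * v))‖ = ‖exp v‖ ^ γ := by
        rw [Complex.norm_exp, Complex.norm_exp, ← Real.exp_mul]
        congr 1
        rw [Complex.neg_re, Complex.re_ofReal_mul]
        ring
      rw [norm_mul, h3] at h2
      have h4 : 0 < ‖exp v‖ := norm_pos_iff.2 (Complex.exp_ne_zero v)
      rw [Real.rpow_neg h4.le, ← div_eq_mul_inv, le_div_iff₀ (Real.rpow_pos_of_pos h4 _)]
      exact h2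
    obtain ⟨η, hη⟩ : ∃ η : ℝ, η = 1 / (2 * (a * ‖deriv φ P‖ + 1)) := ⟨_, rfl⟩
    have hη0 : 0 < η := by rw [hη]; positivity
    have hsm : a * ‖deriv φ P‖ * η < 3 / 4 := by
      have h1 : a * ‖deriv φ P‖ * η ≤ 1 / 2 := by
        rw [hη, mul_one_div, div_le_iff₀ (by positivity)]
        linarith
      linarith
    have hlim : Tendsto (fun s : ℝ => B' * s ^ (1 - γ)) (𝓝[>] 0) (𝓝 0) := by
      have h1 : Tendsto (fun s : ℝ => s ^ (1 - γ)) (𝓝[>] 0) (𝓝 0) := by
        have h2 : ContinuousAt (fun s : ℝ => s ^ (1 - γ)) 0 :=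
          Real.continuousAt_rpow_const 0 (1 - γ) (Or.inr (by linarith))
        have h3 := h2.tendsto
        rw [Real.zero_rpow (by linarith)] at h3
        exact h3.mono_left nhdsWithin_le_nhds
      simpa using h1.const_mul B'
    obtain ⟨δ0, hδ0, hδ1⟩ : ∃ δ0 : ℝ, 0 < δ0 ∧ ∀ s : ℝ, 0 < s → s < δ0 →
        B' * s ^ (1 - γ) < η := by
      have h1 := hlim.eventually_lt_const hη0
      rw [eventually_nhdsWithin_iff] at h1
      obtain ⟨δ0, h2, h3⟩ := Metric.eventually_nhds_iff.1 h1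
      exact ⟨δ0, h2, fun s hs1 hs2 => h3 (by
        rw [dist_zero_right, Real.norm_eq_abs, abs_of_pos hs1]
        exact hs2) hs1⟩
    obtain ⟨δ, hδ⟩ : ∃ δ : ℝ, δ = min (min δ0 (ε / 2)) (Real.exp R) := ⟨_, rfl⟩
    have hδp : 0 < δ := by
      rw [hδ]
      exact lt_min (lt_min hδ0 (by positivity)) (Real.exp_pos R)
    refine locExt_of_growth ha hφ1 hρ hη0.le hδp hcb hX hsm ?_ hp (hAd.vg 0) hPs
    intro v hv hvP
    have hv1 : ‖v - P‖ < δ0 := hvP.trans_le (by
      rw [hδ]; exact (min_le_left _ _).trans (min_le_left _ _))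
    have hv2 : ‖v - P‖ < ε / 2 := hvP.trans_le (by
      rw [hδ]; exact (min_le_left _ _).trans (min_le_right _ _))
    have hv3 : ‖v - P‖ < Real.exp R := hvP.trans_le (by rw [hδ]; exact min_le_right _ _)
    obtain ⟨h1, h2⟩ := hFX v ⟨hv, mem_ball_iff_norm.2 hv2⟩
    have h3 : exp (ℓ v) = v - P := by
      have := hℓe v hv
      unfold ee at this
      linear_combination this
    have h4 : (ℓ v).re < R := by
      rw [← Real.exp_lt_exp, ← Complex.norm_exp, h3]
      exact hv3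
    have h5 := hFb (ℓ v) h4
    rw [h2, h3] at h5
    have hvP0 : 0 < ‖v - P‖ := by
      rw [← h3]
      exact norm_pos_iff.2 (Complex.exp_ne_zero _)
    have h6 : ρ - ‖v - c‖ ≤ ‖v - P‖ := by
      have h7 : ‖P - c‖ ≤ ‖P - v‖ + ‖v - c‖ := norm_sub_le_norm_sub_add_norm_sub _ _ _
      rw [mem_sphere_iff_norm.1 hPs, norm_sub_rev P v] at h7
      linarith
    calc (ρ - ‖v - c‖) * ‖X v‖ ≤ ‖v - P‖ * (B' * ‖v - P‖ ^ (-γ)) :=
          mul_le_mul h6 h5 (norm_nonneg _) hvP0.le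
      _ = B' * ‖v - P‖ ^ (1 - γ) := by
          rw [sub_eq_add_neg (1 : ℝ) γ, Real.rpow_add hvP0, Real.rpow_one]
          ring
      _ ≤ η := (hδ1 _ hvP0 hv1).le
  · -- critical growth
    have hm0 : m ≠ 0 := by
      intro h0
      rw [h0] at heq
      simp at heq
    have hB0 : B ≠ 0 := by
      rcases hmB with h | h
      · exact absurd h hm0
      · exact h
    rw [heq] at hasy
    have hper1 := tangent_periodic hφ1 hP hφP hF hrel hneφ hasy hB0 hT
    obtain ⟨f, hf, hFf⟩ := descend (N := 1) le_rfl hF (fun v hv => by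
      have := hper1 v hv
      simpa using this)
    have hexpL : Real.exp (L / (1 : ℕ)) = ε / 2 := by
      rw [Nat.cast_one, div_one, hL, Real.exp_log (by positivity)]
    rw [hexpL] at hf
    have hFf' : ∀ v ∈ HP L, F v = f (exp v) := by
      intro v hv
      have := hFf v hv
      rwa [Nat.cast_one, div_one] at this
    obtain ⟨Xt, hXt⟩ : ∃ Xt : ℂ → ℂ, Xt = fun u => f (u - P) := ⟨_, rfl⟩
    have hXtd : DifferentiableOn ℂ Xt (ball P (ε / 2) \ {P}) := by
      rw [hXt]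
      refine hf.comp (by fun_prop) ?_
      intro u hu
      refine ⟨?_, ?_⟩
      · rw [mem_ball_zero_iff]
        exact mem_ball_iff_norm.1 hu.1
      · intro h
        exact hu.2 (sub_eq_zero.1 h)
    have hXtF : ∀ v ∈ HP L, Xt (ee P v) = F v := by
      intro v hv
      rw [hXt, hFf' v hv]
      simp only
      unfold ee
      rw [add_sub_cancel_left]
    -- agreement with `X`
    have hagree : ∀ u ∈ ball c ρ ∩ ball P (ε / 2), Xt u = X u := by
      intro u hu
      obtain ⟨h1, h2⟩ := hFX u hu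
      rw [← h2, ← hXtF _ h1, hℓe u hu.1]
    obtain ⟨u1, hu1, hu2⟩ : ∃ u1 : ℂ, u1 ∈ ball c ρ ∧ u1 ∈ ball P (ε / 2) := by
      have h1 : P ∈ closure (ball c ρ) := by
        rw [closure_ball _ hρ.ne']
        exact sphere_subset_closedBall hPs
      obtain ⟨q, hq⟩ := mem_closure_iff_nhds.1 h1 (ball P (ε / 2))
        (ball_mem_nhds P (by positivity))
      exact ⟨q, hq.2, hq.1⟩
    have hu1P : u1 ≠ P := by
      intro h
      rw [h, mem_ball_iff_norm, mem_sphere_iff_norm.1 hPs] at hu1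
      exact lt_irrefl _ hu1
    have hAd1 : Adm φ a A d u1 X := hAd.move ha hφ1 hA isOpen_ball (convex_ball c ρ).isPreconnected
      (ball_subset_closedBall.trans hcb) hX hp hu1
    have hgerm : X =ᶠ[𝓝 u1] Xt := by
      filter_upwards [(isOpen_ball.inter isOpen_ball).mem_nhds ⟨hu1, hu2⟩] with u hu
      exact (hagree u hu).symm
    have hAd2 : Adm φ a A d u1 Xt := hAd1.congr ha hφ1 hgerm
    rcases mainU Pool.Agent.Y508.UC.ures Pool.Agent.Y845.UC.ustep φ r a hr hφ hinj ha P (ε / 2)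
      (by positivity) (hsub.trans hb) Xt hXtd u1 ⟨hu2, hu1P⟩ hAd2.vg hAd2.rig with hdisc | ⟨E, hE, hEX⟩
    · exact absurd hdisc hnd
    · refine ⟨ε / 2, E, by positivity, hE, ?_⟩
      rintro v ⟨hv1, hv2⟩
      have hvP : v ≠ P := by
        intro h
        rw [h, mem_ball_iff_norm, mem_sphere_iff_norm.1 hPs] at hv2
        exact lt_irrefl _ hv2
      rw [hEX v hv1 hvP]
      exact hagree v ⟨hv2, hv1⟩
  · -- large growth
    exfalso
    have hm0 : m ≠ 0 := by
      intro h0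
      rw [h0] at hgt
      norm_num at hgt
    have hB0 : B ≠ 0 := by
      rcases hmB with h | h
      · exact absurd h hm0
      · exact h
    have hxd : DifferentiableOn ℂ (fun v => φ (ee P v)) (HP L) := by
      intro v hv
      have h1 : DifferentiableAt ℂ φ (ee P v) :=
        hφ1.differentiableAt (isOpen_ball.mem_nhds (hB v hv))
      exact (DifferentiableAt.comp (f := fun s => ee P s) v h1 (ee_diff P v)).differentiableWithinAt
    exact saddle ha hgt hxd hF hφP hB0 (asy_phi hφ1 hP) hasy (turn_bound ha hφ1 hB hF hFA)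

end Pool.Agent.T9h43.SA
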