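import Pool.Agent.T9h43.SA.Collar

/-!
Monodromy: germs that can be continued in discs of a fixed radius extend to convex open sets.
-/

set_option autoImplicit false

open Complex Metric Set Filter Topology

namespace Pool.Agent.T9h43.SA

section

variable {R0 : ℝ} (hR : 0 < R0) {Ad : ℂ → (ℂ → ℂ) → Prop}
  (hcongr : ∀ v F G, Ad v F → F =ᶠ[𝓝 v] G → Ad v G)

include hR hcongr

/-- admissibility spreads along convex open sets -/
theorem Ad_spread {W V : Set ℂ} (hVW : V ⊆ W) (hV : IsOpen V) (hc : Convex ℝ V)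
    (hext : ∀ v ∈ W, ∀ F, Ad v F → ∃ E : ℂ → ℂ, DifferentiableOn ℂ E (ball v R0) ∧
      E =ᶠ[𝓝 v] F ∧ ∀ w ∈ ball v R0, Ad w E)
    {G : ℂ → ℂ} (hG : DifferentiableOn ℂ G V) {v1 : ℂ} (hv1 : v1 ∈ V) (h1 : Ad v1 G) :
    ∀ w ∈ V, Ad w G := by
  have hloc : ∀ v ∈ V, Ad v G → ∀ w ∈ V, ‖w - v‖ < R0 → Ad w G := by
    intro v hv hAd w hw hwv
    obtain ⟨E, hE, hEG, hEA⟩ := hext v (hVW hv) G hAd
    have hW2 : IsOpen (ball v R0 ∩ V) := isOpen_ball.inter hV
    have hEq : EqOn E G (ball v R0 ∩ V) :=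
      eq_on hW2 ((convex_ball v R0).inter hc).isPreconnected (hE.mono inter_subset_left)
        (hG.mono inter_subset_right) ⟨mem_ball_self hR, hv⟩ hEG
    refine hcongr w E G (hEA w (mem_ball_iff_norm.2 hwv)) ?_
    filter_upwards [hW2.mem_nhds ⟨mem_ball_iff_norm.2 hwv, hw⟩] with x hx
    exact hEq hx
  intro w hw
  obtain ⟨n, hn⟩ := exists_nat_gt (‖w - v1‖ / R0)
  have hn0 : (0 : ℝ) < n := lt_of_le_of_lt (by positivity) hn
  have hpt : ∀ s : ℝ, 0 ≤ s → s ≤ 1 → v1 + (s : ℂ) * (w - v1) ∈ V := by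
    intro s hs0 hs1
    have := hc.add_smul_sub_mem hv1 hw ⟨hs0, hs1⟩
    simpa [Complex.real_smul] using this
  have hk : ∀ k : ℕ, k ≤ n → Ad (v1 + ((k / n : ℝ) : ℂ) * (w - v1)) G := by
    intro k
    induction k with
    | zero =>
      intro _
      simpa using h1
    | succ k ih =>
      intro hkn
      have hk1 : ((k + 1 : ℕ) : ℝ) ≤ n := by exact_mod_cast hkn
      have hk0 : (k : ℝ) ≤ n := by
        push_cast at hk1
        linarith
      refine hloc _ (hpt _ (by positivity) ((div_le_one hn0).2 hk0)) (ih (by omega)) _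
        (hpt _ (by positivity) ((div_le_one hn0).2 hk1)) ?_
      have e : v1 + ((((k + 1 : ℕ) : ℝ) / n : ℝ) : ℂ) * (w - v1) -
          (v1 + ((k / n : ℝ) : ℂ) * (w - v1)) = ((1 / n : ℝ) : ℂ) * (w - v1) := by
        push_cast
        ring
      rw [e, norm_mul, Complex.norm_real, Real.norm_of_nonneg (by positivity)]
      rw [div_lt_iff₀ hR] at hn
      rw [one_div_mul_eq_div, div_lt_iff₀ hn0]
      linarith
  have h2 := hk n le_rfl
  rw [div_self hn0.ne'] at h2
  simpa using h2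

theorem mono_bdd {W : Set ℂ} (hW : IsOpen W) (hc : Convex ℝ W) (hb : Bornology.IsBounded W)
    (hext : ∀ v ∈ W, ∀ F, Ad v F → ∃ E : ℂ → ℂ, DifferentiableOn ℂ E (ball v R0) ∧
      E =ᶠ[𝓝 v] F ∧ ∀ w ∈ ball v R0, Ad w E)
    {v1 : ℂ} (hv1 : v1 ∈ W) {F : ℂ → ℂ} (hF : Ad v1 F) :
    ∃ G : ℂ → ℂ, DifferentiableOn ℂ G W ∧ G =ᶠ[𝓝 v1] F ∧ ∀ w ∈ W, Ad w G := by
  classical
  obtain ⟨D, hD0, hD⟩ : ∃ D : ℝ, 0 < D ∧ ∀ w ∈ W, ‖w - v1‖ ≤ D := by
    obtain ⟨D, hD⟩ := hb.subset_closedBall v1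
    refine ⟨max D 1, by positivity, fun w hw => ?_⟩
    exact (mem_closedBall_iff_norm.1 (hD hw)).trans (le_max_left _ _)
  -- the dilated sets
  obtain ⟨V, hVdef⟩ : ∃ V : ℝ → Set ℂ,
      V = fun t : ℝ => {v : ℂ | ∃ w ∈ W, v = v1 + ((t : ℝ) : ℂ) * (w - v1)} :=
    ⟨_, rfl⟩
  have hmemV : ∀ t : ℝ, 0 < t → ∀ v, (v ∈ V t ↔ v1 + ((1 / t : ℝ) : ℂ) * (v - v1) ∈ W) := by
    intro t ht v
    have ht' : (t : ℂ) ≠ 0 := by exact_mod_cast ht.ne'
    rw [hVdef]
    constructor
    · rintro ⟨w, hw, rfl⟩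
      have : v1 + ((1 / t : ℝ) : ℂ) * (v1 + (t : ℂ) * (w - v1) - v1) = w := by
        push_cast
        field_simp
        ring
      rw [this]
      exact hw
    · intro h
      refine ⟨_, h, ?_⟩
      push_cast
      field_simp
      ring
  have hVo : ∀ t : ℝ, 0 < t → IsOpen (V t) := by
    intro t ht
    have : V t = (fun v => v1 + ((1 / t : ℝ) : ℂ) * (v - v1)) ⁻¹' W := by
      ext v
      exact hmemV t ht v
    rw [this]
    exact hW.preimage (by fun_prop)
  have hVc : ∀ t : ℝ, 0 < t → Convex ℝ (V t) := by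
    intro t ht x hx y hy α β hα hβ hαβ
    rw [hmemV t ht] at hx hy ⊢
    have := hc hx hy hα hβ hαβ
    simp only [Complex.real_smul] at this ⊢
    convert this using 1
    have h1 : (β : ℂ) = 1 - α := by
      have : β = 1 - α := by linarith
      rw [this]
      push_cast
      ring
    rw [h1]
    ring
  have hVm : ∀ s t : ℝ, 0 < s → s ≤ t → V s ⊆ V t := by
    intro s t hs hst v hv
    have ht : 0 < t := hs.trans_le hst
    rw [hmemV s hs] at hv
    rw [hmemV t ht]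
    have h1 := hc.add_smul_sub_mem hv1 hv (t := s / t) ⟨by positivity, (div_le_one ht).2 hst⟩
    simp only [Complex.real_smul, add_sub_cancel_left] at h1
    convert h1 using 2
    push_cast
    have hs' : (s : ℂ) ≠ 0 := by exact_mod_cast hs.ne'
    field_simp
  have hV1 : V 1 = W := by
    ext v
    rw [hmemV 1 one_pos]
    simp
  have hv1V : ∀ t : ℝ, 0 < t → v1 ∈ V t := by
    intro t ht
    rw [hmemV t ht]
    simpa using hv1
  have hVW : ∀ t : ℝ, 0 < t → t ≤ 1 → V t ⊆ W := fun t h0 h1 => by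
    rw [← hV1]
    exact hVm t 1 h0 h1
  have hVD : ∀ t : ℝ, 0 < t → ∀ v ∈ V t, ‖v - v1‖ ≤ t * D := by
    intro t ht v hv
    rw [hVdef] at hv
    obtain ⟨w, hw, rfl⟩ := hv
    rw [add_sub_cancel_left, norm_mul, Complex.norm_real, Real.norm_of_nonneg ht.le]
    exact mul_le_mul_of_nonneg_left (hD w hw) ht.le
  obtain ⟨t0, ht0⟩ : ∃ t0, t0 = min 1 (R0 / (2 * D)) := ⟨_, rfl⟩
  have ht00 : 0 < t0 := by
    rw [ht0]
    exact lt_min one_pos (by positivity)
  have ht01 : t0 ≤ 1 := by rw [ht0]; exact min_le_left _ _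
  obtain ⟨E0, hE0, hEF0, hEA0⟩ := hext v1 hv1 F hF
  have hV0 : V t0 ⊆ ball v1 R0 := by
    intro v hv
    rw [mem_ball_iff_norm]
    refine (hVD t0 ht00 v hv).trans_lt ?_
    have : t0 ≤ R0 / (2 * D) := by rw [ht0]; exact min_le_right _ _
    calc t0 * D ≤ R0 / (2 * D) * D := mul_le_mul_of_nonneg_right this hD0.le
      _ = R0 / 2 := by field_simp
      _ < R0 := by linarith
  have hAd0 : Ad v1 E0 := hEA0 v1 (mem_ball_self hR)
  have hspread : ∀ t : ℝ, t0 ≤ t → t ≤ 1 → ∀ G : ℂ → ℂ, DifferentiableOn ℂ G (V t) →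
      EqOn G E0 (V t0) → ∀ w ∈ V t, Ad w G := by
    intro t ht ht1 G hG hGE
    have htp : 0 < t := ht00.trans_le ht
    refine Ad_spread hR hcongr (hVW t htp ht1) (hVo t htp) (hVc t htp) hext hG (hv1V t htp) ?_
    refine hcongr v1 E0 G hAd0 ?_
    filter_upwards [(hVo t0 ht00).mem_nhds (hv1V t0 ht00)] with x hx
    exact (hGE hx).symm
  obtain ⟨G, hG, hGE⟩ := nest (V := V) ht01 (fun t ht => hVo t (ht00.trans_le ht.1))
    (fun t ht => (hVc t (ht00.trans_le ht.1)).isPreconnected)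
    (fun s hs t _ hst => hVm s t (ht00.trans_le hs.1) hst) ⟨v1, hv1V t0 ht00⟩
    (by
      intro t ht u hu
      have htp : 0 < t := ht00.trans ht.1
      rw [hmemV t htp] at hu
      have hcont : ContinuousAt (fun s : ℝ => v1 + ((1 / s : ℝ) : ℂ) * (u - v1)) t := by
        have : ContinuousAt (fun s : ℝ => 1 / s) t :=
          ContinuousAt.div continuousAt_const continuousAt_id htp.ne'
        exact continuousAt_const.add ((Complex.continuous_ofReal.continuousAt.comp this).mul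
          continuousAt_const)
      have h1 : ∀ᶠ s in 𝓝 t, v1 + ((1 / s : ℝ) : ℂ) * (u - v1) ∈ W :=
        hcont.eventually (hW.mem_nhds hu)
      have h2 : ∀ᶠ s in 𝓝[<] t, v1 + ((1 / s : ℝ) : ℂ) * (u - v1) ∈ W :=
        nhdsWithin_le_nhds h1
      have h3 : ∀ᶠ s in 𝓝[<] t, t0 < s := nhdsWithin_le_nhds (isOpen_Ioi.mem_nhds ht.1)
      obtain ⟨s, hs1, hs2, hs3⟩ := (h2.and (h3.and self_mem_nhdsWithin)).exists
      refine ⟨s, ⟨hs2.le, hs3⟩, ?_⟩
      rw [hmemV s (ht00.trans hs2)]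
      exact hs1)
    (F := E0) (hE0.mono hV0) (by
      intro t ht G hG hGE
      have htp : 0 < t := ht00.trans_le ht.1
      have hGA := hspread t ht.1 ht.2.le G hG hGE
      have hc1 : ∀ q ∈ V t, ∃ E : ℂ → ℂ, DifferentiableOn ℂ E (ball q R0) ∧
          ∀ w ∈ ball q R0 ∩ V t, E w = G w := by
        intro q hq
        obtain ⟨E, hE, hEG, -⟩ := hext q (hVW t htp ht.2.le hq) G (hGA q hq)
        refine ⟨E, hE, fun w hw => ?_⟩
        exact eq_on (isOpen_ball.inter (hVo t htp))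
          ((convex_ball q R0).inter (hVc t htp)).isPreconnected (hE.mono inter_subset_left)
          (hG.mono inter_subset_right) ⟨mem_ball_self hR, hq⟩ hEG hw
      choose! E hE hEG using hc1
      obtain ⟨t', ht'⟩ : ∃ t', t' = min 1 (t + R0 / (3 * D)) := ⟨_, rfl⟩
      have htt' : t < t' := by
        rw [ht']
        refine lt_min ht.2 ?_
        have : 0 < R0 / (3 * D) := by positivity
        linarith
      have ht'1 : t' ≤ 1 := by rw [ht']; exact min_le_left _ _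
      have ht'2 : (t' - t) * D ≤ R0 / 3 := by
        have h1 : t' ≤ t + R0 / (3 * D) := by rw [ht']; exact min_le_right _ _
        calc (t' - t) * D ≤ R0 / (3 * D) * D := mul_le_mul_of_nonneg_right (by linarith) hD0.le
          _ = R0 / 3 := by field_simp
      have ht'0 : 0 < t' := htp.trans htt'
      obtain ⟨q, hq⟩ : ∃ q : ℂ → ℂ, q = fun v => v1 + ((t / t' : ℝ) : ℂ) * (v - v1) := ⟨_, rfl⟩
      have hqV : ∀ v ∈ V t', q v ∈ V t := by
        intro v hv
        rw [hmemV t' ht'0] at hv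
        rw [hmemV t htp, hq]
        simp only [add_sub_cancel_left]
        convert hv using 2
        have ht1 : (t : ℂ) ≠ 0 := by exact_mod_cast htp.ne'
        push_cast
        field_simp
      have hqd : ∀ v ∈ V t', ‖v - q v‖ ≤ R0 / 3 := by
        intro v hv
        have e : v - q v = ((1 - t / t' : ℝ) : ℂ) * (v - v1) := by
          rw [hq]
          push_cast
          ring
        have h1 : 0 ≤ 1 - t / t' := by
          have := (div_le_one ht'0).2 htt'.le
          linarith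
        rw [e, norm_mul, Complex.norm_real, Real.norm_of_nonneg h1]
        calc (1 - t / t') * ‖v - v1‖ ≤ (1 - t / t') * (t' * D) :=
              mul_le_mul_of_nonneg_left (hVD t' ht'0 v hv) h1
          _ = (t' - t) * D := by field_simp
          _ ≤ R0 / 3 := ht'2
      refine ⟨t', ⟨htt', ht'1⟩, fun v => E (q v) v, ?_, ?_⟩
      · intro v0 hv0
        apply DifferentiableAt.differentiableWithinAt
        have hqc : Continuous q := by rw [hq]; fun_prop
        have h1 : v0 ∈ ball (q v0) R0 := by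
          rw [mem_ball_iff_norm]
          linarith [hqd v0 hv0]
        refine ((hE (q v0) (hqV v0 hv0)).differentiableAt
          (isOpen_ball.mem_nhds h1)).congr_of_eventuallyEq ?_
        have h2 : ∀ᶠ v in 𝓝 v0, ‖q v - q v0‖ < R0 := by
          have := hqc.continuousAt.eventually (ball_mem_nhds (q v0) hR)
          filter_upwards [this] with v hv
          exact mem_ball_iff_norm.1 hv
        filter_upwards [h2, (hVo t' ht'0).mem_nhds hv0, isOpen_ball.mem_nhds h1] with v hv1 hv2 hv3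
        have hqv := hqV v hv2
        have hqv0 := hqV v0 hv0
        have hin : q v ∈ ball (q v) R0 ∩ ball (q v0) R0 :=
          ⟨mem_ball_self hR, mem_ball_iff_norm.2 hv1⟩
        refine eq_on (isOpen_ball.inter isOpen_ball)
          ((convex_ball _ _).inter (convex_ball _ _)).isPreconnected
          ((hE _ hqv).mono inter_subset_left) ((hE _ hqv0).mono inter_subset_right) hin ?_
          ⟨?_, hv3⟩
        · filter_upwards [(isOpen_ball.inter isOpen_ball).mem_nhds hin,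
            (hVo t htp).mem_nhds hqv] with x hx hxV
          rw [hEG _ hqv x ⟨hx.1, hxV⟩, hEG _ hqv0 x ⟨hx.2, hxV⟩]
        · rw [mem_ball_iff_norm]
          linarith [hqd v hv2]
      · intro v hv
        have hvt : v ∈ V t := hVm t0 t ht00 ht.1 hv
        have hvt' : v ∈ V t' := hVm t t' htp htt'.le hvt
        have h1 : v ∈ ball (q v) R0 := by
          rw [mem_ball_iff_norm]
          linarith [hqd v hvt']
        show E (q v) v = E0 v
        rw [hEG (q v) (hqV v hvt') v ⟨h1, hvt⟩, hGE hv])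
  refine ⟨G, by rw [← hV1]; exact hG, ?_, ?_⟩
  · filter_upwards [(hVo t0 ht00).mem_nhds (hv1V t0 ht00), hEF0] with x hx hx2
    rw [hGE hx, hx2]
  · rw [← hV1]
    exact hspread 1 ht01 le_rfl G hG hGE

theorem mono {W : Set ℂ} (hW : IsOpen W) (hc : Convex ℝ W)
    (hext : ∀ v ∈ W, ∀ F, Ad v F → ∃ E : ℂ → ℂ, DifferentiableOn ℂ E (ball v R0) ∧
      E =ᶠ[𝓝 v] F ∧ ∀ w ∈ ball v R0, Ad w E)
    {v1 : ℂ} (hv1 : v1 ∈ W) {F : ℂ → ℂ} (hF : Ad v1 F) :
    ∃ G : ℂ → ℂ, DifferentiableOn ℂ G W ∧ G =ᶠ[𝓝 v1] F ∧ ∀ w ∈ W, Ad w G := by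
  have h1 : ∀ n : ℕ, ∃ G : ℂ → ℂ, DifferentiableOn ℂ G (W ∩ ball v1 (n + 1)) ∧
      G =ᶠ[𝓝 v1] F ∧ ∀ w ∈ W ∩ ball v1 (n + 1), Ad w G := fun n =>
    mono_bdd hR hcongr (hW.inter isOpen_ball) (hc.inter (convex_ball _ _))
      (isBounded_ball.subset inter_subset_right) (fun v hv => hext v hv.1)
      ⟨hv1, mem_ball_self (by positivity)⟩ hF
  choose G hG hGF hGA using h1
  have hagree : ∀ m n : ℕ, m ≤ n → EqOn (G m) (G n) (W ∩ ball v1 (m + 1)) := by
    intro m n hmn
    have hsub : W ∩ ball v1 (m + 1) ⊆ W ∩ ball v1 (n + 1) :=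
      inter_subset_inter_right _ (ball_subset_ball (by
        have : (m : ℝ) ≤ n := by exact_mod_cast hmn
        linarith))
    exact eq_on (hW.inter isOpen_ball) (hc.inter (convex_ball _ _)).isPreconnected (hG m)
      ((hG n).mono hsub) ⟨hv1, mem_ball_self (by positivity)⟩ ((hGF m).trans (hGF n).symm)
  have hagree' : ∀ m n : ℕ, ∀ v ∈ W, v ∈ ball v1 (m + 1) → v ∈ ball v1 (n + 1) →
      G m v = G n v := by
    intro m n v hv hm hn
    rcases le_total m n with h | h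
    · exact hagree m n h ⟨hv, hm⟩
    · exact (hagree n m h ⟨hv, hn⟩).symm
  obtain ⟨N, hN⟩ : ∃ N : ℂ → ℕ, N = fun v => ⌈‖v - v1‖⌉₊ := ⟨_, rfl⟩
  have hNv : ∀ v, v ∈ ball v1 ((N v : ℝ) + 1) := by
    intro v
    rw [mem_ball_iff_norm, hN]
    have := Nat.le_ceil ‖v - v1‖
    simp only
    linarith
  have hloc : ∀ v0 ∈ W, (fun v => G (N v) v) =ᶠ[𝓝 v0] G (N v0) := by
    intro v0 hv0
    filter_upwards [hW.mem_nhds hv0, isOpen_ball.mem_nhds (hNv v0)] with v hv1 hv2
    exact hagree' _ _ v hv1 (hNv v) hv2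
  refine ⟨fun v => G (N v) v, ?_, ?_, ?_⟩
  · intro v0 hv0
    exact (((hG (N v0)).differentiableAt ((hW.inter isOpen_ball).mem_nhds
      ⟨hv0, hNv v0⟩)).congr_of_eventuallyEq (hloc v0 hv0)).differentiableWithinAt
  · exact (hloc v1 hv1).trans (hGF _)
  · intro w hw
    exact hcongr w _ _ (hGA (N w) w ⟨hw, hNv w⟩) (hloc w hw).symm

end

end Pool.Agent.T9h43.SA
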