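import Pool.Agent.T9h43.SA.Adm
import Pool.Agent.T9h43.SA.Mono
import Pool.Agent.T9h43.SA.Asy

/-!
Admissible germs near an isolated zero of the leading coefficient: continuation to the logarithmic
covering, periodicity, asymptotics.
-/

set_option autoImplicit false

open Complex MeasureTheory Metric Set Filter Topology ComplexConjugate
open Pool.Agent.Y245.SC Pool.Agent.Y245.UC

namespace Pool.Agent.T9h43.SA

/-- admissible germs in the logarithmic coordinate -/
def AdmL (φ : ℂ → ℂ) (a : ℝ) (A : ℕ → ℂ → ℂ) (d : ℕ) (P v : ℂ) (F : ℂ → ℂ) : Prop :=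
  ∃ X : ℂ → ℂ, Adm φ a A d (ee P v) X ∧ (∀ᶠ w in 𝓝 (ee P v), DifferentiableAt ℂ X w) ∧
    F =ᶠ[𝓝 v] fun w => X (ee P w)

variable {φ : ℂ → ℂ} {a : ℝ} {A : ℕ → ℂ → ℂ} {d : ℕ}

theorem AdmL.congr {P v : ℂ} {F G : ℂ → ℂ} (h : AdmL φ a A d P v F) (hFG : F =ᶠ[𝓝 v] G) :
    AdmL φ a A d P v G := by
  obtain ⟨X, h1, h2, h3⟩ := h
  exact ⟨X, h1, h2, hFG.symm.trans h3⟩

theorem exp_near {v w : ℂ} (h : ‖w - v‖ < 1 / 2) : ‖exp w - exp v‖ < ‖exp v‖ := by
  have e : exp w - exp v = exp v * (exp (w - v) - 1) := by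
    rw [mul_sub, ← Complex.exp_add]
    congr 2
    · ring
    · ring
  rw [e, norm_mul]
  have h1 := Complex.norm_exp_sub_one_le (x := w - v) (by linarith)
  have h2 : 0 < ‖exp v‖ := norm_pos_iff.2 (Complex.exp_ne_zero v)
  nlinarith

theorem hp_norm {v : ℂ} {ε : ℝ} (hε : 0 < ε) (hv : v ∈ HP (Real.log (ε / 2))) :
    ‖exp v‖ < ε / 2 := by
  rw [Complex.norm_exp]
  have : v.re < Real.log (ε / 2) := hv
  rwa [Real.lt_log_iff_exp_lt (by positivity)] at this

/-- continuation with a uniform radius -/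
theorem admL_ext (ha : 0 < a) (hφ : DifferentiableOn ℂ φ (ball 0 1))
    (hA : ∀ k ≤ d, DifferentiableOn ℂ (A k) (ball 0 1)) {P : ℂ} {ε : ℝ} (hε : 0 < ε)
    (hb : ball P ε ⊆ ball 0 1) (hne : ∀ u ∈ ball P ε, u ≠ P → A d u ≠ 0) :
    ∀ v ∈ HP (Real.log (ε / 2)), ∀ F, AdmL φ a A d P v F → ∃ E : ℂ → ℂ,
      DifferentiableOn ℂ E (ball v (1 / 2)) ∧ E =ᶠ[𝓝 v] F ∧
      ∀ w ∈ ball v (1 / 2), AdmL φ a A d P w E := by
  intro v hv F hF
  obtain ⟨X, hX, hXd, hFX⟩ := hF
  have hvn := hp_norm hε hv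
  have hv0 : 0 < ‖exp v‖ := norm_pos_iff.2 (Complex.exp_ne_zero v)
  obtain ⟨ρ0, hρ0, hXd'⟩ := Metric.eventually_nhds_iff_ball.1 hXd
  have hsub : ball (ee P v) ‖exp v‖ ⊆ ball P ε := by
    intro w hw
    rw [mem_ball_iff_norm] at hw ⊢
    have h1 : w - P = (w - ee P v) + exp v := by
      unfold ee
      ring
    rw [h1]
    have := norm_add_le (w - ee P v) (exp v)
    linarith
  have hnP : ∀ w ∈ ball (ee P v) ‖exp v‖, w ≠ P := by
    intro w hw h
    rw [h, mem_ball_iff_norm] at hw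
    have h1 : P - ee P v = -exp v := by
      unfold ee
      ring
    rw [h1, norm_neg] at hw
    exact lt_irrefl _ hw
  obtain ⟨Y, hY, hYX, hYA⟩ := disc_germ ha hφ hA hρ0 hv0 (hsub.trans hb)
    (fun w hw => hne w (hsub hw) (hnP w hw))
    (fun w hw => (hXd' w hw).differentiableWithinAt) hX
  have hmap : ∀ w ∈ ball v (1 / 2 : ℝ), ee P w ∈ ball (ee P v) ‖exp v‖ := by
    intro w hw
    rw [mem_ball_iff_norm] at hw ⊢
    have h1 : ee P w - ee P v = exp w - exp v := by
      unfold ee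
      ring
    rw [h1]
    exact exp_near hw
  refine ⟨fun w => Y (ee P w), ?_, ?_, ?_⟩
  · intro w hw
    have h1 : DifferentiableAt ℂ Y (ee P w) :=
      hY.differentiableAt (isOpen_ball.mem_nhds (hmap w hw))
    exact (DifferentiableAt.comp (f := fun w => ee P w) w h1 (ee_diff P w)).differentiableWithinAt
  · have h1 : ∀ᶠ w in 𝓝 v, Y (ee P w) = X (ee P w) :=
      (ee_diff P v).continuousAt.tendsto.eventually hYX
    filter_upwards [h1, hFX] with w h2 h3
    rw [h2, h3]
  · intro w hw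
    refine ⟨Y, hYA _ (hmap w hw), ?_, Filter.EventuallyEq.rfl⟩
    filter_upwards [isOpen_ball.mem_nhds (hmap w hw)] with z hz
    exact hY.differentiableAt (isOpen_ball.mem_nhds hz)

theorem admL_rel {P v : ℂ} {F : ℂ → ℂ} (h : AdmL φ a A d P v F) : rel A d (ee P v) (F v) = 0 := by
  obtain ⟨X, h1, -, h3⟩ := h
  rw [h3.self_of_nhds]
  exact h1.alg.self_of_nhds

/-- a vanishing product of holomorphic functions -/
theorem prod_zero {U : Set ℂ} (hUp : IsPreconnected U) (hUn : U.Nonempty)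
    {ι : Type} (s : Finset ι) (f : ι → ℂ → ℂ) (hf : ∀ i ∈ s, AnalyticOnNhd ℂ (f i) U)
    (h : ∀ z ∈ U, ∏ i ∈ s, f i z = 0) : ∃ i ∈ s, ∀ z ∈ U, f i z = 0 := by
  classical
  induction s using Finset.induction_on with
  | empty =>
    obtain ⟨z, hz⟩ := hUn
    have := h z hz
    simp at this
  | insert i s his ih =>
    have h1 : ∀ z ∈ U, f i z * ∏ j ∈ s, f j z = 0 := by
      intro z hz
      have := h z hz
      rwa [Finset.prod_insert his] at this
    have h2 : AnalyticOnNhd ℂ (fun z => ∏ j ∈ s, f j z) U := by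
      intro z hz
      have := Finset.analyticAt_fun_prod (𝕜 := ℂ) (f := f) (c := z) s
        (fun j hj => hf j (Finset.mem_insert_of_mem hj) z hz)
      exact this
    rcases AnalyticOnNhd.eq_zero_or_eq_zero_of_mul_eq_zero
      (hf i (Finset.mem_insert_self _ _)) h2 h1 hUp with h3 | h3
    · exact ⟨i, Finset.mem_insert_self _ _, h3⟩
    · obtain ⟨j, hj, h4⟩ := ih (fun j hj => hf j (Finset.mem_insert_of_mem hj)) h3
      exact ⟨j, Finset.mem_insert_of_mem hj, h4⟩

/-- too many roots -/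
theorem too_many {u : ℂ} (hu : A d u ≠ 0) (x : ℕ → ℂ)
    (h : ∀ j ≤ d, rel A d u (x j) = 0) : ∃ i j, i < j ∧ j ≤ d ∧ x i = x j := by
  classical
  by_contra hcon
  push Not at hcon
  obtain ⟨p, hp⟩ : ∃ p : Polynomial ℂ, p = ∑ k ∈ Finset.range (d + 1),
    Polynomial.C (A k u) * Polynomial.X ^ k := ⟨_, rfl⟩
  have hev : ∀ y, p.eval y = rel A d u y := by
    intro y
    rw [hp, Polynomial.eval_finsetSum]
    unfold rel
    refine Finset.sum_congr rfl fun k _ => ?_
    simp
  have hcoeff : p.coeff d = A d u := by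
    rw [hp, Polynomial.finsetSum_coeff, Finset.sum_eq_single d]
    · simp
    · intro k _ hk
      rw [Polynomial.coeff_C_mul_X_pow, if_neg (Ne.symm hk)]
    · intro h1
      exact absurd (Finset.mem_range.2 (Nat.lt_succ_self d)) h1
  have hp0 : p ≠ 0 := by
    intro h0
    rw [h0, Polynomial.coeff_zero] at hcoeff
    exact hu hcoeff.symm
  have hdeg : p.natDegree ≤ d := by
    rw [hp]
    refine Polynomial.natDegree_sum_le_of_forall_le _ _ fun k hk => ?_
    refine (Polynomial.natDegree_C_mul_X_pow_le _ _).trans ?_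
    have := Finset.mem_range.1 hk
    omega
  have hinj : Set.InjOn x (Finset.range (d + 1)) := by
    intro i hi j hj hij
    have hi' : i ≤ d := by
      have := Finset.mem_range.1 (Finset.mem_coe.1 hi)
      omega
    have hj' : j ≤ d := by
      have := Finset.mem_range.1 (Finset.mem_coe.1 hj)
      omega
    rcases lt_trichotomy i j with h1 | h1 | h1
    · exact absurd hij (hcon i j h1 hj')
    · exact h1
    · exact absurd hij.symm (hcon j i h1 hi')
  have hcard : ((Finset.range (d + 1)).image x).card = d + 1 := by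
    rw [Finset.card_image_of_injOn hinj, Finset.card_range]
  have hsub : (Finset.range (d + 1)).image x ⊆ p.roots.toFinset := by
    intro y hy
    obtain ⟨j, hj, rfl⟩ := Finset.mem_image.1 hy
    rw [Multiset.mem_toFinset, Polynomial.mem_roots hp0, Polynomial.IsRoot.def, hev]
    refine h j ?_
    have := Finset.mem_range.1 hj
    omega
  have h1 := Finset.card_le_card hsub
  have h2 := Multiset.toFinset_card_le p.roots
  have h3 := p.card_roots'
  omega

theorem hp_sub {L : ℝ} {v : ℂ} (hv : v ∈ HP L) (n : ℤ) : v + n * (2 * Real.pi * I) ∈ HP L := by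
  unfold HP at *
  simpa using hv

theorem ee_per' (P v : ℂ) (n : ℤ) : ee P (v + n * (2 * Real.pi * I)) = ee P v := by
  unfold ee
  rw [Complex.exp_add, Complex.exp_int_mul_two_pi_mul_I, mul_one]

/-- periodicity -/
theorem periodic {P : ℂ} {L : ℝ} {F : ℂ → ℂ} (hF : DifferentiableOn ℂ F (HP L))
    (hne : ∀ v ∈ HP L, A d (ee P v) ≠ 0) (hrel : ∀ v ∈ HP L, rel A d (ee P v) (F v) = 0) :
    ∃ N : ℕ, 1 ≤ N ∧ N ≤ d ∧ ∀ v ∈ HP L, F (v + N * (2 * Real.pi * I)) = F v := by
  classical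
  have hFa : AnalyticOnNhd ℂ F (HP L) := hF.analyticOnNhd (hp_open L)
  have hsh : ∀ n : ℤ, AnalyticOnNhd ℂ (fun v => F (v + n * (2 * Real.pi * I))) (HP L) := by
    intro n
    refine DifferentiableOn.analyticOnNhd ?_ (hp_open L)
    intro v hv
    have h1 : DifferentiableAt ℂ F (v + n * (2 * Real.pi * I)) :=
      hF.differentiableAt ((hp_open L).mem_nhds (hp_sub hv n))
    exact (DifferentiableAt.comp (f := fun v : ℂ => v + n * (2 * Real.pi * I)) v h1
      (by fun_prop)).differentiableWithinAt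
  have hnon : (HP L).Nonempty := ⟨((L - 1 : ℝ) : ℂ), by
    show (((L - 1 : ℝ) : ℂ)).re < L
    rw [Complex.ofReal_re]
    linarith⟩
  obtain ⟨p, hp, hp0⟩ := prod_zero (hp_convex L).isPreconnected hnon
    (((Finset.range (d + 1)) ×ˢ (Finset.range (d + 1))).filter fun p => p.1 < p.2)
    (fun p v => F (v + ((p.1 : ℤ) : ℂ) * (2 * Real.pi * I)) -
      F (v + ((p.2 : ℤ) : ℂ) * (2 * Real.pi * I)))
    (fun p _ => (hsh p.1).sub (hsh p.2)) (by
      intro v hv
      obtain ⟨i, j, hij, hjd, hx⟩ := too_many (A := A) (d := d) (hne v hv)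
        (fun j => F (v + ((j : ℤ) : ℂ) * (2 * Real.pi * I))) (by
          intro j _
          have := hrel _ (hp_sub hv j)
          rwa [ee_per'] at this)
      refine Finset.prod_eq_zero (i := (i, j)) ?_ ?_
      · rw [Finset.mem_filter, Finset.mem_product, Finset.mem_range, Finset.mem_range]
        exact ⟨⟨by show i < d + 1; omega, by show j < d + 1; omega⟩, hij⟩
      · exact sub_eq_zero.2 hx)
  rw [Finset.mem_filter, Finset.mem_product, Finset.mem_range, Finset.mem_range] at hp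
  obtain ⟨⟨hp1, hp2⟩, hp3⟩ := hp
  refine ⟨p.2 - p.1, by omega, by omega, fun v hv => ?_⟩
  have h1 := hp0 (v + ((-(p.1 : ℤ) : ℤ) : ℂ) * (2 * Real.pi * I)) (hp_sub hv _)
  have h2 := sub_eq_zero.1 h1
  have e1 : v + ((-(p.1 : ℤ) : ℤ) : ℂ) * (2 * Real.pi * I) + ((p.1 : ℤ) : ℂ) *
      (2 * Real.pi * I) = v := by
    push_cast
    ring
  have e2 : v + ((-(p.1 : ℤ) : ℤ) : ℂ) * (2 * Real.pi * I) + ((p.2 : ℤ) : ℂ) *
      (2 * Real.pi * I) = v + ((p.2 - p.1 : ℕ) : ℂ) * (2 * Real.pi * I) := by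
    rw [Nat.cast_sub hp3.le]
    push_cast
    ring
  rw [e1, e2] at h2
  exact h2.symm

theorem periodic_int {L : ℝ} {F : ℂ → ℂ} {N : ℕ}
    (h : ∀ v ∈ HP L, F (v + N * (2 * Real.pi * I)) = F v) :
    ∀ n : ℤ, ∀ v ∈ HP L, F (v + n * (N * (2 * Real.pi * I))) = F v := by
  have hm : ∀ n : ℤ, ∀ v ∈ HP L, v + n * (N * (2 * Real.pi * I)) ∈ HP L := by
    intro n v hv
    have := hp_sub hv (n * N)
    push_cast at this
    rwa [mul_assoc] at this
  intro n
  induction n using Int.induction_on with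
  | zero =>
    intro v _
    simp
  | succ n ih =>
    intro v hv
    have h1 := h (v + (n : ℤ) * (N * (2 * Real.pi * I))) (hm n v hv)
    rw [ih v hv] at h1
    rw [← h1]
    congr 1
    push_cast
    ring
  | pred n ih =>
    intro v hv
    have h1 := h (v + ((-(n : ℤ) - 1 : ℤ) : ℂ) * (N * (2 * Real.pi * I))) (hm _ v hv)
    rw [← h1, ← ih v hv]
    congr 1
    push_cast
    ring

/-- the function of `exp (v / N)` -/
theorem descend {L : ℝ} {F : ℂ → ℂ} {N : ℕ} (hN : 1 ≤ N) (hF : DifferentiableOn ℂ F (HP L))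
    (h : ∀ v ∈ HP L, F (v + N * (2 * Real.pi * I)) = F v) :
    ∃ f : ℂ → ℂ, DifferentiableOn ℂ f (ball 0 (Real.exp (L / N)) \ {0}) ∧
      ∀ v ∈ HP L, F v = f (exp (v / N)) := by
  have hN0 : (0 : ℝ) < N := by exact_mod_cast hN
  have hNc : (N : ℂ) ≠ 0 := by exact_mod_cast (by omega : N ≠ 0)
  have hper := periodic_int h
  -- two logarithms
  have hlog : ∀ (s w : ℂ), N * s ∈ HP L → exp s = exp w → F (N * s) = F (N * w) := by
    intro s w hs hsw
    obtain ⟨n, hn⟩ := Complex.exp_eq_exp_iff_exists_int.1 hsw.symm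
    rw [hn, ← hper n _ hs]
    congr 1
    ring
  refine ⟨fun t => F (N * Complex.log t), ?_, ?_⟩
  · intro t0 ht0
    have ht00 : t0 ≠ 0 := ht0.2
    have hmem : ∀ t : ℂ, t ≠ 0 → ‖t‖ < Real.exp (L / N) → ∀ s : ℂ, exp s = t → N * s ∈ HP L := by
      intro t ht htn s hs
      show (N * s).re < L
      have h1 : (N * s).re = N * s.re := by simp
      rw [h1]
      rw [← hs, Complex.norm_exp, Real.exp_lt_exp, lt_div_iff₀ hN0] at htn
      linarith
    have hn0 : ‖t0‖ < Real.exp (L / N) := by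
      have := ht0.1
      rwa [mem_ball_zero_iff] at this
    obtain ⟨g, hg⟩ : ∃ g : ℂ → ℂ, g = fun t => Complex.log (t / t0) + Complex.log t0 := ⟨_, rfl⟩
    have hge : ∀ t, t ≠ 0 → exp (g t) = t := by
      intro t ht
      rw [hg]
      simp only
      rw [Complex.exp_add, Complex.exp_log (div_ne_zero ht ht00), Complex.exp_log ht00,
        div_mul_cancel₀ _ ht00]
    have hgd : DifferentiableAt ℂ g t0 := by
      rw [hg]
      have h1 : DifferentiableAt ℂ (fun t : ℂ => Complex.log (t / t0)) t0 := by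
        refine DifferentiableAt.clog (by fun_prop) ?_
        rw [div_self ht00]
        exact Complex.one_mem_slitPlane
      exact h1.add_const _
    have hFg : DifferentiableAt ℂ (fun t => F (N * g t)) t0 := by
      have h1 : DifferentiableAt ℂ F (N * g t0) :=
        hF.differentiableAt ((hp_open L).mem_nhds (hmem t0 ht00 hn0 _ (hge t0 ht00)))
      exact DifferentiableAt.comp (f := fun t => (N : ℂ) * g t) t0 h1 (hgd.const_mul _)
    refine DifferentiableAt.differentiableWithinAt ?_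
    refine DifferentiableAt.congr_of_eventuallyEq hFg ?_
    have h2 : ∀ᶠ t in 𝓝 t0, t ≠ 0 := isOpen_ne.mem_nhds ht00
    have h3 : ∀ᶠ t in 𝓝 t0, ‖t‖ < Real.exp (L / N) :=
      continuous_norm.continuousAt.eventually_lt_const hn0
    filter_upwards [h2, h3] with t ht1 ht2
    exact hlog _ _ (hmem t ht1 ht2 _ (Complex.exp_log ht1)) (by
      rw [Complex.exp_log ht1, hge t ht1])
  · intro v hv
    have h1 : N * (v / N) = v := by field_simp
    have h2 := hlog (v / N) (Complex.log (exp (v / N))) (by rw [h1]; exact hv) (by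
      rw [Complex.exp_log (Complex.exp_ne_zero _)])
    rw [h1] at h2
    exact h2

/-- the asymptotic form of a function of `exp (v / N)` with moderate growth -/
theorem asym {L : ℝ} {F : ℂ → ℂ} {N K : ℕ} {C : ℝ} (hN : 1 ≤ N)
    (hF : DifferentiableOn ℂ F (HP L))
    (h : ∀ v ∈ HP L, F (v + N * (2 * Real.pi * I)) = F v)
    (hgr : ∃ L' : ℝ, ∀ v : ℂ, v.re < L' → ‖F v‖ * ‖exp v‖ ^ K ≤ C) :
    ∃ (m : ℕ) (B : ℂ), (m = 0 ∨ B ≠ 0) ∧ Asy F (-((m : ℝ) / N)) B := by
  have hN0 : (0 : ℝ) < N := by exact_mod_cast hN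
  have hNc : (N : ℂ) ≠ 0 := by exact_mod_cast (by omega : N ≠ 0)
  obtain ⟨f, hf, hFf⟩ := descend hN hF h
  obtain ⟨ρ, hρ⟩ : ∃ ρ, ρ = Real.exp (L / N) := ⟨_, rfl⟩
  have hρ0 : 0 < ρ := by rw [hρ]; exact Real.exp_pos _
  rw [← hρ] at hf
  rcases Pool.Agent.Y953.ES.tri 0 ρ f hρ0 hf with hess | ⟨m, E, hE, hE0, hfE⟩
  · exfalso
    obtain ⟨L', hL'⟩ := hgr
    have h1 := hess.2 (N * K) C
    have h2 : ∀ᶠ t in 𝓝[≠] (0 : ℂ), ‖f t‖ * ‖t - 0‖ ^ (N * K) ≤ C := by
      have h3 : ∀ᶠ t in 𝓝[≠] (0 : ℂ), ‖t‖ < Real.exp (min L L' / N) := by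
        apply Filter.Eventually.filter_mono nhdsWithin_le_nhds
        exact continuous_norm.continuousAt.eventually_lt_const (by
          simp only [norm_zero]; exact Real.exp_pos _)
      filter_upwards [h3, self_mem_nhdsWithin] with t ht ht0
      have ht0' : t ≠ 0 := ht0
      have hre : (N * Complex.log t).re < min L L' := by
        have h1 : (N * Complex.log t).re = N * (Complex.log t).re := by simp
        rw [h1]
        rw [← Complex.exp_log ht0', Complex.norm_exp, Real.exp_lt_exp, lt_div_iff₀ hN0] at ht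
        linarith
      have h4 := hL' (N * Complex.log t) (hre.trans_le (min_le_right _ _))
      have h5 := hFf (N * Complex.log t) (hre.trans_le (min_le_left _ _))
      have h6 : (N : ℂ) * Complex.log t / N = Complex.log t := by field_simp
      rw [h6, Complex.exp_log ht0'] at h5
      rw [h5] at h4
      have h7 : exp (N * Complex.log t) = t ^ N := by
        rw [Complex.exp_nat_mul, Complex.exp_log ht0']
      rw [h7, norm_pow, ← pow_mul] at h4
      rw [sub_zero]
      exact h4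
    obtain ⟨t, ht1, ht2⟩ := (h1.and_eventually h2).exists
    linarith
  · refine ⟨m, E 0, hE0, ?_⟩
    intro ε hε
    have hcont : ContinuousAt E 0 := (hE.differentiableAt (ball_mem_nhds 0 hρ0)).continuousAt
    obtain ⟨δ, hδ, hδ'⟩ := Metric.continuousAt_iff.1 hcont ε hε
    refine ⟨min L (N * Real.log (min δ ρ)), fun v hv => ?_⟩
    have hvL : v ∈ HP L := hv.trans_le (min_le_left _ _)
    have hv2 : v.re < N * Real.log (min δ ρ) := hv.trans_le (min_le_right _ _)
    have hδρ : 0 < min δ ρ := lt_min hδ hρ0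
    have hn : ‖exp (v / N)‖ < min δ ρ := by
      rw [Complex.norm_exp]
      have h1 : (v / N).re = v.re / N := by simp
      rw [h1, ← Real.lt_log_iff_exp_lt hδρ, div_lt_iff₀ hN0]
      linarith
    have hne : exp (v / N) ≠ 0 := Complex.exp_ne_zero _
    have h2 : exp (v / N) ∈ ball (0 : ℂ) ρ := by
      rw [mem_ball_zero_iff]
      exact hn.trans_le (min_le_right _ _)
    rw [hFf v hvL, hfE _ h2 hne, sub_zero]
    have h3 : exp (-(((-((m : ℝ) / N) : ℝ) : ℂ) * v)) = exp (v / N) ^ m := by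
      rw [← Complex.exp_nat_mul]
      congr 1
      push_cast
      ring
    rw [h3, div_mul_cancel₀ _ (pow_ne_zero _ hne)]
    have h4 := @hδ' (exp (v / N)) (by
      rw [dist_zero_right]
      exact hn.trans_le (min_le_left _ _))
    rw [dist_eq_norm] at h4
    exact h4.le

end Pool.Agent.T9h43.SA
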