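import Pool.Agent.T9h43.SA.Fin

/-!
Ramified singularities of the Schwarz function.
-/

set_option autoImplicit false

open Complex MeasureTheory Metric Set Filter Topology ComplexConjugate
open Pool.Agent.Y245.SC Pool.Agent.Y245.UC
open Pool.Agent.TH298.Sch (Sol)

namespace Pool.Agent.T9h43.SA

/-- no algebraic relation -/
def A0 : ℕ → ℂ → ℂ := fun _ _ => 0

theorem A0_diff (k : ℕ) (V : Set ℂ) : DifferentiableOn ℂ (A0 k) V := differentiableOn_const _

theorem A0_rel (u x : ℂ) : rel A0 0 u x = 0 := by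
  simp [rel, A0]

variable {φ : ℂ → ℂ} {a : ℝ}

/-- admissibility spreads over the half plane -/
theorem admL_spread (ha : 0 < a) (hφ : DifferentiableOn ℂ φ (ball 0 1)) {P : ℂ} {L : ℝ}
    (hB : ∀ v ∈ HP L, ee P v ∈ ball (0 : ℂ) 1) {F : ℂ → ℂ} (hF : DifferentiableOn ℂ F (HP L))
    {v1 : ℂ} (hv1 : v1 ∈ HP L) (h1 : AdmL φ a A0 0 P v1 F) :
    ∀ w ∈ HP L, AdmL φ a A0 0 P w F := by
  have hloc : ∀ v ∈ HP L, ∀ᶠ w in 𝓝 v, (AdmL φ a A0 0 P v F → AdmL φ a A0 0 P w F) ∧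
      (AdmL φ a A0 0 P w F → AdmL φ a A0 0 P v F) := by
    intro v hv
    obtain ⟨g, hg⟩ : ∃ g : ℂ → ℂ, g = fun u => v + Complex.log ((u - P) / exp v) := ⟨_, rfl⟩
    have hev : exp v ≠ 0 := Complex.exp_ne_zero v
    have hevp : 0 < ‖exp v‖ := norm_pos_iff.2 hev
    have hsl : ∀ u ∈ ball (ee P v) ‖exp v‖, (u - P) / exp v ∈ slitPlane := by
      intro u hu
      rw [mem_ball_iff_norm] at hu
      left
      have e : (u - P) / exp v = 1 + (u - ee P v) / exp v := by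
        unfold ee
        field_simp
        ring
      have h2 : ‖(u - ee P v) / exp v‖ < 1 := by
        rw [norm_div, div_lt_one hevp]
        exact hu
      have h3 := (abs_le.1 (Complex.abs_re_le_norm ((u - ee P v) / exp v))).1
      rw [e, Complex.add_re, Complex.one_re]
      linarith
    have hgd : ∀ u ∈ ball (ee P v) ‖exp v‖, DifferentiableAt ℂ g u := by
      intro u hu
      rw [hg]
      have h2 : DifferentiableAt ℂ (fun u : ℂ => Complex.log ((u - P) / exp v)) u :=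
        DifferentiableAt.clog (by fun_prop) (hsl u hu)
      exact h2.const_add _
    have hgv : g (ee P v) = v := by
      rw [hg]
      unfold ee
      simp
    have hcenter : ee P v ∈ ball (ee P v) ‖exp v‖ := mem_ball_self hevp
    have h2 : ∀ᶠ u in 𝓝 (ee P v), g u ∈ HP L := by
      have := (hgd _ hcenter).continuousAt.eventually ((hp_open L).mem_nhds (by rw [hgv]; exact hv))
      exact this
    obtain ⟨δ, hδ, hδ'⟩ := Metric.eventually_nhds_iff_ball.1
      (h2.and (isOpen_ball.mem_nhds hcenter))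
    obtain ⟨Y, hY⟩ : ∃ Y : ℂ → ℂ, Y = fun u => F (g u) := ⟨_, rfl⟩
    have hYd : DifferentiableOn ℂ Y (ball (ee P v) δ) := by
      intro u hu
      obtain ⟨h3, h4⟩ := hδ' u hu
      rw [hY]
      have h5 : DifferentiableAt ℂ F (g u) := hF.differentiableAt ((hp_open L).mem_nhds h3)
      exact (DifferentiableAt.comp (f := fun u => g u) u h5 (hgd u h4)).differentiableWithinAt
    have hge : ∀ w : ℂ, ‖w - v‖ < 1 → g (ee P w) = w := by
      intro w hw
      rw [hg]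
      unfold ee
      simp only [add_sub_cancel_left]
      rw [← Complex.exp_sub, Complex.log_exp]
      · ring
      · have := (abs_le.1 ((Complex.abs_im_le_norm (w - v)).trans hw.le)).1
        have := Real.pi_gt_three
        linarith
      · have := (abs_le.1 ((Complex.abs_im_le_norm (w - v)).trans hw.le)).2
        have := Real.pi_gt_three
        linarith
    have hδ1 : ball (ee P v) δ ⊆ ball (ee P v) ‖exp v‖ := fun u hu => (hδ' u hu).2
    have h3 : ∀ᶠ w in 𝓝 v, ee P w ∈ ball (ee P v) δ :=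
      (ee_diff P v).continuousAt.eventually (ball_mem_nhds _ hδ)
    have h4 : ∀ᶠ w in 𝓝 v, ‖w - v‖ < 1 := by
      filter_upwards [ball_mem_nhds v one_pos] with w hw
      exact mem_ball_iff_norm.1 hw
    obtain ⟨η, hη, hη'⟩ := Metric.eventually_nhds_iff_ball.1
      (h3.and (h4.and ((hp_open L).mem_nhds hv)))
    -- germs of `F` and `Y`
    have hFY : ∀ w ∈ ball v η, F =ᶠ[𝓝 w] fun w => Y (ee P w) := by
      intro w hw
      filter_upwards [isOpen_ball.mem_nhds hw] with w' hw'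
      rw [hY]
      simp only
      rw [hge w' (hη' w' hw').2.1]
    -- transfer
    have htr : ∀ w ∈ ball v η, AdmL φ a A0 0 P w F → ∃ V : Set ℂ, IsOpen V ∧ ee P w ∈ V ∧
        Adm φ a A0 0 (ee P w) Y := by
      intro w hw hAd
      obtain ⟨X, hX1, -, hX3⟩ := hAd
      refine ⟨ball (ee P v) δ, isOpen_ball, (hη' w hw).1, hX1.congr ha hφ ?_⟩
      have h5 : (fun w => X (ee P w)) =ᶠ[𝓝 w] fun w => Y (ee P w) := hX3.symm.trans (hFY w hw)
      have h6 : Filter.map (ee P) (𝓝 w) = 𝓝 (ee P w) := by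
        have h7 : HasStrictDerivAt (ee P) (exp w) w :=
          (Complex.hasStrictDerivAt_exp w).const_add P
        exact h7.map_nhds_eq (Complex.exp_ne_zero w)
      rw [← h6]
      exact h5
    have hboth : ∀ w ∈ ball v η, ∀ w' ∈ ball v η, AdmL φ a A0 0 P w F →
        AdmL φ a A0 0 P w' F := by
      intro w hw w' hw' hAd
      obtain ⟨-, -, -, h5⟩ := htr w hw hAd
      -- move inside the disc, which may leave the unit disc: use the intersection
      have hconv : IsPreconnected (ball (ee P v) δ ∩ ball (0 : ℂ) 1) :=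
        ((convex_ball _ _).inter (convex_ball _ _)).isPreconnected
      have h6 : Adm φ a A0 0 (ee P w') Y := h5.move ha hφ (fun k _ => A0_diff k _)
        (isOpen_ball.inter isOpen_ball) hconv inter_subset_right (hYd.mono inter_subset_left)
        ⟨(hη' w hw).1, hB w (hη' w hw).2.2⟩ ⟨(hη' w' hw').1, hB w' (hη' w' hw').2.2⟩
      refine ⟨Y, h6, ?_, hFY w' hw'⟩
      filter_upwards [isOpen_ball.mem_nhds (hη' w' hw').1] with z hz
      exact hYd.differentiableAt (isOpen_ball.mem_nhds hz)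
    filter_upwards [ball_mem_nhds v hη] with w hw
    exact ⟨hboth v (mem_ball_self hη) w hw, hboth w hw v (mem_ball_self hη)⟩
  intro w hw
  have h2 := (hp_convex L).isPreconnected.induction₂'
    (fun v w => AdmL φ a A0 0 P v F → AdmL φ a A0 0 P w F)
    (fun v hv => nhdsWithin_le_nhds (hloc v hv))
    (fun x y z _ _ _ hxy hyz h => hyz (hxy h)) hv1 hw
  exact h2 h1

/-- growth of exponent less than one -/
theorem ext_of_growth (ha : 0 < a) (hφ : DifferentiableOn ℂ φ (ball 0 1)) {P : ℂ} {L : ℝ}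
    (hP : P ∈ ball (0 : ℂ) 1) {F : ℂ → ℂ} (hF : DifferentiableOn ℂ F (HP L))
    (hAd : ∀ w ∈ HP L, AdmL φ a A0 0 P w F) {γ C R : ℝ} (hγ : γ < 1)
    (hgr : ∀ v : ℂ, v.re < R → ‖F v‖ ≤ C * ‖exp v‖ ^ (-γ)) :
    ∃ (ε : ℝ) (E : ℂ → ℂ), 0 < ε ∧ DifferentiableOn ℂ E (ball P ε) ∧
      ∀ v : ℂ, v ∈ HP L → v.re < Real.log ε → F v = E (P + exp v) := by
  obtain ⟨B', hB'⟩ : ∃ B' : ℝ, B' = |C| + 1 := ⟨_, rfl⟩
  have hB'0 : 0 < B' := by rw [hB']; positivity
  have hFb : ∀ v : ℂ, v.re < R → ‖F v‖ ≤ B' * ‖exp v‖ ^ (-γ) := by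
    intro v hv
    refine (hgr v hv).trans ?_
    refine mul_le_mul_of_nonneg_right ?_ (Real.rpow_nonneg (norm_nonneg _) _)
    rw [hB']
    linarith [le_abs_self C]
  -- the tangent disc
  have hPn : ‖P‖ < 1 := mem_ball_zero_iff.1 hP
  obtain ⟨ρ, hρ⟩ : ∃ ρ : ℝ, ρ = min ((1 - ‖P‖) / 4) (Real.exp L / 2) := ⟨_, rfl⟩
  have hρ0 : 0 < ρ := by
    rw [hρ]
    exact lt_min (by linarith) (by positivity)
  have hρ1 : ρ ≤ (1 - ‖P‖) / 4 := by rw [hρ]; exact min_le_left _ _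
  have hρ2 : 2 * ρ ≤ Real.exp L := by
    have : ρ ≤ Real.exp L / 2 := by rw [hρ]; exact min_le_right _ _
    linarith
  obtain ⟨c, hc⟩ : ∃ c : ℂ, c = P + (ρ : ℂ) := ⟨_, rfl⟩
  have hPc : P ∈ sphere c ρ := by
    rw [mem_sphere_iff_norm, hc, sub_add_cancel_left, norm_neg, Complex.norm_real,
      Real.norm_of_nonneg hρ0.le]
  have hPcn : ‖c - P‖ = ρ := by
    rw [hc, add_sub_cancel_left, Complex.norm_real, Real.norm_of_nonneg hρ0.le]
  have hcb : closedBall c ρ ⊆ ball (0 : ℂ) 1 := by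
    intro v hv
    rw [mem_closedBall_iff_norm] at hv
    rw [mem_ball_zero_iff]
    have h1 : v = (v - c) + (c - P) + P := by ring
    have h2 : ‖v‖ ≤ ‖v - c‖ + ‖c - P‖ + ‖P‖ := by
      conv_lhs => rw [h1]
      exact norm_add₃_le
    rw [hPcn] at h2
    linarith
  obtain ⟨ℓ, hℓ, hℓe⟩ := branch_log hρ0 hPc
  have hℓx : ∀ u ∈ ball c ρ, exp (ℓ u) = u - P := by
    intro u hu
    have := hℓe u hu
    unfold ee at this
    linear_combination this
  have hℓm : ∀ u ∈ ball c ρ, ℓ u ∈ HP L := by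
    intro u hu
    show (ℓ u).re < L
    rw [← Real.exp_lt_exp, ← Complex.norm_exp, hℓx u hu]
    rw [mem_ball_iff_norm] at hu
    have h1 : ‖u - P‖ ≤ ‖u - c‖ + ‖c - P‖ := norm_sub_le_norm_sub_add_norm_sub _ _ _
    rw [hPcn] at h1
    linarith
  have hℓd : ∀ u ∈ ball c ρ, DifferentiableAt ℂ ℓ u := fun u hu =>
    hℓ.differentiableAt (isOpen_ball.mem_nhds hu)
  obtain ⟨X, hX⟩ : ∃ X : ℂ → ℂ, X = fun u => F (ℓ u) := ⟨_, rfl⟩
  have hXd : DifferentiableOn ℂ X (ball c ρ) := by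
    rw [hX]
    intro u hu
    have h1 : DifferentiableAt ℂ F (ℓ u) := hF.differentiableAt ((hp_open L).mem_nhds (hℓm u hu))
    exact (DifferentiableAt.comp (f := fun u => ℓ u) u h1 (hℓd u hu)).differentiableWithinAt
  have hcm : c ∈ ball c ρ := mem_ball_self hρ0
  have hXA : Adm φ a A0 0 c X := by
    obtain ⟨X0, h1, -, h3⟩ := hAd (ℓ c) (hℓm c hcm)
    rw [hℓe c hcm] at h1
    refine h1.congr ha hφ ?_
    have h4 : ∀ᶠ u in 𝓝 c, F (ℓ u) = X0 (ee P (ℓ u)) :=
      (hℓd c hcm).continuousAt.tendsto.eventually h3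
    filter_upwards [h4, isOpen_ball.mem_nhds hcm] with u h5 h6
    rw [hX]
    simp only
    rw [h5, hℓe u h6]
  -- small growth
  obtain ⟨η, hη⟩ : ∃ η : ℝ, η = 1 / (2 * (a * ‖deriv φ P‖ + 1)) := ⟨_, rfl⟩
  have hη0 : 0 < η := by rw [hη]; positivity
  have hsm : a * ‖deriv φ P‖ * η < 3 / 4 := by
    have h1 : a * ‖deriv φ P‖ * η ≤ 1 / 2 := by
      rw [hη, mul_one_div, div_le_iff₀ (by positivity)]
      linarith
    linarith
  have hlim : Tendsto (fun s : ℝ => B' * s ^ (1 - γ)) (𝓝[>] 0) (𝓝 0) := by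
    have h1 : Tendsto (fun s : ℝ => s ^ (1 - γ)) (𝓝[>] 0) (𝓝 0) := by
      have h2 : ContinuousAt (fun s : ℝ => s ^ (1 - γ)) 0 :=
        Real.continuousAt_rpow_const 0 (1 - γ) (Or.inr (by linarith))
      have h3 := h2.tendsto
      rw [Real.zero_rpow (by linarith)] at h3
      exact h3.mono_left nhdsWithin_le_nhds
    simpa using h1.const_mul B'
  obtain ⟨δ0, hδ0, hδ1⟩ : ∃ δ0 : ℝ, 0 < δ0 ∧ ∀ s : ℝ, 0 < s → s < δ0 →
      B' * s ^ (1 - γ) < η := by
    have h1 := hlim.eventually_lt_const hη0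
    rw [eventually_nhdsWithin_iff] at h1
    obtain ⟨δ0, h2, h3⟩ := Metric.eventually_nhds_iff.1 h1
    exact ⟨δ0, h2, fun s hs1 hs2 => h3 (by
      rw [dist_zero_right, Real.norm_eq_abs, abs_of_pos hs1]
      exact hs2) hs1⟩
  obtain ⟨δ, hδ⟩ : ∃ δ : ℝ, δ = min δ0 (Real.exp R) := ⟨_, rfl⟩
  have hδp : 0 < δ := by
    rw [hδ]
    exact lt_min hδ0 (Real.exp_pos R)
  obtain ⟨ε, E, hε, hE, hEX⟩ := locExt_of_growth ha hφ hρ0 hη0.le hδp hcb hXd hsm (by
    intro v hv hvP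
    have hv1 : ‖v - P‖ < δ0 := hvP.trans_le (by rw [hδ]; exact min_le_left _ _)
    have hv3 : ‖v - P‖ < Real.exp R := hvP.trans_le (by rw [hδ]; exact min_le_right _ _)
    have h4 : (ℓ v).re < R := by
      rw [← Real.exp_lt_exp, ← Complex.norm_exp, hℓx v hv]
      exact hv3
    have h5 := hFb (ℓ v) h4
    rw [hℓx v hv] at h5
    have hvP0 : 0 < ‖v - P‖ := by
      rw [← hℓx v hv]
      exact norm_pos_iff.2 (Complex.exp_ne_zero _)
    have h6 : ρ - ‖v - c‖ ≤ ‖v - P‖ := by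
      have h7 : ‖P - c‖ ≤ ‖P - v‖ + ‖v - c‖ := norm_sub_le_norm_sub_add_norm_sub _ _ _
      rw [mem_sphere_iff_norm.1 hPc, norm_sub_rev P v] at h7
      linarith
    have h8 : ‖X v‖ ≤ B' * ‖v - P‖ ^ (-γ) := by
      rw [hX]
      exact h5
    calc (ρ - ‖v - c‖) * ‖X v‖ ≤ ‖v - P‖ * (B' * ‖v - P‖ ^ (-γ)) :=
          mul_le_mul h6 h8 (norm_nonneg _) hvP0.le
      _ = B' * ‖v - P‖ ^ (1 - γ) := by
          rw [sub_eq_add_neg (1 : ℝ) γ, Real.rpow_add hvP0, Real.rpow_one]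
          ring
      _ ≤ η := (hδ1 _ hvP0 hv1).le) hcm (hXA.vg 0) hPc
  refine ⟨ε, E, hε, hE, ?_⟩
  -- identity theorem in the half plane
  have hD : ∀ v ∈ HP L ∩ HP (Real.log ε), ee P v ∈ ball P ε := by
    intro v hv
    have h1 : v.re < Real.log ε := hv.2
    rw [mem_ball_iff_norm]
    unfold ee
    rw [add_sub_cancel_left, Complex.norm_exp, ← Real.lt_log_iff_exp_lt hε]
    exact h1
  have hEe : DifferentiableOn ℂ (fun v => E (ee P v)) (HP L ∩ HP (Real.log ε)) := by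
    intro v hv
    have h1 : DifferentiableAt ℂ E (ee P v) :=
      hE.differentiableAt (isOpen_ball.mem_nhds (hD v hv))
    exact (DifferentiableAt.comp (f := fun v => ee P v) v h1 (ee_diff P v)).differentiableWithinAt
  obtain ⟨u1, hu1, hu2⟩ : ∃ u1 : ℂ, u1 ∈ ball c ρ ∧ u1 ∈ ball P ε := by
    have h1 : P ∈ closure (ball c ρ) := by
      rw [closure_ball _ hρ0.ne']
      exact sphere_subset_closedBall hPc
    obtain ⟨q, hq⟩ := mem_closure_iff_nhds.1 h1 (ball P ε) (ball_mem_nhds P hε)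
    exact ⟨q, hq.2, hq.1⟩
  have hw1 : ℓ u1 ∈ HP L ∩ HP (Real.log ε) := by
    refine ⟨hℓm u1 hu1, ?_⟩
    show (ℓ u1).re < Real.log ε
    rw [Real.lt_log_iff_exp_lt hε, ← Complex.norm_exp, hℓx u1 hu1]
    exact mem_ball_iff_norm.1 hu2
  have hopen : IsOpen (HP L ∩ HP (Real.log ε)) := (hp_open _).inter (hp_open _)
  have hagree : EqOn F (fun v => E (ee P v)) (HP L ∩ HP (Real.log ε)) := by
    refine AnalyticOnNhd.eqOn_of_preconnected_of_frequently_eq
      ((hF.mono inter_subset_left).analyticOnNhd hopen) (hEe.analyticOnNhd hopen)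
      ((hp_convex _).inter (hp_convex _)).isPreconnected hw1 ?_
    -- points `ℓ u`, `u` near `u1`
    have h1 : Tendsto ℓ (𝓝[≠] u1) (𝓝[≠] (ℓ u1)) := by
      rw [tendsto_nhdsWithin_iff]
      refine ⟨(hℓd u1 hu1).continuousAt.tendsto.mono_left nhdsWithin_le_nhds, ?_⟩
      have h2 : ∀ᶠ u in 𝓝[≠] u1, u ∈ ball c ρ :=
        nhdsWithin_le_nhds (isOpen_ball.mem_nhds hu1)
      filter_upwards [h2, self_mem_nhdsWithin] with u h3 h4 h5
      apply h4
      have h6 := hℓe u h3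
      rw [show ℓ u = ℓ u1 from h5, hℓe u1 hu1] at h6
      exact h6.symm
    refine h1.frequently ?_
    refine Eventually.frequently ?_
    have h2 : ∀ᶠ u in 𝓝[≠] u1, u ∈ ball c ρ ∩ ball P ε :=
      nhdsWithin_le_nhds ((isOpen_ball.inter isOpen_ball).mem_nhds ⟨hu1, hu2⟩)
    filter_upwards [h2] with u hu
    rw [hℓe u hu.1, hEX u ⟨hu.2, hu.1⟩, hX]
  intro v hv1 hv2
  exact hagree ⟨hv1, hv2⟩

end Pool.Agent.T9h43.SA
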