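import Pool.Agent.T9h43.SA.Asy

/-!
The saddle point argument: no exponential growth faster than `exp (-v)`.
-/

set_option autoImplicit false

open Complex MeasureTheory Metric Set Filter Topology ComplexConjugate
open Pool.Agent.Y245.SC Pool.Agent.Y245.UC

namespace Pool.Agent.T9h43.SA

/-- the phase on a vertical line -/
noncomputable def hh (x F : ℂ → ℂ) (v : ℂ) (ψ : ℝ) : ℂ :=
  (x (v + ψ * I) - x v) / deriv x v - (F (v + ψ * I) - F v) / deriv F v

theorem vert_deriv {y : ℂ → ℂ} {L : ℝ} (hy : DifferentiableOn ℂ y (HP L)) {v : ℂ} (hv : v ∈ HP L)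
    (ψ : ℝ) : HasDerivAt (fun ψ : ℝ => y (v + ψ * I)) (deriv y (v + ψ * I) * I) ψ := by
  have hm : v + ψ * I ∈ HP L := by
    unfold HP at *
    simpa using hv
  have h1 : HasDerivAt y (deriv y (v + ψ * I)) (v + (ψ : ℂ) * I) :=
    (hy.differentiableAt ((hp_open L).mem_nhds hm)).hasDerivAt
  have h2 : HasDerivAt (fun z : ℂ => v + z * I) I (ψ : ℂ) := by
    simpa using ((hasDerivAt_id (ψ : ℂ)).mul_const I).const_add v
  have h3 : HasDerivAt (fun z : ℂ => y (v + z * I)) (deriv y (v + ψ * I) * I) (ψ : ℂ) :=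
    HasDerivAt.comp (h₂ := y) (h := fun z : ℂ => v + z * I) (ψ : ℂ) h1 h2
  exact h3.comp_ofReal

section

variable {x F : ℂ → ℂ} {L γ : ℝ} {lam A : ℂ}

theorem hh_close (hγ : 1 < γ) (hx : DifferentiableOn ℂ x (HP L))
    (hF : DifferentiableOn ℂ F (HP L)) (hlam : lam ≠ 0) (hA : A ≠ 0)
    (hx1 : Asy (deriv x) 1 lam) (hF1 : Asy (deriv F) (-γ) (-γ * A)) :
    ∀ ε : ℝ, 0 < ε → ∃ R : ℝ, R ≤ L ∧ ∀ v : ℂ, v.re < R → deriv x v ≠ 0 ∧ deriv F v ≠ 0 ∧
      ∀ ψ : ℝ, ‖hh x F v ψ - k0 γ ψ‖ ≤ ε * ψ ^ 2 := by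
  intro ε hε
  have hγ0 : 0 < γ := by linarith
  have hγc : (γ : ℂ) ≠ 0 := by exact_mod_cast hγ0.ne'
  have hx2 : Asy (deriv (deriv x)) 1 (((1 : ℝ) : ℂ) * lam) :=
    asy_deriv (hx.deriv (hp_open L)) hx1
  have hF2 : Asy (deriv (deriv F)) (-γ) (((-γ : ℝ) : ℂ) * (-γ * A)) :=
    asy_deriv (hF.deriv (hp_open L)) hF1
  have hB : -(γ : ℂ) * A ≠ 0 := mul_ne_zero (neg_ne_zero.2 hγc) hA
  obtain ⟨R1, hR1⟩ := asy_quot hx2 hx1 hlam (ε / 2) (by positivity)
  obtain ⟨R2, hR2⟩ := asy_quot hF2 hF1 hB (ε / 2) (by positivity)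
  refine ⟨min L (min R1 R2), min_le_left _ _, fun v hv => ?_⟩
  have hvL : v ∈ HP L := hv.trans_le (min_le_left _ _)
  have hv1 : v.re < R1 := hv.trans_le ((min_le_right _ _).trans (min_le_left _ _))
  have hv2 : v.re < R2 := hv.trans_le ((min_le_right _ _).trans (min_le_right _ _))
  have hx0 : deriv x v ≠ 0 := (hR1 v v hv1 hv1).1
  have hF0 : deriv F v ≠ 0 := (hR2 v v hv2 hv2).1
  refine ⟨hx0, hF0, fun ψ => ?_⟩
  refine tay2 (q := fun ψ => hh x F v ψ - k0 γ ψ)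
    (q1 := fun ψ => (deriv x (v + ψ * I) * I / deriv x v - deriv F (v + ψ * I) * I / deriv F v) -
      k1 γ ψ)
    (q2 := fun ψ => (deriv (deriv x) (v + ψ * I) * I * I / deriv x v -
      deriv (deriv F) (v + ψ * I) * I * I / deriv F v) - k2 γ ψ)
    (abs_nonneg ψ) (by simp [hh, k0]) (by simp [k1, hx0, hF0]) ?_ ?_ ?_ ψ
    ⟨neg_abs_le ψ, le_abs_self ψ⟩
  · intro t
    exact ((((vert_deriv hx hvL t).sub_const _).div_const _).sub
      (((vert_deriv hF hvL t).sub_const _).div_const _)).sub (k0_deriv hγ0 t)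
  · intro t
    exact (((((vert_deriv (hx.deriv (hp_open L)) hvL t).mul_const I)).div_const _).sub
      ((((vert_deriv (hF.deriv (hp_open L)) hvL t).mul_const I)).div_const _)).sub (k1_deriv γ t)
  · intro t _
    have hre : (v + t * I).re = v.re := by simp
    have e1 := (hR1 v (v + t * I) hv1 (by rw [hre]; exact hv1)).2
    have e2 := (hR2 v (v + t * I) hv2 (by rw [hre]; exact hv2)).2
    have g1 : ‖deriv (deriv x) (v + t * I) / deriv x v - exp (t * I)‖ ≤ ε / 2 := by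
      have h1 : deriv (deriv x) (v + t * I) / deriv x v - exp (t * I) =
          exp (t * I) * (deriv (deriv x) (v + t * I) / deriv x v *
            exp (-(((1 : ℝ) : ℂ) * (v + t * I - v))) - ((1 : ℝ) : ℂ) * lam / lam) := by
        have h2 : exp ((t : ℂ) * I) * exp (-(((1 : ℝ) : ℂ) * (v + t * I - v))) = 1 := by
          rw [← Complex.exp_add]
          have : (t : ℂ) * I + -(((1 : ℝ) : ℂ) * (v + t * I - v)) = 0 := by
            push_cast
            ring
          rw [this, Complex.exp_zero]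
        have h3 : ((1 : ℝ) : ℂ) * lam / lam = 1 := by
          rw [ofReal_one, one_mul, div_self hlam]
        rw [h3]
        linear_combination -(deriv (deriv x) (v + t * I) / deriv x v) * h2
      rw [h1, norm_mul, Complex.norm_exp_ofReal_mul_I, one_mul]
      exact e1
    have g2 : ‖deriv (deriv F) (v + t * I) / deriv F v + γ * exp (-(γ * t) * I)‖ ≤ ε / 2 := by
      have h1 : deriv (deriv F) (v + t * I) / deriv F v + γ * exp (-(γ * t) * I) =
          exp (-(γ * t) * I) * (deriv (deriv F) (v + t * I) / deriv F v *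
            exp (-(((-γ : ℝ) : ℂ) * (v + t * I - v))) -
              ((-γ : ℝ) : ℂ) * (-γ * A) / (-γ * A)) := by
        have h2 : exp (-((γ : ℂ) * t) * I) * exp (-(((-γ : ℝ) : ℂ) * (v + t * I - v))) = 1 := by
          rw [← Complex.exp_add]
          have : -((γ : ℂ) * t) * I + -(((-γ : ℝ) : ℂ) * (v + t * I - v)) = 0 := by
            push_cast
            ring
          rw [this, Complex.exp_zero]
        have h3 : ((-γ : ℝ) : ℂ) * (-γ * A) / (-γ * A) = -γ := by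
          rw [mul_div_assoc, div_self hB, mul_one]
          push_cast
          ring
        rw [h3]
        linear_combination -(deriv (deriv F) (v + t * I) / deriv F v) * h2
      rw [h1, norm_mul, norm_e2', one_mul]
      exact e2
    have e3 : (deriv (deriv x) (v + t * I) * I * I / deriv x v -
      deriv (deriv F) (v + t * I) * I * I / deriv F v) - k2 γ t =
        -(deriv (deriv x) (v + t * I) / deriv x v - exp (t * I)) +
        (deriv (deriv F) (v + t * I) / deriv F v + γ * exp (-(γ * t) * I)) := by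
      unfold k2
      linear_combination (deriv (deriv x) (v + t * I) / deriv x v -
        deriv (deriv F) (v + t * I) / deriv F v) * I_mul_I
    show ‖(deriv (deriv x) (v + t * I) * I * I / deriv x v -
      deriv (deriv F) (v + t * I) * I * I / deriv F v) - k2 γ t‖ ≤ ε
    rw [e3]
    refine (norm_add_le _ _).trans ?_
    rw [norm_neg]
    linarith

end

/-- the points of the sequence -/
noncomputable def vk (M θs : ℝ) (k : ℕ) : ℂ := ((-((k : ℝ) + M) : ℝ) : ℂ) + θs * I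

theorem vk_re (M θs : ℝ) (k : ℕ) : (vk M θs k).re = -((k : ℝ) + M) := by
  simp [vk]

theorem vk_ev (M θs R : ℝ) : ∀ᶠ k : ℕ in atTop, (vk M θs k).re < R := by
  obtain ⟨n, hn⟩ := exists_nat_gt (-R - M)
  filter_upwards [eventually_ge_atTop n] with k hk
  rw [vk_re]
  have : (n : ℝ) ≤ k := by exact_mod_cast hk
  linarith

theorem vk_tendsto {y : ℂ → ℂ} {β : ℝ} {A : ℂ} (h : Asy y β A) (M θs : ℝ) :
    Tendsto (fun k => y (vk M θs k) * exp (-(β * vk M θs k))) atTop (𝓝 A) := by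
  rw [Metric.tendsto_atTop']
  intro ε hε
  obtain ⟨R, hR⟩ := h (ε / 2) (by positivity)
  obtain ⟨n, hn⟩ := eventually_atTop.1 (vk_ev M θs R)
  refine ⟨n, fun k hk => ?_⟩
  rw [dist_eq_norm]
  have := hR _ (hn k hk.le)
  linarith

theorem polar (z : ℂ) : z * exp (-((arg z : ℂ) * I)) = ‖z‖ := by
  have h := Complex.norm_mul_exp_arg_mul_I z
  have e : exp ((arg z : ℂ) * I) * exp (-((arg z : ℂ) * I)) = 1 := by
    rw [← Complex.exp_add]
    simp
  linear_combination (-exp (-((arg z : ℂ) * I))) * h + (‖z‖ : ℂ) * e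

/-- the large parameter -/
theorem param {a γ : ℝ} {X1 F1 : ℂ → ℂ} {lam A : ℂ} (ha : 0 < a) (hγ : 1 < γ) (hlam : lam ≠ 0)
    (hA : A ≠ 0) (hx1 : Asy X1 1 lam) (hF1 : Asy F1 (-γ) (-γ * A)) (M : ℝ) :
    ∃ (θs : ℝ) (T : ℕ → ℂ) (c : ℝ), 0 < c ∧
      (∀ k, T k ^ 2 = a * F1 (vk M θs k) * X1 (vk M θs k)) ∧
      (∀ᶠ k : ℕ in atTop, c * Real.exp ((γ - 1) / 2 * ((k : ℝ) + M)) ≤ ‖T k‖) ∧
      Tendsto (fun k => T k / (‖T k‖ : ℂ)) atTop (𝓝 1) := by
  have hγ0 : 0 < γ := by linarith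
  have hγ1 : γ - 1 ≠ 0 := by linarith
  obtain ⟨θs, hθs⟩ : ∃ θs : ℝ, θs = (Real.pi + arg A + arg lam) / (γ - 1) := ⟨_, rfl⟩
  have hθs' : (γ - 1) * θs = Real.pi + arg A + arg lam := by
    rw [hθs]
    field_simp
  obtain ⟨r, hr⟩ : ∃ r : ℕ → ℂ, r = fun k => a * F1 (vk M θs k) * X1 (vk M θs k) *
    ((Real.exp (-((γ - 1) * ((k : ℝ) + M))) : ℝ) : ℂ) := ⟨_, rfl⟩
  obtain ⟨K, hK⟩ : ∃ K : ℝ, K = a * γ * ‖A‖ * ‖lam‖ := ⟨_, rfl⟩
  have hK0 : 0 < K := by
    rw [hK]
    have := norm_pos_iff.2 hA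
    have := norm_pos_iff.2 hlam
    positivity
  have hrt : Tendsto r atTop (𝓝 (K : ℂ)) := by
    have h1 := (((vk_tendsto hF1 M θs).mul (vk_tendsto hx1 M θs)).const_mul (a : ℂ)).mul_const
      (exp (-((Real.pi + arg A + arg lam : ℝ) : ℂ) * I))
    have e1 : (a : ℂ) * (-γ * A * lam) * exp (-((Real.pi + arg A + arg lam : ℝ) : ℂ) * I) = K := by
      have h2 : exp (-((Real.pi + arg A + arg lam : ℝ) : ℂ) * I) =
          exp (-(Real.pi * I)) * exp (-(arg A * I)) * exp (-(arg lam * I)) := by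
        rw [← Complex.exp_add, ← Complex.exp_add]
        congr 1
        push_cast
        ring
      have h3 : exp (-((Real.pi : ℂ) * I)) = -1 := by
        rw [Complex.exp_neg, Complex.exp_pi_mul_I]
        norm_num
      have h4 : A * exp (-((arg A : ℂ) * I)) = ‖A‖ := polar A
      have h5 : lam * exp (-((arg lam : ℂ) * I)) = ‖lam‖ := polar lam
      rw [h2, h3, hK]
      push_cast
      calc (a : ℂ) * (-γ * A * lam) * (-1 * exp (-((arg A : ℂ) * I)) * exp (-((arg lam : ℂ) * I)))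
          = a * γ * (A * exp (-((arg A : ℂ) * I))) * (lam * exp (-((arg lam : ℂ) * I))) := by ring
        _ = _ := by rw [h4, h5]
    rw [e1] at h1
    refine h1.congr fun k => ?_
    rw [hr]
    simp only
    have h6 : exp (-(((-γ : ℝ) : ℂ) * vk M θs k)) * exp (-(((1 : ℝ) : ℂ) * vk M θs k)) *
        exp (-((Real.pi + arg A + arg lam : ℝ) : ℂ) * I) =
        ((Real.exp (-((γ - 1) * ((k : ℝ) + M))) : ℝ) : ℂ) := by
      rw [← Complex.exp_add, ← Complex.exp_add, Complex.ofReal_exp]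
      congr 1
      rw [← hθs']
      unfold vk
      push_cast
      ring
    rw [← h6]
    ring
  obtain ⟨σ, hσ⟩ : ∃ σ : ℕ → ℂ, σ = fun k => r k ^ (((2 : ℕ) : ℂ)⁻¹) := ⟨_, rfl⟩
  have hσ2 : ∀ k, σ k ^ 2 = r k := fun k => by
    rw [hσ]
    exact Complex.cpow_nat_inv_pow _ (by norm_num)
  have hKc : ((K : ℂ)) ^ (((2 : ℕ) : ℂ)⁻¹) = ((K ^ ((2 : ℝ)⁻¹) : ℝ) : ℂ) := by
    rw [Complex.ofReal_cpow hK0.le]
    push_cast
    rfl
  obtain ⟨K2, hK2⟩ : ∃ K2 : ℝ, K2 = K ^ ((2 : ℝ)⁻¹) := ⟨_, rfl⟩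
  have hK20 : 0 < K2 := by
    rw [hK2]
    exact Real.rpow_pos_of_pos hK0 _
  have hσt : Tendsto σ atTop (𝓝 (K2 : ℂ)) := by
    have h1 : ContinuousAt (fun z : ℂ => z ^ (((2 : ℕ) : ℂ)⁻¹)) (K : ℂ) :=
      continuousAt_cpow_const (Or.inl (by simpa using hK0))
    have h2 := h1.tendsto.comp hrt
    rw [hKc, ← hK2] at h2
    rw [hσ]
    exact h2
  obtain ⟨E, hE⟩ : ∃ E : ℕ → ℝ, E = fun k : ℕ => Real.exp ((γ - 1) / 2 * ((k : ℝ) + M)) :=
    ⟨_, rfl⟩
  have hE0 : ∀ k, 0 < E k := fun k => by rw [hE]; exact Real.exp_pos _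
  have hσn : Tendsto (fun k => ‖σ k‖) atTop (𝓝 K2) := by
    have := hσt.norm
    rwa [Complex.norm_real, Real.norm_of_nonneg hK20.le] at this
  refine ⟨θs, fun k => (E k : ℂ) * σ k, K2 / 2, by positivity, fun k => ?_, ?_, ?_⟩
  · rw [mul_pow, hσ2, hr]
    simp only
    have h1 : (E k : ℂ) ^ 2 * ((Real.exp (-((γ - 1) * ((k : ℝ) + M))) : ℝ) : ℂ) = 1 := by
      rw [hE]
      have : Real.exp ((γ - 1) / 2 * ((k : ℝ) + M)) ^ 2 *
          Real.exp (-((γ - 1) * ((k : ℝ) + M))) = 1 := by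
        rw [← Real.exp_nat_mul, ← Real.exp_add]
        have : ((2 : ℕ) : ℝ) * ((γ - 1) / 2 * ((k : ℝ) + M)) + -((γ - 1) * ((k : ℝ) + M)) = 0 := by
          push_cast
          ring
        rw [this, Real.exp_zero]
      exact_mod_cast this
    linear_combination (a * F1 (vk M θs k) * X1 (vk M θs k)) * h1
  · have h1 : ∀ᶠ k in atTop, K2 / 2 < ‖σ k‖ := hσn.eventually_const_lt (by linarith)
    filter_upwards [h1] with k hk
    rw [norm_mul, Complex.norm_real, Real.norm_of_nonneg (hE0 k).le, mul_comm]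
    have : Real.exp ((γ - 1) / 2 * ((k : ℝ) + M)) = E k := by rw [hE]
    rw [this]
    exact mul_le_mul_of_nonneg_left hk.le (hE0 k).le
  · have h1 : Tendsto (fun k => σ k / (‖σ k‖ : ℂ)) atTop (𝓝 ((K2 : ℂ) / (K2 : ℂ))) := by
      refine hσt.div ?_ (by exact_mod_cast hK20.ne')
      exact (Complex.continuous_ofReal.tendsto K2).comp hσn
    have hK2c : (K2 : ℂ) ≠ 0 := by exact_mod_cast hK20.ne'
    rw [div_self hK2c] at h1
    refine h1.congr fun k => ?_
    rw [norm_mul, Complex.norm_real, Real.norm_of_nonneg (hE0 k).le]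
    have hEc : (E k : ℂ) ≠ 0 := by exact_mod_cast (hE0 k).ne'
    push_cast
    rw [mul_div_mul_left _ _ hEc]

end Pool.Agent.T9h43.SA
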