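import Pool.Agent.T9h43.SA.Sad

/-!
The saddle point argument, the main term.
-/

set_option autoImplicit false

open Complex MeasureTheory Metric Set Filter Topology ComplexConjugate
open Pool.Agent.Y245.SC Pool.Agent.Y245.UC

namespace Pool.Agent.T9h43.SA

theorem seg_norm {g : ℂ → ℂ} {p q : ℂ} {M : ℝ}
    (h : ∀ t ∈ Icc (0 : ℝ) 1, ‖g (p + t * (q - p))‖ ≤ M) : ‖seg g p q‖ ≤ M * ‖q - p‖ := by
  unfold seg
  have h1 := intervalIntegral.norm_integral_le_of_norm_le_const (a := (0 : ℝ)) (b := 1)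
    (f := fun t : ℝ => g (p + t * (q - p)) * (q - p)) (C := M * ‖q - p‖) ?_
  · simpa using h1
  · intro t ht
    rw [uIoc_of_le zero_le_one] at ht
    rw [norm_mul]
    exact mul_le_mul_of_nonneg_right (h t ⟨ht.1.le, ht.2⟩) (norm_nonneg _)

theorem vert_seg (g : ℂ → ℂ) (v : ℂ) :
    seg g (v - Real.pi * I) (v + Real.pi * I) =
      I * ∫ ψ in (-Real.pi)..Real.pi, g (v + ψ * I) := by
  have h1 := intervalIntegral.integral_comp_mul_add (a := 0) (b := 1)
    (fun ψ : ℝ => g (v + (ψ : ℂ) * I)) (c := 2 * Real.pi) (by positivity) (-Real.pi)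
  have e1 : (2 : ℝ) * Real.pi * 0 + -Real.pi = -Real.pi := by ring
  have e2 : (2 : ℝ) * Real.pi * 1 + -Real.pi = Real.pi := by ring
  rw [e1, e2] at h1
  unfold seg
  have e3 : ∀ t : ℝ, g (v - Real.pi * I + t * (v + Real.pi * I - (v - Real.pi * I))) *
      (v + Real.pi * I - (v - Real.pi * I)) =
      (2 * Real.pi * I) * g (v + ((2 * Real.pi * t + -Real.pi : ℝ) : ℂ) * I) := by
    intro t
    have : v - Real.pi * I + t * (v + Real.pi * I - (v - Real.pi * I)) =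
        v + ((2 * Real.pi * t + -Real.pi : ℝ) : ℂ) * I := by
      push_cast
      ring
    rw [this]
    ring
  simp only [e3]
  rw [intervalIntegral.integral_const_mul, h1, real_smul]
  push_cast
  have hpi : (Real.pi : ℂ) ≠ 0 := by exact_mod_cast Real.pi_ne_zero
  field_simp

section

variable {x F : ℂ → ℂ} {L γ M θs : ℝ} {lam A : ℂ} {T : ℕ → ℂ}

theorem vk_mem (hM : -M < L) (k : ℕ) : vk M θs k ∈ HP L := by
  show (vk M θs k).re < L
  rw [vk_re]
  have : (0 : ℝ) ≤ k := Nat.cast_nonneg k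
  linarith

theorem lap_ver (hγ : 1 < γ) (hx : DifferentiableOn ℂ x (HP L))
    (hF : DifferentiableOn ℂ F (HP L)) (hlam : lam ≠ 0) (hA : A ≠ 0)
    (hx1 : Asy (deriv x) 1 lam) (hF1 : Asy (deriv F) (-γ) (-γ * A)) (hM : -M < L)
    (hT : Tendsto (fun k => ‖T k‖) atTop atTop)
    (hTu : Tendsto (fun k => T k / (‖T k‖ : ℂ)) atTop (𝓝 1)) :
    ∃ κ : ℝ, 0 < κ ∧ ∀ᶠ k in atTop, κ / √‖T k‖ ≤
      ‖∫ ψ in (-Real.pi)..Real.pi, exp (T k * hh x F (vk M θs k) ψ) *
        (deriv x (vk M θs k + ψ * I) / deriv x (vk M θs k))‖ := by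
  have hγ0 : 0 < γ := by linarith
  have hπ := Real.pi_pos
  have hcl := hh_close hγ hx hF hlam hA hx1 hF1
  -- uniform closeness along the sequence
  have hclk : ∀ ε : ℝ, 0 < ε → ∀ᶠ k in atTop, ∀ ψ : ℝ,
      ‖hh x F (vk M θs k) ψ - k0 γ ψ‖ ≤ ε * ψ ^ 2 := by
    intro ε hε
    obtain ⟨R, -, hR⟩ := hcl ε hε
    filter_upwards [vk_ev M θs R] with k hk
    exact (hR _ hk).2.2
  have hgk : ∀ ε : ℝ, 0 < ε → ∀ᶠ k in atTop, ∀ ψ : ℝ,
      ‖deriv x (vk M θs k + ψ * I) / deriv x (vk M θs k) - exp (ψ * I)‖ ≤ ε := by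
    intro ε hε
    obtain ⟨R, hR⟩ := asy_quot hx1 hx1 hlam ε hε
    filter_upwards [vk_ev M θs R] with k hk ψ
    have hre : (vk M θs k + ψ * I).re = (vk M θs k).re := by simp
    have e1 := (hR (vk M θs k) (vk M θs k + ψ * I) hk (by rw [hre]; exact hk)).2
    have h1 : deriv x (vk M θs k + ψ * I) / deriv x (vk M θs k) - exp (ψ * I) =
        exp (ψ * I) * (deriv x (vk M θs k + ψ * I) / deriv x (vk M θs k) *
          exp (-(((1 : ℝ) : ℂ) * (vk M θs k + ψ * I - vk M θs k))) - lam / lam) := by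
      have h2 : exp ((ψ : ℂ) * I) *
          exp (-(((1 : ℝ) : ℂ) * (vk M θs k + ψ * I - vk M θs k))) = 1 := by
        rw [← Complex.exp_add]
        have : (ψ : ℂ) * I + -(((1 : ℝ) : ℂ) * (vk M θs k + ψ * I - vk M θs k)) = 0 := by
          push_cast
          ring
        rw [this, Complex.exp_zero]
      rw [div_self hlam]
      linear_combination -(deriv x (vk M θs k + ψ * I) / deriv x (vk M θs k)) * h2
    rw [h1, norm_mul, Complex.norm_exp_ofReal_mul_I, one_mul]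
    exact e1
  have hu0 : Tendsto (fun k => ‖T k / (‖T k‖ : ℂ) - 1‖) atTop (𝓝 0) := by
    have := (hTu.sub_const 1).norm
    simpa using this
  have hTpos : ∀ᶠ k in atTop, 0 < ‖T k‖ := hT.eventually_gt_atTop 0
  have hsqrt : Tendsto (fun k => √‖T k‖) atTop atTop := Real.tendsto_sqrt_atTop.comp hT
  have hθt : ∀ u : ℝ, Tendsto (fun k => u / √‖T k‖) atTop (𝓝 0) := fun u =>
    Tendsto.div_atTop tendsto_const_nhds hsqrt
  have hsq : ∀ (u : ℝ) (k : ℕ), (u / √‖T k‖) ^ 2 = u ^ 2 / ‖T k‖ := fun u k => by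
    rw [div_pow, Real.sq_sqrt (norm_nonneg _)]
  obtain ⟨g, hg⟩ : ∃ g : ℕ → ℝ → ℂ, g = fun (k : ℕ) (ψ : ℝ) =>
    deriv x (vk M θs k + ψ * I) / deriv x (vk M θs k) := ⟨_, rfl⟩
  have hgoal := laplace T (fun k ψ => hh x F (vk M θs k) ψ) g (1 / Real.pi ^ 2) 2 (1 + γ) 1
    (by positivity) (by positivity) one_ne_zero hT ?_ ?_ ?_ ?_ ?_ ?_
  · obtain ⟨κ, hκ, hev⟩ := hgoal
    refine ⟨κ, hκ, ?_⟩
    filter_upwards [hev] with k hk
    rw [hg] at hk
    exact hk
  · intro k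
    refine Continuous.continuousOn ?_
    have hc : ∀ y : ℂ → ℂ, DifferentiableOn ℂ y (HP L) →
        Continuous fun ψ : ℝ => y (vk M θs k + ψ * I) := fun y hy =>
      continuous_iff_continuousAt.2 fun ψ => (vert_deriv hy (vk_mem hM k) ψ).continuousAt
    unfold hh
    exact (((hc x hx).sub continuous_const).div_const _).sub
      (((hc F hF).sub continuous_const).div_const _)
  · intro k
    refine Continuous.continuousOn ?_
    rw [hg]
    exact (continuous_iff_continuousAt.2 fun ψ => (vert_deriv (hx.deriv (hp_open L))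
      (vk_mem hM k) ψ).continuousAt).div_const _
  · have h1 : ∀ᶠ k in atTop, ‖T k / (‖T k‖ : ℂ) - 1‖ < 1 / (2 * Real.pi ^ 2 * (1 + γ)) :=
      hu0.eventually_lt_const (by positivity)
    filter_upwards [hclk (1 / (2 * Real.pi ^ 2 * 1)) (by positivity), h1, hTpos]
      with k h2 h3 h4 ψ hψ
    have hψ' : |ψ| ≤ Real.pi := abs_le.2 hψ
    obtain ⟨u, hu⟩ : ∃ u, u = T k / (‖T k‖ : ℂ) := ⟨_, rfl⟩
    have hTc : (‖T k‖ : ℂ) ≠ 0 := by exact_mod_cast h4.ne'
    have hTu : T k = (‖T k‖ : ℂ) * u := by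
      rw [hu]
      field_simp
    have hun : ‖u‖ = 1 := by
      rw [hu, norm_div, Complex.norm_real, Real.norm_of_nonneg h4.le, div_self h4.ne']
    rw [← hu] at h3
    obtain ⟨q, hq⟩ : ∃ q, q = hh x F (vk M θs k) ψ - k0 γ ψ := ⟨_, rfl⟩
    have e1 : T k * hh x F (vk M θs k) ψ =
        (‖T k‖ : ℂ) * (k0 γ ψ + ((u - 1) * k0 γ ψ + u * q)) := by
      rw [hq]
      linear_combination (hh x F (vk M θs k) ψ) * hTu
    rw [e1, Complex.re_ofReal_mul, Complex.add_re]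
    have b1 := k0_re hγ0 hψ'
    have b2 : ((u - 1) * k0 γ ψ + u * q).re ≤ (1 / Real.pi ^ 2) * ψ ^ 2 := by
      refine (Complex.re_le_norm _).trans ((norm_add_le _ _).trans ?_)
      rw [norm_mul, norm_mul, hun, one_mul]
      have c1 : ‖u - 1‖ * ‖k0 γ ψ‖ ≤ (1 / (2 * Real.pi ^ 2 * (1 + γ))) * ((1 + γ) * ψ ^ 2) :=
        mul_le_mul h3.le (k0_bd hγ0 ψ) (norm_nonneg _) (by positivity)
      have c2 : (1 / (2 * Real.pi ^ 2 * (1 + γ))) * ((1 + γ) * ψ ^ 2) =
          (1 / (2 * Real.pi ^ 2 * 1)) * ψ ^ 2 := by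
        field_simp
      have c3 := h2 ψ
      rw [← hq] at c3
      have c4 : (1 / Real.pi ^ 2) * ψ ^ 2 = (1 / (2 * Real.pi ^ 2 * 1)) * ψ ^ 2 +
          (1 / (2 * Real.pi ^ 2 * 1)) * ψ ^ 2 := by
        field_simp
        ring
      rw [c4]
      rw [c2] at c1
      exact add_le_add c1 c3
    have b3 : (k0 γ ψ).re + ((u - 1) * k0 γ ψ + u * q).re ≤ -(1 / Real.pi ^ 2) * ψ ^ 2 := by
      have : -(2 / Real.pi ^ 2) * ψ ^ 2 + (1 / Real.pi ^ 2) * ψ ^ 2 =
          -(1 / Real.pi ^ 2) * ψ ^ 2 := by ring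
      rw [← this]
      exact add_le_add b1 b2
    calc ‖T k‖ * ((k0 γ ψ).re + ((u - 1) * k0 γ ψ + u * q).re)
        ≤ ‖T k‖ * (-(1 / Real.pi ^ 2) * ψ ^ 2) := mul_le_mul_of_nonneg_left b3 h4.le
      _ = _ := by ring
  · filter_upwards [hgk 1 one_pos] with k hk ψ _
    have h1 := hk ψ
    have h2 : ‖g k ψ‖ ≤ ‖g k ψ - exp (ψ * I)‖ + ‖exp ((ψ : ℂ) * I)‖ := by
      have := norm_add_le (g k ψ - exp (ψ * I)) (exp ((ψ : ℂ) * I))
      rwa [sub_add_cancel] at this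
    rw [Complex.norm_exp_ofReal_mul_I] at h2
    have h3 : ‖g k ψ - exp (ψ * I)‖ ≤ 1 := by
      rw [hg]
      exact h1
    linarith
  · intro u
    have L1 : Tendsto (fun k => T k * (k0 γ (u / √‖T k‖) +
        (((1 + γ) * (u / √‖T k‖) ^ 2 / 2 : ℝ) : ℂ))) atTop (𝓝 0) := by
      have hz : Tendsto (fun k => (1 + γ ^ 2) * u ^ 2 * |u / √‖T k‖|) atTop (𝓝 0) := by
        have := ((hθt u).abs).const_mul ((1 + γ ^ 2) * u ^ 2)
        simpa using this
      refine squeeze_zero_norm' ?_ hz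
      filter_upwards [hTpos] with k hk
      rw [norm_mul]
      have h1 := k0_taylor hγ0 (u / √‖T k‖)
      rw [hsq] at h1 ⊢
      calc ‖T k‖ * _ ≤ ‖T k‖ * ((1 + γ ^ 2) * |u / √‖T k‖| * (u ^ 2 / ‖T k‖)) :=
            mul_le_mul_of_nonneg_left h1 (norm_nonneg _)
        _ = _ := by
            have := hk.ne'
            field_simp
    have L2 : Tendsto (fun k => T k * (hh x F (vk M θs k) (u / √‖T k‖) - k0 γ (u / √‖T k‖)))
        atTop (𝓝 0) := by
      rw [Metric.tendsto_atTop']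
      intro ε hε
      have h1 := hclk (ε / (2 * (u ^ 2 + 1))) (by positivity)
      obtain ⟨n, hn⟩ := eventually_atTop.1 (h1.and hTpos)
      refine ⟨n, fun k hk => ?_⟩
      obtain ⟨h2, h3⟩ := hn k hk.le
      have h4 := h2 (u / √‖T k‖)
      rw [hsq] at h4
      rw [dist_zero_right, norm_mul]
      calc ‖T k‖ * _ ≤ ‖T k‖ * (ε / (2 * (u ^ 2 + 1)) * (u ^ 2 / ‖T k‖)) :=
            mul_le_mul_of_nonneg_left h4 (norm_nonneg _)
        _ = ε * (u ^ 2 / (2 * (u ^ 2 + 1))) := by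
            have := h3.ne'
            field_simp
        _ < ε := by
            have h5 : u ^ 2 / (2 * (u ^ 2 + 1)) < 1 := by
              rw [div_lt_one (by positivity)]
              nlinarith [sq_nonneg u]
            nlinarith
    have L3 : Tendsto (fun k => -(((1 + γ) * u ^ 2 / 2 : ℝ) : ℂ) * (T k / (‖T k‖ : ℂ))) atTop
        (𝓝 (-(((1 + γ) * u ^ 2 / 2 : ℝ) : ℂ) * 1)) := hTu.const_mul _
    have L4 := (L1.add L2).add L3
    have elim : (0 : ℂ) + 0 + -(((1 + γ) * u ^ 2 / 2 : ℝ) : ℂ) * 1 =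
        (((-((1 + γ) * u ^ 2 / 2) : ℝ)) : ℂ) := by
      push_cast
      ring
    rw [elim] at L4
    refine L4.congr' ?_
    filter_upwards [hTpos] with k hk
    have hTc : (‖T k‖ : ℂ) ≠ 0 := by exact_mod_cast hk.ne'
    rw [hsq]
    push_cast
    field_simp
    ring
  · intro u
    have h1 : Tendsto (fun k => exp (((u / √‖T k‖ : ℝ) : ℂ) * I)) atTop (𝓝 1) := by
      have h2 : Continuous (fun t : ℝ => exp ((t : ℂ) * I)) := by fun_prop
      have h3 := (h2.tendsto 0).comp (hθt u)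
      simpa [Function.comp_def] using h3
    have h2 : Tendsto (fun k => g k (u / √‖T k‖) - exp (((u / √‖T k‖ : ℝ) : ℂ) * I)) atTop
        (𝓝 0) := by
      rw [Metric.tendsto_atTop']
      intro ε hε
      obtain ⟨n, hn⟩ := eventually_atTop.1 (hgk (ε / 2) (by positivity))
      refine ⟨n, fun k hk => ?_⟩
      have h3 := hn k hk.le (u / √‖T k‖)
      rw [dist_zero_right, hg]
      exact h3.trans_lt (by linarith)
    have h3 := h2.add h1
    simpa using h3

end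

end Pool.Agent.T9h43.SA
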