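import Pool.Agent.Y508.UC.Res
import Pool.Agent.Y245.UC.Main

/-!
The one-turn relation: the Volterra equation on the logarithmic covering of a punctured disc.
-/

set_option autoImplicit false

open Complex MeasureTheory Metric Set Filter Topology ComplexConjugate
open Pool.Agent.Y245.SC Pool.Agent.Y245.UC
open Pool.Agent.Y508.UC (ku ku_diff par_ku)

namespace Pool.Agent.T9h43.SA

/-- the covering map -/
noncomputable def ee (P v : ℂ) : ℂ := P + exp v

theorem ee_deriv (P v : ℂ) : HasDerivAt (ee P) (exp v) v := (Complex.hasDerivAt_exp v).const_add P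

theorem ee_diff (P v : ℂ) : DifferentiableAt ℂ (ee P) v := (ee_deriv P v).differentiableAt

theorem ee_per (P v : ℂ) : ee P (v + 2 * Real.pi * I) = ee P v := by
  unfold ee
  rw [Complex.exp_periodic]

/-- the half plane -/
def HP (L : ℝ) : Set ℂ := {v : ℂ | v.re < L}

theorem hp_open (L : ℝ) : IsOpen (HP L) := isOpen_lt Complex.continuous_re continuous_const

theorem hp_convex (L : ℝ) : Convex ℝ (HP L) := convex_halfSpace_re_lt L

theorem hp_add {L : ℝ} {v : ℂ} (hv : v ∈ HP L) (n : ℕ) : v + n * (2 * Real.pi * I) ∈ HP L := by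
  unfold HP at *
  simp only [mem_setOf_eq] at *
  simpa using hv

theorem hp_add1 {L : ℝ} {v : ℂ} (hv : v ∈ HP L) : v + 2 * Real.pi * I ∈ HP L := by
  have := hp_add hv 1
  simpa using this

/-- the integrand in the logarithmic coordinate -/
noncomputable def hl (a : ℝ) (φ F : ℂ → ℂ) (b P z v : ℂ) : ℂ :=
  ku a φ (ee P v) z (F v - b) * exp v

theorem turn {φ X F : ℂ → ℂ} {a L : ℝ} {b P v1 : ℂ} (ha : 0 < a)
    (hφ : DifferentiableOn ℂ φ (ball 0 1)) (hB : ∀ v ∈ HP L, ee P v ∈ ball (0 : ℂ) 1)
    (hF : DifferentiableOn ℂ F (HP L)) (hv1 : v1 ∈ HP L)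
    (hX : ∀ᶠ w in 𝓝 (ee P v1), DifferentiableAt ℂ X w)
    (hFX : F =ᶠ[𝓝 v1] fun v => X (ee P v)) (hVG : VG a φ b (ee P v1) X) :
    ∀ v0 ∈ HP L, F (v0 + 2 * Real.pi * I) - F v0 =
      seg (hl a φ F b P (φ (ee P v0))) v0 (v0 + 2 * Real.pi * I) := by
  have hK := t_KAP
  have hSeg := t_SEG
  have hPar := t_PAR
  have hkap := (hK a ha.le).1
  obtain ⟨H, hHd, hHe⟩ := hVG
  have hFd : ∀ s ∈ HP L, DifferentiableAt ℂ F s := fun s hs =>
    hF.differentiableAt ((hp_open L).mem_nhds hs)
  have hψ : ∀ s ∈ HP L, DifferentiableAt ℂ (fun s => φ (ee P s)) s := by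
    intro s hs
    have h1 : DifferentiableAt ℂ φ (ee P s) :=
      hφ.differentiableAt (isOpen_ball.mem_nhds (hB s hs))
    exact DifferentiableAt.comp (f := fun s => ee P s) s h1 (ee_diff P s)
  have hHc : ∀ s ∈ HP L, DifferentiableAt ℂ (fun s => H (ee P s)) s := by
    intro s hs
    have h1 : DifferentiableAt ℂ H (ee P s) :=
      hHd.differentiableAt (isOpen_ball.mem_nhds (hB s hs))
    exact DifferentiableAt.comp (f := fun s => ee P s) s h1 (ee_diff P s)
  have hseg : ∀ s ∈ HP L, ∀ t ∈ Icc (0 : ℝ) 1, v1 + t * (s - v1) ∈ HP L := by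
    intro s hs t ht
    have h1 := hp_convex L hv1 hs (sub_nonneg.2 ht.2) ht.1 (by ring)
    convert h1 using 1
    simp only [real_smul]
    push_cast
    ring
  have hexpd : ∀ s : ℂ, DifferentiableAt ℂ exp s := fun s => Complex.differentiable_exp s
  -- the integrand is holomorphic
  have hhd : ∀ z : ℂ, DifferentiableOn ℂ (hl a φ F b P z) (HP L) := by
    intro z t ht
    have h1 : DifferentiableAt ℂ (fun q : ℂ × ℂ × ℂ => ku a φ q.1 q.2.1 q.2.2)
        (ee P t, z, F t - b) :=
      ku_diff hkap hφ (p := (ee P t, z, F t - b)) (hB t ht)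
    have h2 : DifferentiableAt ℂ (fun t => (ee P t, z, F t - b)) t :=
      (ee_diff P t).prodMk ((differentiableAt_const z).prodMk ((hFd t ht).sub_const b))
    exact ((DifferentiableAt.comp (f := fun t => (ee P t, z, F t - b)) t h1 h2).mul
      (hexpd t)).differentiableWithinAt
  -- the function which vanishes
  obtain ⟨A, hA⟩ : ∃ A : ℂ → ℂ, A = fun s => F s - b - H (ee P s) -
      seg (hl a φ F b P (φ (ee P s))) v1 s := ⟨_, rfl⟩
  have hAd : DifferentiableOn ℂ A (HP L) := by
    rw [hA]
    refine DifferentiableOn.sub (DifferentiableOn.sub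
      (DifferentiableOn.sub (fun s hs => (hFd s hs).differentiableWithinAt)
        (differentiableOn_const b)) (fun s hs => (hHc s hs).differentiableWithinAt)) ?_
    unfold seg hl
    have := par_ku hPar hkap hφ (hp_open L) (fun s t => ee P (v1 + t * (s - v1)))
      (fun s t => F (v1 + t * (s - v1)) - b)
      (fun s t => exp (v1 + t * (s - v1)) * (s - v1))
      (fun s => φ (ee P s))
      (fun s hs t ht => hB _ (hseg s hs t ht)) hψ ?_ ?_ ?_ ?_ ?_ ?_
    · simp only [← mul_assoc] at this
      exact this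
    · intro s hs t ht
      have h2 : ContinuousAt (fun x : ℂ × ℝ => v1 + x.2 * (x.1 - v1)) (s, t) := by
        fun_prop
      exact ContinuousAt.comp (f := fun x : ℂ × ℝ => v1 + x.2 * (x.1 - v1))
        (x := (s, t)) (ee_diff P _).continuousAt h2
    · intro s hs t ht
      have h2 : ContinuousAt (fun x : ℂ × ℝ => v1 + x.2 * (x.1 - v1)) (s, t) := by
        fun_prop
      exact (ContinuousAt.comp (f := fun x : ℂ × ℝ => v1 + x.2 * (x.1 - v1))
        (x := (s, t)) (g := F) (hFd _ (hseg s hs t ht)).continuousAt h2).sub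
        continuousAt_const
    · intro s hs t ht
      have h2 : ContinuousAt (fun x : ℂ × ℝ => v1 + x.2 * (x.1 - v1)) (s, t) := by
        fun_prop
      exact (ContinuousAt.comp (f := fun x : ℂ × ℝ => v1 + x.2 * (x.1 - v1))
        (x := (s, t)) (g := exp) (hexpd _).continuousAt h2).mul
        (continuousAt_fst.sub continuousAt_const)
    · intro s hs t ht
      exact DifferentiableAt.comp (f := fun s : ℂ => v1 + t * (s - v1)) s (ee_diff P _)
        (by fun_prop)
    · intro s hs t ht
      exact (DifferentiableAt.comp (f := fun s : ℂ => v1 + t * (s - v1))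
        (g := F) s (hFd _ (hseg s hs t ht)) (by fun_prop)).sub_const b
    · intro s hs t ht
      exact (DifferentiableAt.comp (f := fun s : ℂ => v1 + t * (s - v1))
        (g := exp) s (hexpd _) (by fun_prop)).mul (by fun_prop)
  -- it vanishes near `v1`
  have hcont : Tendsto (ee P) (𝓝 v1) (𝓝 (ee P v1)) := (ee_diff P v1).continuousAt.tendsto
  obtain ⟨δ, hδ0, hδ⟩ := Metric.eventually_nhds_iff_ball.1
    (hX.and (isOpen_ball.mem_nhds (hB v1 hv1)))
  have hAnear : ∀ᶠ s in 𝓝 v1, A s = 0 := by
    have h1 : ∀ᶠ s in 𝓝 v1, (s ∈ HP L ∧ ee P s ∈ ball (ee P v1) δ) ∧ F s = X (ee P s) :=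
      (Filter.Eventually.and ((hp_open L).mem_nhds hv1) (hcont (ball_mem_nhds _ hδ0))).and hFX
    obtain ⟨η, hη0, hη⟩ := Metric.eventually_nhds_iff_ball.1 h1
    filter_upwards [ball_mem_nhds v1 hη0, hcont.eventually hHe] with s hs hsV
    have hpt : ∀ t ∈ Icc (0 : ℝ) 1, v1 + t * (s - v1) ∈ ball v1 η := by
      intro t ht
      have h2 := (convex_ball v1 η) (mem_ball_self hη0) hs (sub_nonneg.2 ht.2) ht.1 (by ring)
      convert h2 using 1
      simp only [real_smul]
      push_cast
      ring
    obtain ⟨g, hg⟩ : ∃ g : ℂ → ℂ, g = fun v => ku a φ v (φ (ee P s)) (X v - b) := ⟨_, rfl⟩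
    have hgd : DifferentiableOn ℂ g (ball (ee P v1) δ) := by
      rw [hg]
      intro v hv
      have hv' := hδ v hv
      have h1 : DifferentiableAt ℂ (fun q : ℂ × ℂ × ℂ => ku a φ q.1 q.2.1 q.2.2)
          (v, φ (ee P s), X v - b) :=
        ku_diff hkap hφ (p := (v, φ (ee P s), X v - b)) hv'.2
      have h2 : DifferentiableAt ℂ (fun v => (v, φ (ee P s), X v - b)) v :=
        differentiableAt_id.prodMk ((differentiableAt_const _).prodMk
          (hv'.1.sub_const b))
      exact (DifferentiableAt.comp (f := fun v => (v, φ (ee P s), X v - b)) v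
        h1 h2).differentiableWithinAt
    have hder := (hSeg (ball (ee P v1) δ) g isOpen_ball (convex_ball _ δ) hgd).2 _
      (mem_ball_self hδ0)
    have hS : ∀ t ∈ Icc (0 : ℝ) 1, ee P (v1 + t * (s - v1)) ∈ ball (ee P v1) δ :=
      fun t ht => (hη _ (hpt t ht)).1.2
    have hftc : ∫ t in (0 : ℝ)..1, g (ee P (v1 + t * (s - v1))) *
        (exp (v1 + t * (s - v1)) * (s - v1)) =
        seg g (ee P v1) (ee P (v1 + ((1 : ℝ) : ℂ) * (s - v1))) -
          seg g (ee P v1) (ee P (v1 + ((0 : ℝ) : ℂ) * (s - v1))) := by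
      refine intervalIntegral.integral_eq_sub_of_hasDerivAt
        (f := fun t : ℝ => seg g (ee P v1) (ee P (v1 + t * (s - v1))))
        (f' := fun t : ℝ => g (ee P (v1 + t * (s - v1))) *
          (exp (v1 + t * (s - v1)) * (s - v1))) ?_ ?_
      · intro t ht
        rw [uIcc_of_le zero_le_one] at ht
        have h1 := hder _ (hS t ht)
        have h2 : HasDerivAt (fun τ : ℂ => ee P (v1 + τ * (s - v1)))
            (exp (v1 + t * (s - v1)) * (s - v1)) (t : ℂ) := by
          have h3 : HasDerivAt (fun τ : ℂ => v1 + τ * (s - v1)) (s - v1) (t : ℂ) := by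
            simpa using ((hasDerivAt_id (t : ℂ)).mul_const (s - v1)).const_add v1
          exact HasDerivAt.comp (h₂ := ee P) (h := fun τ : ℂ => v1 + τ * (s - v1)) (t : ℂ)
            (ee_deriv P (v1 + t * (s - v1))) h3
        have h4 := HasDerivAt.comp (t : ℂ) h1 h2
        exact h4.comp_ofReal
      · apply ContinuousOn.intervalIntegrable
        rw [uIcc_of_le zero_le_one]
        intro t ht
        have h1 : ContinuousAt g (ee P (v1 + t * (s - v1))) :=
          (hgd.differentiableAt (isOpen_ball.mem_nhds (hS t ht))).continuousAt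
        have h2 : ContinuousAt (fun t : ℝ => ee P (v1 + t * (s - v1))) t :=
          ContinuousAt.comp (f := fun t : ℝ => v1 + (t : ℂ) * (s - v1)) (ee_diff P _).continuousAt
            (by fun_prop)
        have h3 : ContinuousAt (fun t : ℝ => exp (v1 + t * (s - v1))) t :=
          ContinuousAt.comp (f := fun t : ℝ => v1 + (t : ℂ) * (s - v1))
            (hexpd _).continuousAt (by fun_prop)
        exact ((ContinuousAt.comp (f := fun t : ℝ => ee P (v1 + t * (s - v1))) h1 h2).mul
          (h3.mul continuousAt_const)).continuousWithinAt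
    have hseg2 : seg (hl a φ F b P (φ (ee P s))) v1 s =
        ∫ t in (0 : ℝ)..1, g (ee P (v1 + t * (s - v1))) *
          (exp (v1 + t * (s - v1)) * (s - v1)) := by
      unfold seg
      refine intervalIntegral.integral_congr fun t ht => ?_
      rw [uIcc_of_le zero_le_one] at ht
      rw [hg]
      unfold hl
      simp only
      rw [(hη _ (hpt t ht)).2]
      ring
    have e1 : v1 + ((1 : ℝ) : ℂ) * (s - v1) = s := by
      rw [ofReal_one]
      ring
    have e0 : v1 + ((0 : ℝ) : ℂ) * (s - v1) = v1 := by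
      rw [ofReal_zero]
      ring
    rw [e1, e0] at hftc
    have hz : seg g (ee P v1) (ee P v1) = 0 := by
      unfold seg
      simp
    have hV2 : (fun v => kerU a φ v (ee P s) (X v - b)) = g := by
      rw [hg]
      rfl
    rw [hV2] at hsV
    rw [hA]
    simp only
    rw [hseg2, hftc, hz, (hη s hs).2, hsV]
    ring
  -- identity theorem
  have hA0 : EqOn A 0 (HP L) := by
    have han : AnalyticOnNhd ℂ A (HP L) := hAd.analyticOnNhd (hp_open L)
    exact han.eqOn_zero_of_preconnected_of_eventuallyEq_zero (hp_convex L).isPreconnected hv1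
      hAnear
  intro v0 hv0
  have hv2 := hp_add1 hv0
  have h1 := hA0 hv0
  have h2 := hA0 hv2
  rw [hA] at h1 h2
  simp only [Pi.zero_apply, ee_per] at h1 h2
  have h3 := (hSeg (HP L) _ (hp_open L) (hp_convex L) (hhd (φ (ee P v0)))).1 v1 hv1 _ hv0 _ hv2
  linear_combination h2 - h1 - h3

end Pool.Agent.T9h43.SA
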